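import Pool.Agent.Rect.Mod.Conf.CardyM
import Pool.Agent.Rect.Mod.Stmt

/-!
# The hypothesis `hC` of the final statement from the existence of the conformal maps
-/

namespace RConf

theorem hC_of_map
    (H : ∀ m : ℝ, 0 < m → m < 1 → ∃ φ : ℂ → ℂ, RectMod.Stmt.IsRectangleMap 1 (RR m) m φ) :
    ∀ ρ : ℝ, 0 < ρ → ∃ m : ℝ, 0 < m ∧ m < 1 ∧ RectMod.cardy ρ = RectMod.Stmt.cardyF m ∧
      ∃ φ : ℂ → ℂ, RectMod.Stmt.IsRectangleMap 1 ρ m φ := by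
  intro ρ hρ
  refine ⟨mm ρ, mm_pos hρ, mm_lt_one hρ, cardy_eq hρ, ?_⟩
  have h := H (mm ρ) (mm_pos hρ) (mm_lt_one hρ)
  rwa [RR_mm hρ] at h

end RConf
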