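import Pool.Agent.Rect.Mod.Conf.Sides
import Pool.Agent.Rect.Mod.Stmt

/-!
The conformal map of the upper half plane onto a rectangle with given cross-ratio.
-/

set_option autoImplicit false

open Complex MeasureTheory Set Filter Topology

namespace RConf

/-! ### injectivity -/

lemma inv_sq_pos {z : ℂ} (hz : 0 < z.im) : 0 < (sq z)⁻¹.re ∧ 0 < (sq z)⁻¹.im := by
  obtain ⟨h1, h2⟩ := sq_quadrant hz
  have hn : 0 < normSq (sq z) := normSq_pos.2 (fun h => by rw [h] at h1; simp at h1)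
  rw [inv_re, inv_im]
  exact ⟨div_pos h1 hn, div_pos (by linarith) hn⟩

lemma inv_sq_sq {z : ℂ} (hz : 0 < z.im) : ((sq z)⁻¹) ^ 2 = z := by
  have h0 : z ≠ 0 := by simpa using ne_of_im_pos hz 0
  rw [inv_pow, sq_sq h0, inv_inv]

lemma sq_im_pos {w : ℂ} (h1 : 0 < w.re) (h2 : 0 < w.im) : 0 < (w ^ 2).im := by
  rw [pow_two, mul_im]
  positivity

lemma sq_of_sq {w : ℂ} (h1 : 0 < w.re) (h2 : 0 < w.im) : sq (w ^ 2) = w⁻¹ := by
  have hz := sq_im_pos h1 h2
  have h0 : w ^ 2 ≠ 0 := by simpa using ne_of_im_pos hz 0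
  have e : sq (w ^ 2) ^ 2 = (w⁻¹) ^ 2 := by rw [sq_sq h0, inv_pow]
  rcases sq_eq_sq_iff_eq_or_eq_neg.1 e with h | h
  · exact h
  · exfalso
    have h3 := (sq_quadrant hz).1
    have hn : 0 < normSq w := normSq_pos.2 (fun h => by rw [h] at h1; simp at h1)
    have h4 : 0 < (w⁻¹).re := by rw [inv_re]; exact div_pos h1 hn
    rw [h, neg_re] at h3
    linarith

lemma deriv_im_pos {m : ℝ} {w : ℂ} (h1 : 0 < w.re) (h2 : 0 < w.im) :
    0 < (-ff m (w ^ 2) * (2 * w)).im := by
  have hz := sq_im_pos h1 h2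
  have hw : w ≠ 0 := fun h => by rw [h] at h1; simp at h1
  have e : -ff m (w ^ 2) * (2 * w) = -(2 * (sq (w ^ 2 - m) * sq (w ^ 2 - 1))) := by
    unfold ff
    rw [sq_of_sq h1 h2]
    field_simp
  have a := sq_quadrant (v := w ^ 2 - m) (by simpa using hz)
  have b := sq_quadrant (v := w ^ 2 - 1) (by simpa using hz)
  rw [e, neg_im]
  have e2 : (sq (w ^ 2 - m) * sq (w ^ 2 - 1)).im < 0 := by
    rw [mul_im]
    have := mul_neg_of_pos_of_neg a.1 b.2
    have := mul_neg_of_neg_of_pos a.2 b.1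
    linarith
  have e3 : (2 * (sq (w ^ 2 - m) * sq (w ^ 2 - 1))).im =
      2 * (sq (w ^ 2 - m) * sq (w ^ 2 - 1)).im := by
    have := im_ofReal_mul 2 (sq (w ^ 2 - m) * sq (w ^ 2 - 1))
    exact_mod_cast this
  rw [e3]
  linarith

theorem Phi_injOn {m : ℝ} (h0 : 0 < m) (h1 : m < 1) : InjOn (Phi m) {z | 0 < z.im} := by
  intro z₁ hz₁ z₂ hz₂ h
  set w₁ := (sq z₁)⁻¹ with hw₁
  set w₂ := (sq z₂)⁻¹ with hw₂
  have p₁ := inv_sq_pos hz₁
  have p₂ := inv_sq_pos hz₂
  have e₁ : w₁ ^ 2 = z₁ := inv_sq_sq hz₁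
  have e₂ : w₂ ^ 2 = z₂ := inv_sq_sq hz₂
  rw [← hw₁] at p₁
  rw [← hw₂] at p₂
  by_contra hne
  have hd : w₂ - w₁ ≠ 0 := by
    intro h3
    apply hne
    rw [← e₁, ← e₂, sub_eq_zero.1 h3]
  set d := w₂ - w₁ with hdd
  have hre : ∀ t ∈ Icc (0 : ℝ) 1, 0 < (w₁ + t * d).re := by
    intro t ht
    have : (w₁ + t * d).re = (1 - t) * w₁.re + t * w₂.re := by
      rw [hdd]; simp; ring
    rw [this]
    rcases eq_or_lt_of_le ht.1 with h4 | h4
    · rw [← h4]; simpa using p₁.1
    · have h5 := mul_pos h4 p₂.1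
      have h6 := mul_nonneg (sub_nonneg.2 ht.2) p₁.1.le
      linarith
  have him : ∀ t ∈ Icc (0 : ℝ) 1, 0 < (w₁ + t * d).im := by
    intro t ht
    have : (w₁ + t * d).im = (1 - t) * w₁.im + t * w₂.im := by
      rw [hdd]; simp; ring
    rw [this]
    rcases eq_or_lt_of_le ht.1 with h4 | h4
    · rw [← h4]; simpa using p₁.2
    · have h5 := mul_pos h4 p₂.2
      have h6 := mul_nonneg (sub_nonneg.2 ht.2) p₁.2.le
      linarith
  have hder : ∀ t ∈ Icc (0 : ℝ) 1, HasDerivAt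
      (fun t : ℝ => (Phi m ((w₁ + t * d) ^ 2) / d).im)
      ((-ff m ((w₁ + t * d) ^ 2) * (2 * (w₁ + t * d))).im) t := by
    intro t ht
    have a1 := hasDerivAt_Phi h0 h1 (sq_im_pos (hre t ht) (him t ht))
    have a2 : HasDerivAt (fun t : ℝ => (w₁ + t * d)) d t := by
      have := ((hasDerivAt_id t).ofReal_comp.mul_const d).const_add w₁
      simpa using this
    have a3 : HasDerivAt (fun t : ℝ => (w₁ + t * d) ^ 2) (2 * (w₁ + t * d) * d) t := by
      have a4 : HasDerivAt (fun w : ℂ => w ^ 2) (2 * (w₁ + t * d)) (w₁ + t * d) := by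
        simpa using hasDerivAt_pow 2 (w₁ + t * d)
      exact HasDerivAt.comp t a4 a2
    have a5 : HasDerivAt (fun t : ℝ => Phi m ((w₁ + t * d) ^ 2))
        (-ff m ((w₁ + t * d) ^ 2) * (2 * (w₁ + t * d) * d)) t :=
      HasDerivAt.comp (h₂ := Phi m) (h := fun t : ℝ => (w₁ + t * d) ^ 2) t a1 a3
    have a6 := a5.div_const d
    have a7 : HasDerivAt (fun t : ℝ => (Phi m ((w₁ + t * d) ^ 2) / d).im)
        (Complex.imCLM (-ff m ((w₁ + t * d) ^ 2) * (2 * (w₁ + t * d) * d) / d)) t :=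
      Complex.imCLM.hasFDerivAt.comp_hasDerivAt t a6
    refine a7.congr_deriv ?_
    rw [imCLM_apply]
    congr 1
    field_simp
  obtain ⟨c, hc, hc0⟩ := exists_hasDerivAt_eq_zero (f := fun t : ℝ =>
      (Phi m ((w₁ + t * d) ^ 2) / d).im) (f' := fun t : ℝ =>
      (-ff m ((w₁ + t * d) ^ 2) * (2 * (w₁ + t * d))).im) (zero_lt_one' ℝ)
    (fun t ht => (hder t ht).continuousAt.continuousWithinAt) (by
      have e3 : w₁ + ((0 : ℝ) : ℂ) * d = w₁ := by simp
      have e4 : w₁ + ((1 : ℝ) : ℂ) * d = w₂ := by rw [hdd]; simp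
      rw [e3, e4, e₁, e₂, h])
    (fun t ht => hder t (Ioo_subset_Icc_self ht))
  have h7 := deriv_im_pos (m := m) (hre c (Ioo_subset_Icc_self hc)) (him c (Ioo_subset_Icc_self hc))
  linarith

/-! ### the image -/

lemma isPreconnected_upper : IsPreconnected {z : ℂ | 0 < z.im} :=
  (convex_halfSpace_im_gt 0).isPreconnected

lemma isOpen_upper : IsOpen {z : ℂ | 0 < z.im} := isOpen_lt continuous_const Complex.continuous_im

/-- a holomorphic injective map of the upper half plane, continuous up to the boundary, with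
boundary values on the boundary of a rectangle, maps onto the rectangle -/
theorem image_eq {φ : ℂ → ℂ} {a b : ℝ}
    (hd : DifferentiableOn ℂ φ {z | 0 < z.im}) (hc : ContinuousOn φ {z | 0 ≤ z.im})
    (hinj : InjOn φ {z | 0 < z.im}) {w₀ : ℂ}
    (hl : Tendsto φ (Bornology.cobounded ℂ ⊓ 𝓟 {z | 0 ≤ z.im}) (𝓝 w₀))
    (hS : ∀ x : ℝ, φ x ∈ {w : ℂ | (0 ≤ w.re ∧ w.re ≤ a ∧ 0 ≤ w.im ∧ w.im ≤ b) ∧
      ¬ (0 < w.re ∧ w.re < a ∧ 0 < w.im ∧ w.im < b)})
    (h₀ : w₀ ∈ {w : ℂ | (0 ≤ w.re ∧ w.re ≤ a ∧ 0 ≤ w.im ∧ w.im ≤ b) ∧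
      ¬ (0 < w.re ∧ w.re < a ∧ 0 < w.im ∧ w.im < b)}) :
    φ '' {z | 0 < z.im} = {w | 0 < w.re ∧ w.re < a ∧ 0 < w.im ∧ w.im < b} := by
  set S : Set ℂ := {w : ℂ | (0 ≤ w.re ∧ w.re ≤ a ∧ 0 ≤ w.im ∧ w.im ≤ b) ∧
      ¬ (0 < w.re ∧ w.re < a ∧ 0 < w.im ∧ w.im < b)} with hSdef
  set Ω : Set ℂ := φ '' {z | 0 < z.im} with hΩ
  have hopen : IsOpen Ω := by
    rcases (hd.analyticOnNhd isOpen_upper).is_constant_or_isOpen isPreconnected_upper with h | h
    · exfalso
      obtain ⟨w, hw⟩ := h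
      have h1 : (0 : ℝ) < (I : ℂ).im := by simp
      have h2 : (0 : ℝ) < (2 * I : ℂ).im := by simp
      have := hinj h1 h2 ((hw _ h1).trans (hw _ h2).symm)
      have h3 := congrArg Complex.im this
      simp at h3
    · exact h _ subset_rfl isOpen_upper
  have hne : Ω.Nonempty := ⟨φ I, I, by simp, rfl⟩
  -- boundedness outside a large ball
  have hev : ∀ W ∈ 𝓝 w₀, ∃ K : ℝ, ∀ z : ℂ, 0 ≤ z.im → K < ‖z‖ → φ z ∈ W := by
    intro W hW
    have h1 := hl hW
    rw [mem_map, mem_inf_principal, ← comap_norm_atTop, mem_comap] at h1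
    obtain ⟨t, ht, ht2⟩ := h1
    obtain ⟨K, hK⟩ := mem_atTop_sets.1 ht
    exact ⟨K, fun z hz hzK => ht2 (hK _ hzK.le) hz⟩
  have hcomp : ∀ K : ℝ, IsCompact (φ '' (Metric.closedBall 0 K ∩ {z | 0 ≤ z.im})) := by
    intro K
    refine IsCompact.image_of_continuousOn ?_ (hc.mono inter_subset_right)
    exact (isCompact_closedBall _ _).inter_right
      (isClosed_le continuous_const Complex.continuous_im)
  obtain ⟨M, hM⟩ : ∃ M : ℝ, ∀ w ∈ Ω, ‖w‖ ≤ M := by
    obtain ⟨K, hK⟩ := hev (Metric.ball w₀ 1) (Metric.ball_mem_nhds _ one_pos)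
    obtain ⟨M, hM⟩ := (hcomp K).isBounded.exists_norm_le
    refine ⟨max M (‖w₀‖ + 1), ?_⟩
    rintro w ⟨z, hz, rfl⟩
    rcases le_or_gt ‖z‖ K with h | h
    · exact (hM _ ⟨z, ⟨by simpa using h, show (0 : ℝ) ≤ z.im from le_of_lt hz⟩, rfl⟩).trans (le_max_left _ _)
    · have h2 := hK z (le_of_lt hz) h
      rw [Metric.mem_ball, dist_eq_norm] at h2
      have h3 := norm_add_le (φ z - w₀) w₀
      rw [sub_add_cancel] at h3
      exact le_trans (by linarith) (le_max_right _ _)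
  have hclos : closure Ω ⊆ Ω ∪ S := by
    intro w hw
    rcases eq_or_ne w w₀ with h | h
    · right; rw [h]; exact h₀
    · obtain ⟨V, W, hV, hW, hwV, hwW, hVW⟩ := t2_separation h
      obtain ⟨K, hK⟩ := hev W (hW.mem_nhds hwW)
      have hwC : w ∈ closure (φ '' (Metric.closedBall 0 K ∩ {z | 0 ≤ z.im})) := by
        rw [mem_closure_iff] at hw ⊢
        intro N hN hwN
        obtain ⟨y, hy, z, hz, rfl⟩ := hw (N ∩ V) (hN.inter hV) ⟨hwN, hwV⟩
        refine ⟨φ z, hy.1, z, ⟨?_, show (0 : ℝ) ≤ z.im from le_of_lt hz⟩, rfl⟩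
        by_contra hcon
        have h5 : K < ‖z‖ := by simpa using hcon
        exact disjoint_left.1 hVW hy.2 (hK z (le_of_lt hz) h5)
      rw [(hcomp K).isClosed.closure_eq] at hwC
      obtain ⟨z, ⟨-, hz⟩, rfl⟩ := hwC
      rcases (show 0 ≤ z.im from hz).lt_or_eq with h5 | h5
      · exact Or.inl ⟨z, h5, rfl⟩
      · right
        have : z = ((z.re : ℝ) : ℂ) := Complex.ext (by simp) (by simpa using h5.symm)
        rw [this]
        exact hS _
  -- the clopen argument
  have hclopen : ∀ E : Set ℂ, IsPreconnected E → Disjoint E S → (E ∩ Ω).Nonempty → E ⊆ Ω := by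
    intro E hE hES hEΩ
    refine hE.subset_of_closure_inter_subset hopen hEΩ ?_
    rintro w ⟨hw, hwE⟩
    rcases hclos hw with h | h
    · exact h
    · exact absurd h (disjoint_left.1 hES hwE)
  have hM0 : 0 ≤ M := (norm_nonneg _).trans (hM _ hne.some_mem)
  have hout : ∀ E : Set ℂ, IsPreconnected E → Disjoint E S → (∃ w ∈ E, M < ‖w‖) →
      ∀ w ∈ Ω, w ∉ E := by
    intro E hE hES ⟨w', hw', hn⟩ w hw hwE
    have := hclopen E hE hES ⟨w, hwE, hw⟩ hw'
    exact absurd (hM _ this) (not_le.2 hn)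
  have o1 := hout {w | w.re < 0} (convex_halfSpace_re_lt 0).isPreconnected
    (disjoint_left.2 fun w h1 h2 => by
      have h1' : w.re < 0 := h1
      have := h2.1.1
      linarith)
    ⟨((-(M + 1) : ℝ) : ℂ), by
      show (((-(M + 1) : ℝ) : ℂ)).re < 0
      rw [ofReal_re]; linarith, by
      rw [norm_real, Real.norm_eq_abs, abs_neg, abs_of_pos (by linarith)]; linarith⟩
  have o2 := hout {w | w.im < 0} (convex_halfSpace_im_lt 0).isPreconnected
    (disjoint_left.2 fun w h1 h2 => by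
      have h1' : w.im < 0 := h1
      have := h2.1.2.2.1
      linarith)
    ⟨((-(M + 1) : ℝ) : ℂ) * I, by
      show (((-(M + 1) : ℝ) : ℂ) * I).im < 0
      rw [im_ofReal_mul, I_im, mul_one]
      linarith, by
      rw [norm_mul, norm_I, mul_one, norm_real, Real.norm_eq_abs, abs_neg,
        abs_of_pos (by linarith)]; linarith⟩
  have o3 := hout {w | a < w.re} (convex_halfSpace_re_gt a).isPreconnected
    (disjoint_left.2 fun w h1 h2 => by
      have h1' : a < w.re := h1
      have := h2.1.2.1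
      linarith)
    ⟨((M + |a| + 1 : ℝ) : ℂ), by
      show a < (((M + |a| + 1 : ℝ) : ℂ)).re
      rw [ofReal_re]; have := le_abs_self a; linarith, by
      have := abs_nonneg a
      rw [norm_real, Real.norm_eq_abs, abs_of_pos (by linarith)]; linarith⟩
  have o4 := hout {w | b < w.im} (convex_halfSpace_im_gt b).isPreconnected
    (disjoint_left.2 fun w h1 h2 => by
      have h1' : b < w.im := h1
      have := h2.1.2.2.2
      linarith)
    ⟨((M + |b| + 1 : ℝ) : ℂ) * I, by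
      show b < (((M + |b| + 1 : ℝ) : ℂ) * I).im
      rw [im_ofReal_mul, I_im, mul_one]
      have := le_abs_self b; linarith, by
      have := abs_nonneg b
      rw [norm_mul, norm_I, mul_one, norm_real, Real.norm_eq_abs, abs_of_pos (by linarith)]
      linarith⟩
  have hsub : Ω ⊆ {w | 0 < w.re ∧ w.re < a ∧ 0 < w.im ∧ w.im < b} := by
    have h1 : Ω ⊆ (Icc 0 a) ×ℂ (Icc 0 b) := by
      intro w hw
      rw [mem_reProdIm]
      exact ⟨⟨not_lt.1 (o1 w hw), not_lt.1 (o3 w hw)⟩, ⟨not_lt.1 (o2 w hw), not_lt.1 (o4 w hw)⟩⟩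
    have h2 := interior_maximal h1 hopen
    rw [interior_reProdIm, interior_Icc, interior_Icc] at h2
    intro w hw
    have h3 := h2 hw
    rw [mem_reProdIm] at h3
    exact ⟨h3.1.1, h3.1.2, h3.2.1, h3.2.2⟩
  refine subset_antisymm hsub ?_
  refine hclopen _ ?_ ?_ ?_
  · have : {w : ℂ | 0 < w.re ∧ w.re < a ∧ 0 < w.im ∧ w.im < b} =
        {w : ℂ | 0 < w.re} ∩ ({w : ℂ | w.re < a} ∩ ({w : ℂ | 0 < w.im} ∩ {w : ℂ | w.im < b})) := by
      ext w; simp
    rw [this]
    exact ((convex_halfSpace_re_gt 0).inter ((convex_halfSpace_re_lt a).inter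
      ((convex_halfSpace_im_gt 0).inter (convex_halfSpace_im_lt b)))).isPreconnected
  · exact disjoint_left.2 fun w h1 h2 => h2.2 h1
  · exact ⟨_, hsub hne.some_mem, hne.some_mem⟩

/-! ### the map -/

/-- the conformal map of the upper half plane onto the rectangle -/
noncomputable def phi (m : ℝ) (z : ℂ) : ℂ :=
  (Phi m z + ((2 * Kf (1 - m) : ℝ) : ℂ) * I) / ((2 * Kf m : ℝ) : ℂ)

lemma phi_re (m : ℝ) (z : ℂ) : (phi m z).re = (Phi m z).re / (2 * Kf m) := by
  unfold phi
  rw [div_ofReal_re, add_re]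
  simp

lemma phi_im (m : ℝ) (z : ℂ) : (phi m z).im = ((Phi m z).im + 2 * Kf (1 - m)) / (2 * Kf m) := by
  unfold phi
  rw [div_ofReal_im, add_im]
  simp

/-- **the rectangle map** -/
theorem rectangleMap_exists (m : ℝ) (h0 : 0 < m) (h1 : m < 1) :
    ∃ φ : ℂ → ℂ, RectMod.Stmt.IsRectangleMap 1 (RR m) m φ := by
  have hA : 0 < 2 * Kf m := by have := Kf_pos h1; linarith
  have hB : 0 < 2 * Kf (1 - m) := by have := Kf_pos (m := 1 - m) (by linarith); linarith
  have hR : RR m = 2 * Kf (1 - m) / (2 * Kf m) := by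
    unfold RR
    rw [mul_div_mul_left _ _ two_ne_zero]
  set A := 2 * Kf m with hAdef
  set B := 2 * Kf (1 - m) with hBdef
  have v1 : (Phi m (1 : ℝ)).re = A := Phi_one h0 h1
  have v0 : (Phi m (0 : ℝ)).im = -B := Phi_zero h0 h1
  have v1' : (Phi m (1 : ℝ)).im = 0 := upper_const h0 h1 le_rfl
  have v0' : (Phi m (0 : ℝ)).re = 0 := left_const h0 h1 le_rfl
  have vm : (Phi m m).re = A := (right_const h0 h1 ⟨le_rfl, h1.le⟩).trans v1
  have vm' : (Phi m m).im = -B := (lower_const h0 h1 ⟨h0.le, le_rfl⟩).trans v0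
  have hcont : ContinuousOn (phi m) {z | 0 ≤ z.im} := by
    unfold phi
    exact ((continuousOn_Phi h0 h1).add continuousOn_const).div_const _
  have hdiff : DifferentiableOn ℂ (phi m) {z | 0 < z.im} := by
    intro z hz
    unfold phi
    exact (((hasDerivAt_Phi h0 h1 hz).differentiableAt.add_const _).div_const
      _).differentiableWithinAt
  have hinj : InjOn (phi m) {z | 0 < z.im} := by
    intro z hz w hw h
    apply Phi_injOn h0 h1 hz hw
    unfold phi at h
    rw [div_left_inj' (ofReal_ne_zero.2 hA.ne')] at h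
    exact add_right_cancel h
  have hlim : Tendsto (phi m) (Bornology.cobounded ℂ ⊓ 𝓟 {z | 0 ≤ z.im}) (𝓝 (RR m * I)) := by
    have h2 := ((tendsto_Phi h0 h1).add_const ((B : ℂ) * I)).div_const (A : ℂ)
    rw [zero_add] at h2
    rw [hR]
    push_cast
    rw [show (B : ℂ) / A * I = B * I / A by ring]
    exact h2
  have hreA : ∀ x : ℝ, (phi m x).re = (Phi m x).re / A := fun x => phi_re m x
  have himA : ∀ x : ℝ, (phi m x).im = ((Phi m x).im + B) / A := fun x => phi_im m x
  -- positions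
  have b1 : ∀ x : ℝ, 1 ≤ x → 0 < (Phi m x).re ∧ (Phi m x).re ≤ A := by
    intro x hx
    have hb := bijOn_Ioi (contRe h0 h1).continuousOn (upper_anti h0 h1) (re_atTop h0 h1)
    rcases hx.lt_or_eq with h | h
    · have := hb.mapsTo h
      rw [v1] at this
      exact ⟨this.1, this.2.le⟩
    · rw [← h, v1]; exact ⟨hA, le_rfl⟩
  have b0 : ∀ x : ℝ, x ≤ 0 → -B ≤ (Phi m x).im ∧ (Phi m x).im < 0 := by
    intro x hx
    have hb := bijOn_Iio (contIm h0 h1).continuousOn (left_anti h0 h1) (im_atBot h0 h1)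
    rcases hx.lt_or_eq with h | h
    · have := hb.mapsTo h
      rw [v0] at this
      exact ⟨this.1.le, this.2⟩
    · rw [h, v0]; exact ⟨le_rfl, by linarith⟩
  have bl : ∀ x : ℝ, x ∈ Icc 0 m → 0 ≤ (Phi m x).re ∧ (Phi m x).re ≤ A := by
    intro x hx
    have h2 := (lower_mono h0 h1).monotoneOn (left_mem_Icc.2 h0.le) hx hx.1
    have h3 := (lower_mono h0 h1).monotoneOn hx (right_mem_Icc.2 h0.le) hx.2
    simp only [v0', vm] at h2 h3
    exact ⟨h2, h3⟩
  have br : ∀ x : ℝ, x ∈ Icc m 1 → -B ≤ (Phi m x).im ∧ (Phi m x).im ≤ 0 := by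
    intro x hx
    have h2 := (right_mono h0 h1).monotoneOn (left_mem_Icc.2 h1.le) hx hx.1
    have h3 := (right_mono h0 h1).monotoneOn hx (right_mem_Icc.2 h1.le) hx.2
    simp only [v1', vm'] at h2 h3
    exact ⟨h2, h3⟩
  have hbd : ∀ x : ℝ, phi m x ∈ {w : ℂ | (0 ≤ w.re ∧ w.re ≤ 1 ∧ 0 ≤ w.im ∧ w.im ≤ RR m) ∧
      ¬ (0 < w.re ∧ w.re < 1 ∧ 0 < w.im ∧ w.im < RR m)} := by
    intro x
    rw [mem_ofPred_eq, hreA, himA, hR]
    rcases le_or_gt x 0 with hx | hx
    · have h2 := left_const h0 h1 hx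
      obtain ⟨h3, h4⟩ := b0 x hx
      rw [h2, zero_div]
      refine ⟨⟨le_rfl, zero_le_one, div_nonneg (by linarith) hA.le,
        div_le_div_of_nonneg_right (by linarith) hA.le⟩, fun h => lt_irrefl _ h.1⟩
    rcases le_or_gt x m with hx2 | hx2
    · have h2 := (lower_const h0 h1 ⟨hx.le, hx2⟩).trans v0
      obtain ⟨h3, h4⟩ := bl x ⟨hx.le, hx2⟩
      rw [h2, neg_add_cancel, zero_div]
      refine ⟨⟨div_nonneg h3 hA.le, (div_le_one hA).2 h4, le_rfl, (div_pos hB hA).le⟩,
        fun h => lt_irrefl _ h.2.2.1⟩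
    rcases le_or_gt x 1 with hx3 | hx3
    · have h2 := (right_const h0 h1 ⟨hx2.le, hx3⟩).trans v1
      obtain ⟨h3, h4⟩ := br x ⟨hx2.le, hx3⟩
      rw [h2, div_self hA.ne']
      refine ⟨⟨zero_le_one, le_rfl, div_nonneg (by linarith) hA.le,
        div_le_div_of_nonneg_right (by linarith) hA.le⟩, fun h => lt_irrefl _ h.2.1⟩
    · have h2 := upper_const h0 h1 hx3.le
      obtain ⟨h3, h4⟩ := b1 x hx3.le
      rw [h2, zero_add]
      refine ⟨⟨div_nonneg h3.le hA.le, (div_le_one hA).2 h4, (div_pos hB hA).le, le_rfl⟩,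
        fun h => lt_irrefl _ h.2.2.2⟩
  have himg := image_eq hdiff hcont hinj hlim hbd (by
    rw [mem_ofPred_eq]
    simp only [re_ofReal_mul, im_ofReal_mul, I_re, I_im, mul_zero, mul_one]
    exact ⟨⟨le_rfl, zero_le_one, (RR_pos h0 h1).le, le_rfl⟩, fun h => lt_irrefl _ h.1⟩)
  refine ⟨phi m, hdiff, ⟨?_, hinj, himg.ge⟩, hcont, ?_, ?_, ?_, ?_, ?_, ?_, ?_, ?_, ?_, hlim, ?_, ?_⟩
  · intro z hz
    rw [← himg]
    exact ⟨z, hz, rfl⟩
  · -- corner 0
    have : phi m ((0 : ℝ) : ℂ) = 0 := by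
      apply Complex.ext
      · rw [hreA, v0']; simp
      · rw [himA, v0]; simp
    simpa using this
  · -- lower
    intro x hx hxm
    rw [himA, lower_const h0 h1 ⟨hx.le, hxm.le⟩, v0]
    simp
  · -- lower bijective
    have hm : StrictMonoOn (fun x : ℝ => (phi m x).re) (Icc 0 m) := by
      intro x hx y hy hxy
      simp only [hreA]
      exact div_lt_div_of_pos_right (lower_mono h0 h1 hx hy hxy) hA
    have hc : ContinuousOn (fun x : ℝ => (phi m x).re) (Icc 0 m) := by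
      simp only [hreA]
      exact ((contRe h0 h1).div_const _).continuousOn
    have := bijOn_Ioo h0 hc hm
    simpa only [hreA, v0', vm, zero_div, div_self hA.ne'] using this
  · -- corner m
    apply Complex.ext
    · rw [hreA, vm, div_self hA.ne']; simp
    · rw [himA, vm']; simp
  · -- right
    intro x hx hx1
    rw [hreA, right_const h0 h1 ⟨hx.le, hx1.le⟩, v1, div_self hA.ne']
  · -- right bijective
    have hm : StrictMonoOn (fun x : ℝ => (phi m x).im) (Icc m 1) := by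
      intro x hx y hy hxy
      simp only [himA]
      have := right_mono h0 h1 hx hy hxy
      simp only at this
      exact div_lt_div_of_pos_right (by linarith) hA
    have hc : ContinuousOn (fun x : ℝ => (phi m x).im) (Icc m 1) := by
      simp only [himA]
      exact (((contIm h0 h1).add_const _).div_const _).continuousOn
    have := bijOn_Ioo h1 hc hm
    simpa only [himA, v1', vm', zero_div, neg_add_cancel, zero_add, ← hR] using this
  · -- corner 1
    have : phi m ((1 : ℝ) : ℂ) = ((1 : ℝ) : ℂ) + RR m * I := by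
      apply Complex.ext
      · rw [hreA, v1, div_self hA.ne']; simp
      · rw [himA, v1', hR]; simp
    simpa using this
  · -- upper
    intro x hx
    rw [himA, upper_const h0 h1 hx.le, zero_add, hR]
  · -- upper bijective
    have hm : StrictAntiOn (fun x : ℝ => (phi m x).re) (Ici 1) := by
      intro x hx y hy hxy
      simp only [hreA]
      exact div_lt_div_of_pos_right (upper_anti h0 h1 hx hy hxy) hA
    have hc : ContinuousOn (fun x : ℝ => (phi m x).re) (Ici 1) := by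
      simp only [hreA]
      exact ((contRe h0 h1).div_const _).continuousOn
    have hl : Tendsto (fun x : ℝ => (phi m x).re) atTop (𝓝 0) := by
      simp only [hreA]
      simpa using (re_atTop h0 h1).div_const A
    have := bijOn_Ioi hc hm hl
    simpa only [hreA, v1, div_self hA.ne'] using this
  · -- left
    intro x hx
    rw [hreA, left_const h0 h1 hx.le, zero_div]
  · -- left bijective
    have hm : StrictAntiOn (fun x : ℝ => (phi m x).im) (Iic 0) := by
      intro x hx y hy hxy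
      simp only [himA]
      have := left_anti h0 h1 hx hy hxy
      simp only at this
      exact div_lt_div_of_pos_right (by linarith) hA
    have hc : ContinuousOn (fun x : ℝ => (phi m x).im) (Iic 0) := by
      simp only [himA]
      exact (((contIm h0 h1).add_const _).div_const _).continuousOn
    have hl : Tendsto (fun x : ℝ => (phi m x).im) atBot (𝓝 (RR m)) := by
      simp only [himA]
      have := ((im_atBot h0 h1).add_const B).div_const A
      rwa [zero_add, ← hR] at this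
    have := bijOn_Iio hc hm hl
    simpa only [himA, v0, neg_add_cancel, zero_div] using this

end RConf
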