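import Mathlib

/-!
The integrand `1 / √(v (v - m) (v - 1))` of the map of the upper half plane onto a rectangle.
-/

set_option autoImplicit false

open Complex MeasureTheory Set Filter Topology

namespace RConf

/-- the inverse square root, with the branch cut in the lower half plane -/
noncomputable def sq (v : ℂ) : ℂ :=
  cexp ((-(Real.pi / 4) : ℝ) * I) * (-I * v) ^ ((-(1 / 2) : ℝ) : ℂ)

lemma norm_sq (v : ℂ) : ‖sq v‖ = ‖v‖ ^ (-(1 / 2) : ℝ) := by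
  unfold sq
  rw [norm_mul, norm_cpow_real, norm_exp_ofReal_mul_I, one_mul, norm_mul, norm_neg, norm_I, one_mul]

lemma neg_I_mul_re (v : ℂ) : (-I * v).re = v.im := by simp

lemma neg_I_mul_im (v : ℂ) : (-I * v).im = -v.re := by simp

lemma mem_slit {v : ℂ} (hv : 0 ≤ v.im) (h0 : v ≠ 0) : -I * v ∈ slitPlane := by
  rw [mem_slitPlane_iff, neg_I_mul_re, neg_I_mul_im]
  rcases hv.lt_or_eq with h | h
  · exact Or.inl h
  · right
    intro h2
    apply h0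
    apply Complex.ext
    · simpa using h2
    · simpa using h.symm

lemma sq_eq {v : ℂ} (h0 : v ≠ 0) : sq v = ((‖v‖ ^ (-(1 / 2) : ℝ) : ℝ) : ℂ) *
    cexp ((-(arg (-I * v)) / 2 - Real.pi / 4 : ℝ) * I) := by
  have h1 : -I * v ≠ 0 := mul_ne_zero (neg_ne_zero.2 I_ne_zero) h0
  have hn : ‖-I * v‖ = ‖v‖ := by rw [norm_mul, norm_neg, norm_I, one_mul]
  have hpos : 0 < ‖v‖ := norm_pos_iff.2 h0
  unfold sq
  rw [cpow_def_of_ne_zero h1, Real.rpow_def_of_pos hpos, ofReal_exp, ← Complex.exp_add,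
    ← Complex.exp_add]
  congr 1
  have : Complex.log (-I * v) = (Real.log ‖v‖ : ℝ) + (arg (-I * v) : ℝ) * I := by
    unfold Complex.log
    rw [hn]
  rw [this]
  push_cast
  ring

lemma sq_re (v : ℂ) (h0 : v ≠ 0) : (sq v).re = ‖v‖ ^ (-(1 / 2) : ℝ) *
    Real.cos (-(arg (-I * v)) / 2 - Real.pi / 4) := by
  rw [sq_eq h0, re_ofReal_mul, exp_ofReal_mul_I_re]

lemma sq_im (v : ℂ) (h0 : v ≠ 0) : (sq v).im = ‖v‖ ^ (-(1 / 2) : ℝ) *
    Real.sin (-(arg (-I * v)) / 2 - Real.pi / 4) := by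
  rw [sq_eq h0, im_ofReal_mul, exp_ofReal_mul_I_im]

/-- the open upper half plane is mapped to the open fourth quadrant -/
lemma sq_quadrant {v : ℂ} (hv : 0 < v.im) : 0 < (sq v).re ∧ (sq v).im < 0 := by
  have h0 : v ≠ 0 := by
    rintro rfl
    simp at hv
  have ha : |arg (-I * v)| < Real.pi / 2 := by
    rw [abs_arg_lt_pi_div_two_iff, neg_I_mul_re]
    exact Or.inl hv
  have hp : 0 < ‖v‖ ^ (-(1 / 2) : ℝ) := Real.rpow_pos_of_pos (norm_pos_iff.2 h0) _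
  rw [abs_lt] at ha
  rw [sq_re v h0, sq_im v h0]
  constructor
  · exact mul_pos hp (Real.cos_pos_of_mem_Ioo ⟨by linarith, by linarith⟩)
  · exact mul_neg_of_pos_of_neg hp (Real.sin_neg_of_neg_of_neg_pi_lt (by linarith) (by linarith))

lemma sq_sq {v : ℂ} (h0 : v ≠ 0) : sq v ^ 2 = v⁻¹ := by
  have h1 : -I * v ≠ 0 := mul_ne_zero (neg_ne_zero.2 I_ne_zero) h0
  unfold sq
  rw [mul_pow, ← Complex.exp_nat_mul, ← cpow_nat_mul]
  have e1 : ((2 : ℕ) : ℂ) * ((-(1 / 2) : ℝ) : ℂ) = -1 := by push_cast; ring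
  have e2 : cexp (((2 : ℕ) : ℂ) * (((-(Real.pi / 4) : ℝ) : ℂ) * I)) = -I := by
    have : ((2 : ℕ) : ℂ) * (((-(Real.pi / 4) : ℝ) : ℂ) * I) = ((-(Real.pi / 2) : ℝ) : ℂ) * I := by
      push_cast; ring
    rw [this]
    apply Complex.ext
    · rw [exp_ofReal_mul_I_re]; simp
    · rw [exp_ofReal_mul_I_im]; simp
  rw [e1, e2, cpow_neg_one, mul_inv, inv_neg, inv_I, neg_neg]
  rw [← mul_assoc, neg_mul, I_mul_I, neg_neg, one_mul]

lemma sq_of_pos {x : ℝ} (hx : 0 < x) : sq (x : ℂ) = ((|x| ^ (-(1 / 2) : ℝ) : ℝ) : ℂ) := by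
  have h0 : (x : ℂ) ≠ 0 := ofReal_ne_zero.2 hx.ne'
  have ha : arg (-I * (x : ℂ)) = -(Real.pi / 2) := by
    rw [mul_comm, arg_real_mul _ hx, arg_neg_I]
  rw [sq_eq h0, ha, norm_real, Real.norm_eq_abs]
  have : (-(-(Real.pi / 2)) / 2 - Real.pi / 4 : ℝ) = 0 := by ring
  rw [this]
  simp

lemma sq_of_neg {x : ℝ} (hx : x < 0) : sq (x : ℂ) = -I * ((|x| ^ (-(1 / 2) : ℝ) : ℝ) : ℂ) := by
  have h0 : (x : ℂ) ≠ 0 := ofReal_ne_zero.2 hx.ne
  have ha : arg (-I * (x : ℂ)) = Real.pi / 2 := by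
    have : -I * (x : ℂ) = ((-x : ℝ) : ℂ) * I := by push_cast; ring
    rw [this, arg_real_mul _ (by linarith : 0 < -x), arg_I]
  rw [sq_eq h0, ha, norm_real, Real.norm_eq_abs]
  have : (-(Real.pi / 2) / 2 - Real.pi / 4 : ℝ) = -(Real.pi / 2) := by ring
  rw [this]
  have e : cexp (((-(Real.pi / 2) : ℝ) : ℂ) * I) = -I := by
    apply Complex.ext
    · rw [exp_ofReal_mul_I_re]; simp
    · rw [exp_ofReal_mul_I_im]; simp
  rw [e, mul_comm]

lemma hasDerivAt_sq {v : ℂ} (hv : 0 < v.im) : HasDerivAt sq (sq v * (-(1 / 2) * v⁻¹)) v := by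
  have h0 : v ≠ 0 := by
    rintro rfl
    simp at hv
  have h1 : -I * v ≠ 0 := mul_ne_zero (neg_ne_zero.2 I_ne_zero) h0
  have hd : HasDerivAt (fun v : ℂ => -I * v) (-I) v := by
    simpa using (hasDerivAt_id v).const_mul (-I)
  have h2 := (hd.cpow_const (c := ((-(1 / 2) : ℝ) : ℂ)) (mem_slit hv.le h0)).const_mul
    (cexp ((-(Real.pi / 4) : ℝ) * I))
  refine h2.congr_deriv ?_
  rw [cpow_sub _ _ h1, cpow_one]
  unfold sq
  field_simp
  push_cast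
  ring

lemma continuousAt_sq {v : ℂ} (hv : 0 ≤ v.im) (h0 : v ≠ 0) : ContinuousAt sq v := by
  unfold sq
  apply ContinuousAt.mul continuousAt_const
  exact (continuousAt_const.mul continuousAt_id).cpow continuousAt_const (mem_slit hv h0)

/-- the integrand -/
noncomputable def ff (m : ℝ) (v : ℂ) : ℂ := sq v * sq (v - m) * sq (v - 1)

/-- the modulus of the integrand on the real axis -/
noncomputable def DD (m : ℝ) (s : ℝ) : ℝ :=
  |s| ^ (-(1 / 2) : ℝ) * |s - m| ^ (-(1 / 2) : ℝ) * |s - 1| ^ (-(1 / 2) : ℝ)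

lemma DD_pos {m s : ℝ} (h0 : s ≠ 0) (hm : s ≠ m) (h1 : s ≠ 1) : 0 < DD m s := by
  unfold DD
  have a0 := Real.rpow_pos_of_pos (abs_pos.2 h0) (-(1 / 2))
  have am := Real.rpow_pos_of_pos (abs_pos.2 (sub_ne_zero.2 hm)) (-(1 / 2))
  have a1 := Real.rpow_pos_of_pos (abs_pos.2 (sub_ne_zero.2 h1)) (-(1 / 2))
  positivity

lemma ff_real (m : ℝ) (x : ℝ) : ff m (x : ℂ) = sq ((x : ℝ) : ℂ) * sq ((x - m : ℝ) : ℂ) *
    sq ((x - 1 : ℝ) : ℂ) := by
  unfold ff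
  push_cast
  rfl

lemma ff_upper {m x : ℝ} (h0 : 0 < m) (h1 : m < 1) (hx : 1 < x) : ff m (x : ℂ) = (DD m x : ℂ) := by
  rw [ff_real, sq_of_pos (by linarith), sq_of_pos (by linarith), sq_of_pos (by linarith)]
  unfold DD
  push_cast
  ring

lemma ff_right {m x : ℝ} (h0 : 0 < m) (hx : m < x) (hx1 : x < 1) :
    ff m (x : ℂ) = -I * (DD m x : ℂ) := by
  rw [ff_real, sq_of_pos (by linarith), sq_of_pos (by linarith), sq_of_neg (by linarith)]
  unfold DD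
  push_cast
  ring

lemma ff_lower {m x : ℝ} (h1 : m < 1) (hx : 0 < x) (hxm : x < m) :
    ff m (x : ℂ) = -(DD m x : ℂ) := by
  rw [ff_real, sq_of_pos (by linarith), sq_of_neg (by linarith), sq_of_neg (by linarith)]
  unfold DD
  push_cast
  linear_combination (((|x| ^ (-(1 / 2) : ℝ) : ℝ) : ℂ) * ((|x - m| ^ (-(1 / 2) : ℝ) : ℝ) : ℂ) *
    ((|x - 1| ^ (-(1 / 2) : ℝ) : ℝ) : ℂ)) * I_sq

lemma ff_left {m x : ℝ} (h0 : 0 < m) (h1 : m < 1) (hx : x < 0) :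
    ff m (x : ℂ) = I * (DD m x : ℂ) := by
  rw [ff_real, sq_of_neg (by linarith), sq_of_neg (by linarith), sq_of_neg (by linarith)]
  unfold DD
  push_cast
  linear_combination -(I * ((|x| ^ (-(1 / 2) : ℝ) : ℝ) : ℂ) * ((|x - m| ^ (-(1 / 2) : ℝ) : ℝ) : ℂ) *
    ((|x - 1| ^ (-(1 / 2) : ℝ) : ℝ) : ℂ)) * I_sq

/-- the derivative of the integrand -/
noncomputable def ff' (m : ℝ) (v : ℂ) : ℂ :=
  ff m v * (-(1 / 2) * (v⁻¹ + (v - m)⁻¹ + (v - 1)⁻¹))

lemma hasDerivAt_ff (m : ℝ) {v : ℂ} (hv : 0 < v.im) : HasDerivAt (ff m) (ff' m v) v := by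
  have h0 := hasDerivAt_sq hv
  have hm : HasDerivAt (fun v : ℂ => sq (v - m)) (sq (v - m) * (-(1 / 2) * (v - m)⁻¹)) v :=
    HasDerivAt.comp_sub_const v (m : ℂ) (hasDerivAt_sq (v := v - m) (by simpa using hv))
  have h1 : HasDerivAt (fun v : ℂ => sq (v - 1)) (sq (v - 1) * (-(1 / 2) * (v - 1)⁻¹)) v :=
    HasDerivAt.comp_sub_const v (1 : ℂ) (hasDerivAt_sq (v := v - 1) (by simpa using hv))
  have h2 : HasDerivAt (fun v : ℂ => sq v * sq (v - m)) (sq v * (-(1 / 2) * v⁻¹) * sq (v - m) +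
      sq v * (sq (v - m) * (-(1 / 2) * (v - m)⁻¹))) v := h0.mul hm
  have h3 : HasDerivAt (fun v : ℂ => sq v * sq (v - m) * sq (v - 1))
      ((sq v * (-(1 / 2) * v⁻¹) * sq (v - m) + sq v * (sq (v - m) * (-(1 / 2) * (v - m)⁻¹))) *
        sq (v - 1) + sq v * sq (v - m) * (sq (v - 1) * (-(1 / 2) * (v - 1)⁻¹))) v := h2.mul h1
  refine h3.congr_deriv ?_
  unfold ff' ff
  ring

lemma continuousAt_ff (m : ℝ) {v : ℂ} (hv : 0 ≤ v.im) (h0 : v ≠ 0) (hm : v ≠ m) (h1 : v ≠ 1) :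
    ContinuousAt (ff m) v := by
  unfold ff
  have c0 := continuousAt_sq hv h0
  have cm : ContinuousAt (fun v : ℂ => sq (v - m)) v := by
    have := continuousAt_sq (v := v - m) (by simpa using hv) (sub_ne_zero.2 hm)
    exact ContinuousAt.comp (f := fun v : ℂ => v - m) this (by fun_prop)
  have c1 : ContinuousAt (fun v : ℂ => sq (v - 1)) v := by
    have := continuousAt_sq (v := v - 1) (by simpa using hv) (sub_ne_zero.2 h1)
    exact ContinuousAt.comp (f := fun v : ℂ => v - 1) this (by fun_prop)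
  exact (c0.mul cm).mul c1

end RConf
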