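import Pool.Agent.Rect.Mod.Conf.QLambda

/-!
# The derivative of `lam` in the nome
-/

open Set Filter Topology

namespace RConf

/-- complex version of `lam` -/
noncomputable def Lam (q : ℂ) : ℂ := q * T2 q ^ 4 / T3 q ^ 4

theorem Lam_ofReal (x : ℝ) : Lam (x : ℂ) = (lam x : ℂ) := by
  unfold Lam lam
  rw [T2_ofReal, T3_ofReal]
  push_cast
  rfl

theorem mem_ball_of {x : ℝ} (h : |x| < 1) : (x : ℂ) ∈ Metric.ball (0 : ℂ) 1 := by
  rw [mem_ball_zero_iff, Complex.norm_real]; exact h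

theorem Lam_diffAt {q : ℂ} (h : ‖q‖ < 1) (h3 : T3 q ≠ 0) : DifferentiableAt ℂ Lam q := by
  have hb : q ∈ Metric.ball (0 : ℂ) 1 := mem_ball_zero_iff.2 h
  have d2 : DifferentiableAt ℂ T2 q :=
    (T2_diff q hb).differentiableAt (Metric.isOpen_ball.mem_nhds hb)
  have d3 : DifferentiableAt ℂ T3 q :=
    (T3_diff q hb).differentiableAt (Metric.isOpen_ball.mem_nhds hb)
  unfold Lam
  exact (differentiableAt_id.mul (d2.pow 4)).div (d3.pow 4) (pow_ne_zero _ h3)

theorem lam_hasDeriv {x : ℝ} (h0 : 0 ≤ x) (h1 : x < 1) :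
    HasDerivAt lam (deriv Lam x).re x := by
  have h3 : T3 (x : ℂ) ≠ 0 := by
    rw [T3_ofReal]; exact_mod_cast (t3_pos h0 h1).ne'
  have h := (Lam_diffAt (nlt h0 h1) h3).hasDerivAt.real_of_complex
  have e : (fun y : ℝ => (Lam (y : ℂ)).re) = lam := by
    ext y; rw [Lam_ofReal]; simp
  rwa [e] at h

/-- the derivative of `lam` -/
noncomputable def dlam (x : ℝ) : ℝ := (deriv Lam x).re

theorem dlam_cont : ContinuousAt dlam 0 := by
  have hne : ∀ᶠ q in 𝓝 (0 : ℂ), DifferentiableAt ℂ Lam q := by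
    have c3 : ContinuousAt T3 0 :=
      ((T3_diff 0 (by simp)).differentiableAt (Metric.isOpen_ball.mem_nhds (by simp))).continuousAt
    have e1 : ∀ᶠ q in 𝓝 (0 : ℂ), T3 q ≠ 0 := c3.eventually_ne (by rw [T3_zero]; norm_num)
    have e2 : ∀ᶠ q in 𝓝 (0 : ℂ), ‖q‖ < 1 := by
      filter_upwards [Metric.ball_mem_nhds (0 : ℂ) one_pos] with q hq
      exact mem_ball_zero_iff.1 hq
    filter_upwards [e1, e2] with q h1 h2 using Lam_diffAt h2 h1
  have han : AnalyticAt ℂ Lam 0 := Complex.analyticAt_iff_eventually_differentiableAt.2 hne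
  have hc := han.deriv.continuousAt
  unfold dlam
  have hc' : ContinuousAt (deriv Lam) ((0 : ℝ) : ℂ) := by rwa [Complex.ofReal_zero]
  exact Complex.continuous_re.continuousAt.comp (hc'.comp Complex.continuous_ofReal.continuousAt)

theorem dlam_zero : dlam 0 = 16 := by
  have hb : (0 : ℂ) ∈ Metric.ball (0 : ℂ) 1 := by simp
  have d2 : DifferentiableAt ℂ T2 0 :=
    (T2_diff 0 hb).differentiableAt (Metric.isOpen_ball.mem_nhds hb)
  have d3 : DifferentiableAt ℂ T3 0 :=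
    (T3_diff 0 hb).differentiableAt (Metric.isOpen_ball.mem_nhds hb)
  have dH : DifferentiableAt ℂ (fun q => T2 q ^ 4 / T3 q ^ 4) 0 :=
    (d2.pow 4).div (d3.pow 4) (by rw [T3_zero]; norm_num)
  have h := (hasDerivAt_id (0 : ℂ)).mul dH.hasDerivAt
  have e : (id * fun q => T2 q ^ 4 / T3 q ^ 4) = Lam := by
    ext q
    simp only [Pi.mul_apply, id, Lam]
    ring
  rw [e] at h
  have h2 := h.deriv
  unfold dlam
  rw [Complex.ofReal_zero, h2, T2_zero, T3_zero]
  norm_num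

/-- the quotient which is `1` -/
noncomputable def GG (x : ℝ) : ℝ := dlam x * t3 x ^ 4 / (t2 x ^ 4 * t4 x ^ 4)

theorem GG_cont : Tendsto GG (𝓝 0) (𝓝 1) := by
  have h := (dlam_cont.tendsto.mul ((cont_at_zero T3_diff T3_ofReal).tendsto.pow 4)).div
    (((cont_at_zero T2_diff T2_ofReal).tendsto.pow 4).mul
      ((cont_at_zero T4_diff T4_ofReal).tendsto.pow 4))
    (by rw [t2_zero, t4_zero]; norm_num)
  rw [dlam_zero, t3_zero, t2_zero, t4_zero] at h
  norm_num at h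
  exact h

theorem GG_sq {x : ℝ} (h0 : 0 < x) (h1 : x < 1) : GG (x ^ 2) = GG x := by
  have hl := lam_hasDeriv h0.le h1
  have hl2 := lam_hasDeriv (sq_nonneg x) (sqlt h0.le h1)
  have hk0 := ks_pos h0.le h1
  have hk1 := ks_lt_one h0 h1
  have h3 := t3_pos h0.le h1
  have h4 := t4_pos h0.le h1
  have h2' := t2_pos (sq_nonneg x) (sqlt h0.le h1)
  have h3' := t3_pos (sq_nonneg x) (sqlt h0.le h1)
  have h4' := t4_pos (sq_nonneg x) (sqlt h0.le h1)
  have h2 := t2_pos h0.le h1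
  -- ks = sqrt (1 - lam)
  have hks : HasDerivAt (fun y => √(1 - lam y)) (-dlam x / (2 * ks x)) x := by
    have hne : 1 - lam x ≠ 0 := by rw [one_sub_lam h0.le h1]; positivity
    have := (hl.const_sub 1).sqrt hne
    refine this.congr_deriv ?_
    rw [one_sub_lam h0.le h1, Real.sqrt_sq hk0.le]
    rfl
  -- derivative of ((1-s)/(1+s))^2
  have hD : HasDerivAt (fun y => ((1 - √(1 - lam y)) / (1 + √(1 - lam y))) ^ 2)
      (2 * (1 - ks x) * dlam x / (ks x * (1 + ks x) ^ 3)) x := by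
    have hs : √(1 - lam x) = ks x := by rw [one_sub_lam h0.le h1, Real.sqrt_sq hk0.le]
    have hq := ((hks.const_sub 1).div (hks.const_add 1) (by rw [hs]; positivity)).pow 2
    refine hq.congr_deriv ?_
    simp only [Pi.div_apply, hs]
    have hk2 : (1 + ks x) ≠ 0 := by positivity
    have hk3 : ks x ≠ 0 := hk0.ne'
    norm_num
    field_simp
    ring
  have hE : HasDerivAt (fun y => lam (y ^ 2)) (dlam (x ^ 2) * (2 * x)) x := by
    have hx2 : HasDerivAt (fun y : ℝ => y ^ 2) (2 * x) x := by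
      simpa using hasDerivAt_pow 2 x
    exact HasDerivAt.comp x (h₂ := lam) hl2 hx2
  have hev : (fun y => lam (y ^ 2)) =ᶠ[𝓝 x] fun y => ((1 - √(1 - lam y)) / (1 + √(1 - lam y))) ^ 2 := by
    filter_upwards [Ioo_mem_nhds h0 h1] with y hy
    rw [lam_sq hy.1.le hy.2, one_sub_lam hy.1.le hy.2, Real.sqrt_sq (ks_pos hy.1.le hy.2).le]
  have huniq := (hD.congr_of_eventuallyEq hev).unique hE
  -- algebra
  have d1 := dup1r h0.le h1
  have d2 := dup2r h0.le h1
  have d3 := dup3r h0.le h1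
  have dj := jacobi h0.le h1
  have hK : ks x = t4 x ^ 2 / t3 x ^ 2 := rfl
  set a := t3 x ^ 2 with ha
  set b := t4 x ^ 2 with hb
  have ha0 : 0 < a := by positivity
  have hb0 : 0 < b := by positivity
  have e3 : t3 (x ^ 2) ^ 4 = ((a + b) / 2) ^ 2 := by rw [d1]; ring
  have e4 : t4 (x ^ 2) ^ 4 = a * b := by
    have : t4 (x ^ 2) ^ 4 = (t4 (x ^ 2) ^ 2) ^ 2 := by ring
    rw [this, ← d2, ha, hb]; ring
  have e2 : t2 (x ^ 2) ^ 4 = ((a - b) / (2 * x)) ^ 2 := by
    have : t2 (x ^ 2) ^ 2 = (a - b) / (2 * x) := by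
      field_simp; linarith
    rw [← this]; ring
  have f2 : t2 x ^ 4 = (a ^ 2 - b ^ 2) / x := by
    have q1 : t3 x ^ 4 = a ^ 2 := by rw [ha]; ring
    have q2 : t4 x ^ 4 = b ^ 2 := by rw [hb]; ring
    rw [q1, q2] at dj
    rw [dj]; field_simp
  have f3 : t3 x ^ 4 = a ^ 2 := by rw [ha]; ring
  have f4 : t4 x ^ 4 = b ^ 2 := by rw [hb]; ring
  have hab : b < a := by
    rw [hK, div_lt_one ha0] at hk1; exact hk1
  have hab' : a - b ≠ 0 := (sub_pos.2 hab).ne'
  have hab2 : a ^ 2 - b ^ 2 ≠ 0 := by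
    have : a ^ 2 - b ^ 2 = (a - b) * (a + b) := by ring
    rw [this]; positivity
  have hd : dlam (x ^ 2) = 2 * (1 - ks x) * dlam x / (ks x * (1 + ks x) ^ 3) / (2 * x) := by
    rw [huniq]; field_simp
  unfold GG
  rw [hd, e2, e3, e4, f2, f3, f4, hK]
  have hab3 : a ^ 2 - b ^ 2 = (a - b) * (a + b) := by ring
  rw [hab3]
  field_simp

theorem GG_eq_one {x : ℝ} (h0 : 0 < x) (h1 : x < 1) : GG x = 1 := by
  have hinv : ∀ n : ℕ, GG (x ^ (2 ^ n)) = GG x := by
    intro n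
    induction n with
    | zero => simp
    | succ n ih =>
      rw [← ih]
      have e : x ^ (2 ^ (n + 1)) = (x ^ (2 ^ n)) ^ 2 := by rw [← pow_mul, ← pow_succ]
      rw [e, GG_sq (pow_pos h0 _) (iter_lt h0.le h1 n)]
  have h2 := GG_cont.comp (iter_tendsto h0.le h1)
  have h3 : (GG ∘ fun n : ℕ => x ^ (2 ^ n)) = fun _ => GG x := by
    ext n; exact hinv n
  rw [h3] at h2
  exact tendsto_nhds_unique tendsto_const_nhds h2

theorem lam_deriv {x : ℝ} (h0 : 0 < x) (h1 : x < 1) :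
    HasDerivAt lam (t2 x ^ 4 * t4 x ^ 4 / t3 x ^ 4) x := by
  have h := lam_hasDeriv h0.le h1
  refine h.congr_deriv ?_
  have hg := GG_eq_one h0 h1
  have h3 := t3_pos h0.le h1
  have h4 := t4_pos h0.le h1
  have h2 := t2_pos h0.le h1
  unfold GG dlam at hg
  rw [div_eq_one_iff_eq (by positivity)] at hg
  rw [← hg]
  field_simp

end RConf
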