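import Pool.Agent.Rect.Mod.Conf.QLambda

/-!
# `K(1-λ)/K(λ) = -log q / π`
-/

open Set Filter Topology

namespace RConf

theorem JJ_div_log : Tendsto (fun s : ℝ => JJ 1 s / (-Real.log s)) (𝓝[>] 0) (𝓝 1) := by
  have hL : Tendsto (fun s : ℝ => -Real.log s) (𝓝[>] 0) atTop :=
    tendsto_neg_atBot_atTop.comp Real.tendsto_log_nhdsGT_zero
  have up : Tendsto (fun L : ℝ => 1 + 2 / L) atTop (𝓝 1) := by
    have : Tendsto (fun L : ℝ => 2 / L) atTop (𝓝 0) := tendsto_const_nhds.div_atTop tendsto_id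
    simpa using this.const_add 1
  have lo : Tendsto (fun L : ℝ => (√(1 + (1 / L) ^ 2))⁻¹ * (1 - Real.log L / L)) atTop (𝓝 1) := by
    have h1 : Tendsto (fun L : ℝ => 1 / L) atTop (𝓝 0) := tendsto_const_nhds.div_atTop tendsto_id
    have h2 : Tendsto (fun L : ℝ => √(1 + (1 / L) ^ 2)) atTop (𝓝 (√(1 + 0 ^ 2))) :=
      (Real.continuous_sqrt.tendsto _).comp ((h1.pow 2).const_add 1)
    have h3 : Tendsto (fun L : ℝ => Real.log L / L) atTop (𝓝 0) :=
      Real.isLittleO_log_id_atTop.tendsto_div_nhds_zero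
    have h4 := (h2.inv₀ (by norm_num)).mul (h3.const_sub 1)
    simpa using h4
  refine tendsto_of_tendsto_of_tendsto_of_le_of_le' (lo.comp hL) (up.comp hL) ?_ ?_
  · have h1 : ∀ᶠ s : ℝ in 𝓝[>] 0, 0 < s := self_mem_nhdsWithin
    filter_upwards [h1, hL.eventually_gt_atTop 0] with s hs hLs
    have h := JJ_ge_log hs (δ := 1 / (-Real.log s)) (by positivity)
    simp only [Function.comp_apply]
    rw [le_div_iff₀ hLs]
    refine le_trans ?_ h
    rw [mul_assoc]
    apply mul_le_mul_of_nonneg_left _ (by positivity)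
    have h5 : Real.log (1 / (-Real.log s)) ≤ Real.log (1 / (-Real.log s) + s) :=
      Real.log_le_log (by positivity) (by linarith)
    rw [one_div, Real.log_inv] at h5
    rw [sub_mul, one_mul, div_mul_cancel₀ _ hLs.ne', one_div]
    linarith
  · have h1 : ∀ᶠ s : ℝ in 𝓝[>] 0, 0 < s := self_mem_nhdsWithin
    filter_upwards [h1, hL.eventually_gt_atTop 0] with s hs hLs
    have hs1 : s ≤ 1 := by
      by_contra hc
      push Not at hc
      have := Real.log_pos hc
      linarith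
    simp only [Function.comp_apply]
    rw [div_le_iff₀ hLs, add_mul, one_mul, div_mul_cancel₀ _ hLs.ne']
    have := JJ_le_log hs hs1
    linarith

theorem JJ_tendsto_one : Tendsto (fun m : ℝ => JJ 1 (√(1 - m))) (𝓝[>] 0) (𝓝 (Real.pi / 2)) := by
  have hs : Tendsto (fun m : ℝ => (√(1 - m))⁻¹ * (Real.pi / 2)) (𝓝[>] 0) (𝓝 (Real.pi / 2)) := by
    have h1 : Tendsto (fun m : ℝ => √(1 - m)) (𝓝 0) (𝓝 (√(1 - 0))) := by
      apply Continuous.tendsto; fun_prop
    have h2 := ((h1.inv₀ (by norm_num)).mul_const (Real.pi / 2)).mono_left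
      (nhdsWithin_le_nhds (s := Ioi 0))
    simpa using h2
  refine tendsto_of_tendsto_of_tendsto_of_le_of_le' tendsto_const_nhds hs ?_ ?_
  · have h1 : ∀ᶠ m : ℝ in 𝓝[>] 0, m ∈ Ioo (0 : ℝ) 1 := Ioo_mem_nhdsGT one_pos
    filter_upwards [h1] with m hm
    apply JJ_ge (Real.sqrt_pos.2 (by linarith [hm.2]))
    exact Real.sqrt_le_one.2 (by linarith [hm.1])
  · have h1 : ∀ᶠ m : ℝ in 𝓝[>] 0, m ∈ Ioo (0 : ℝ) 1 := Ioo_mem_nhdsGT one_pos
    filter_upwards [h1] with m hm
    apply JJ_le (Real.sqrt_pos.2 (by linarith [hm.2]))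
    exact Real.sqrt_le_one.2 (by linarith [hm.1])

theorem sqrt_tendsto : Tendsto (fun m : ℝ => √m) (𝓝[>] 0) (𝓝[>] 0) := by
  apply tendsto_nhdsWithin_of_tendsto_nhds_of_eventually_within
  · have : Tendsto (fun m : ℝ => √m) (𝓝 0) (𝓝 (√0)) := Real.continuous_sqrt.tendsto 0
    rw [Real.sqrt_zero] at this
    exact this.mono_left nhdsWithin_le_nhds
  · filter_upwards [self_mem_nhdsWithin] with m hm
    exact Real.sqrt_pos.2 hm

theorem RR_div_log : Tendsto (fun m : ℝ => RR m / (-Real.log m)) (𝓝[>] 0) (𝓝 (1 / Real.pi)) := by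
  have h1 := (JJ_div_log.comp sqrt_tendsto).const_mul (1 / 2)
  have h2 := h1.div JJ_tendsto_one (by positivity)
  have e : 1 / 2 * 1 / (Real.pi / 2) = 1 / Real.pi := by
    have := Real.pi_ne_zero
    field_simp
  rw [e] at h2
  refine h2.congr' ?_
  filter_upwards [self_mem_nhdsWithin] with m hm
  simp only [Function.comp_apply, Pi.div_apply]
  rw [RR_eq, Real.log_sqrt (le_of_lt hm)]
  have : 1 / 2 * (JJ 1 √m / -(Real.log m / 2)) = JJ 1 √m / -Real.log m := by
    rcases eq_or_ne (Real.log m) 0 with h0 | h0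
    · rw [h0]; simp
    · field_simp
  rw [this, div_div, div_div, mul_comm]

theorem lam_zero : lam 0 = 0 := by simp [lam]

theorem t3_cont : ContinuousAt t3 0 := cont_at_zero T3_diff T3_ofReal

theorem t2_cont : ContinuousAt t2 0 := cont_at_zero T2_diff T2_ofReal

theorem t4_cont : ContinuousAt t4 0 := cont_at_zero T4_diff T4_ofReal

theorem quot_tendsto : Tendsto (fun x => t2 x ^ 4 / t3 x ^ 4) (𝓝 0) (𝓝 16) := by
  have h := (t2_cont.tendsto.pow 4).div (t3_cont.tendsto.pow 4) (by rw [t3_zero]; norm_num)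
  rw [t2_zero, t3_zero] at h
  norm_num at h
  exact h

theorem lam_tendsto : Tendsto lam (𝓝[>] 0) (𝓝[>] 0) := by
  apply tendsto_nhdsWithin_of_tendsto_nhds_of_eventually_within
  · have h := (tendsto_id (α := ℝ) (x := 𝓝 0)).mul quot_tendsto
    rw [zero_mul] at h
    have h' : (fun x : ℝ => id x * (t2 x ^ 4 / t3 x ^ 4)) = lam := by
      ext x; unfold lam; simp; ring
    rw [h'] at h
    exact h.mono_left nhdsWithin_le_nhds
  · have h1 : ∀ᶠ m : ℝ in 𝓝[>] 0, m ∈ Ioo (0 : ℝ) 1 := Ioo_mem_nhdsGT one_pos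
    filter_upwards [h1] with m hm
    exact lam_pos hm.1 hm.2

theorem log_lam_div : Tendsto (fun x => Real.log (lam x) / Real.log x) (𝓝[>] 0) (𝓝 1) := by
  have h1 : Tendsto (fun x => Real.log (t2 x ^ 4 / t3 x ^ 4)) (𝓝[>] 0) (𝓝 (Real.log 16)) :=
    ((Real.continuousAt_log (by norm_num : (16 : ℝ) ≠ 0)).tendsto.comp quot_tendsto).mono_left
      nhdsWithin_le_nhds
  have h2 : Tendsto (fun x => Real.log (t2 x ^ 4 / t3 x ^ 4) / Real.log x) (𝓝[>] 0) (𝓝 0) :=
    h1.div_atBot Real.tendsto_log_nhdsGT_zero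
  have h3 := h2.const_add 1
  rw [add_zero] at h3
  refine h3.congr' ?_
  have h1 : ∀ᶠ m : ℝ in 𝓝[>] 0, m ∈ Ioo (0 : ℝ) 1 := Ioo_mem_nhdsGT one_pos
  filter_upwards [h1] with x hx
  have h2 := t2_pos hx.1.le hx.2
  have h3 := t3_pos hx.1.le hx.2
  have hlog : Real.log x ≠ 0 := (Real.log_neg hx.1 hx.2).ne
  have : Real.log (lam x) = Real.log x + Real.log (t2 x ^ 4 / t3 x ^ 4) := by
    rw [← Real.log_mul hx.1.ne' (by positivity)]
    unfold lam
    congr 1
    ring
  rw [this]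
  field_simp

theorem RRlam_div : Tendsto (fun x => RR (lam x) / (-Real.log x)) (𝓝[>] 0) (𝓝 (1 / Real.pi)) := by
  have h := (RR_div_log.comp lam_tendsto).mul log_lam_div
  rw [mul_one] at h
  refine h.congr' ?_
  have hlam0 : ∀ᶠ x in 𝓝[>] 0, lam x ∈ Ioo (0 : ℝ) 1 := lam_tendsto.eventually (Ioo_mem_nhdsGT one_pos)
  filter_upwards [hlam0] with x hx
  have hl : Real.log (lam x) ≠ 0 := (Real.log_neg hx.1 hx.2).ne
  simp only [Function.comp_apply]
  rw [div_mul_div_comm]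
  rcases eq_or_ne (Real.log x) 0 with h0 | h0
  · rw [h0]; simp
  · field_simp

/-- `K(1-λ)/K(λ) = -log q/π` -/
theorem RR_lam {x : ℝ} (h0 : 0 < x) (h1 : x < 1) : RR (lam x) = -Real.log x / Real.pi := by
  have hinv : ∀ n : ℕ, RR (lam (x ^ (2 ^ n))) / (-Real.log (x ^ (2 ^ n))) =
      RR (lam x) / (-Real.log x) := by
    intro n
    induction n with
    | zero => simp
    | succ n ih =>
      rw [← ih]
      have e : x ^ (2 ^ (n + 1)) = (x ^ (2 ^ n)) ^ 2 := by rw [← pow_mul, ← pow_succ]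
      rw [e, RR_lam_sq (pow_pos h0 _) (iter_lt h0.le h1 n), Real.log_pow]
      push_cast
      have hl : Real.log (x ^ 2 ^ n) ≠ 0 := (Real.log_neg (pow_pos h0 _) (iter_lt h0.le h1 n)).ne
      field_simp
  have ht : Tendsto (fun n : ℕ => x ^ (2 ^ n)) atTop (𝓝[>] 0) :=
    tendsto_nhdsWithin_of_tendsto_nhds_of_eventually_within _ (iter_tendsto h0.le h1)
      (Eventually.of_forall fun n => pow_pos h0 _)
  have h2 := RRlam_div.comp ht
  have h3 : ((fun x => RR (lam x) / (-Real.log x)) ∘ fun n : ℕ => x ^ (2 ^ n)) =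
      fun _ => RR (lam x) / (-Real.log x) := by
    ext n; exact hinv n
  rw [h3] at h2
  have h4 := tendsto_nhds_unique tendsto_const_nhds h2
  have hl : Real.log x ≠ 0 := (Real.log_neg h0 h1).ne
  have hpi := Real.pi_ne_zero
  field_simp at h4 ⊢
  linarith

end RConf
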