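import Pool.Agent.Rect.Mod.Conf.EtaProd
import Pool.Agent.Rect.Mod.Conf.RLam
import Pool.Agent.Rect.Mod.Conf.DLam
import Pool.Agent.Helper25.Cardy.Lim
import Pool.Agent.Rect.Mod.Final

/-!
# Cardy's function of the cross-ratio at the parameter of the rectangle
-/

open Set Filter Topology MeasureTheory

namespace RConf

/-- Cardy's function of the cross-ratio -/
noncomputable def cardyFn (a : ℝ) : ℝ :=
  Real.Gamma (2 / 3) / Real.Gamma (1 / 3) ^ 2 * ∫ t in (0 : ℝ)..a, (t * (1 - t)) ^ (-(2 / 3) : ℝ)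

/-- the constant of Cardy's formula -/
noncomputable def kap : ℝ := Real.Gamma (2 / 3) / Real.Gamma (1 / 3) ^ 2

/-- the integrand -/
noncomputable def hw (t : ℝ) : ℝ := (t * (1 - t)) ^ (-(2 / 3) : ℝ)

theorem kap_pos : 0 < kap := by
  unfold kap
  have h1 : 0 < Real.Gamma (2 / 3) := Real.Gamma_pos_of_pos (by norm_num)
  have h2 : 0 < Real.Gamma (1 / 3) := Real.Gamma_pos_of_pos (by norm_num)
  positivity

theorem cardyFn_eq (a : ℝ) : cardyFn a = kap * ∫ t in (0 : ℝ)..a, hw t := rfl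

theorem hw_int : IntervalIntegrable hw volume 0 1 := Pool.Agent.Helper25.Cardy.w_int

theorem cardyFn_zero : cardyFn 0 = 0 := by simp [cardyFn_eq]

theorem cardyFn_one : cardyFn 1 = 1 := by
  rw [cardyFn_eq]
  have h : ∫ t in (0 : ℝ)..1, hw t = Real.Gamma (1 / 3) ^ 2 / Real.Gamma (2 / 3) :=
    Pool.Agent.Helper25.Cardy.w_total
  rw [h]
  unfold kap
  have h1 : 0 < Real.Gamma (2 / 3) := Real.Gamma_pos_of_pos (by norm_num)
  have h2 : 0 < Real.Gamma (1 / 3) := Real.Gamma_pos_of_pos (by norm_num)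
  field_simp

theorem cardyFn_cont : ContinuousOn cardyFn (Icc 0 1) := by
  have h : IntegrableOn hw (uIcc 0 1) := by
    rw [uIcc_of_le zero_le_one, integrableOn_Icc_iff_integrableOn_Ioc]
    exact (intervalIntegrable_iff_integrableOn_Ioc_of_le zero_le_one).1 hw_int
  have h2 := intervalIntegral.continuousOn_primitive_interval h
  rw [uIcc_of_le zero_le_one] at h2
  exact h2.const_mul kap |>.congr fun x _ => cardyFn_eq x

theorem hw_contAt {a : ℝ} (h0 : 0 < a) (h1 : a < 1) : ContinuousAt hw a := by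
  unfold hw
  refine ContinuousAt.rpow_const (by fun_prop) (Or.inl ?_)
  exact (mul_pos h0 (by linarith)).ne'

theorem cardyFn_deriv {a : ℝ} (h0 : 0 < a) (h1 : a < 1) :
    HasDerivAt cardyFn (kap * hw a) a := by
  have hi : IntervalIntegrable hw volume 0 a := by
    refine hw_int.mono_set ?_
    rw [uIcc_of_le h0.le, uIcc_of_le zero_le_one]
    exact Icc_subset_Icc_right h1.le
  have hm : StronglyMeasurableAtFilter hw (𝓝 a) := by
    have : ContinuousOn hw (Ioo 0 1) := fun x hx => (hw_contAt hx.1 hx.2).continuousWithinAt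
    exact this.stronglyMeasurableAtFilter isOpen_Ioo a ⟨h0, h1⟩
  exact (intervalIntegral.integral_hasDerivAt_right hi hm (hw_contAt h0 h1)).const_mul kap

/-- the parameter (cross-ratio) of the rectangle of aspect ratio `t` -/
noncomputable def mm (t : ℝ) : ℝ := lam (xq t)

theorem mm_pos {t : ℝ} (h : 0 < t) : 0 < mm t := lam_pos (xq_pos t) (xq_lt_one h)

theorem mm_lt_one {t : ℝ} (h : 0 < t) : mm t < 1 := lam_lt_one (xq_pos t).le (xq_lt_one h)

theorem RR_mm {t : ℝ} (h : 0 < t) : RR (mm t) = t := by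
  unfold mm
  rw [RR_lam (xq_pos t) (xq_lt_one h)]
  unfold xq
  rw [Real.log_exp]
  have := Real.pi_pos
  field_simp

theorem mm_mul {t : ℝ} (h : 0 < t) : mm t * (1 - mm t) =
    xq t * t2 (xq t) ^ 4 * t4 (xq t) ^ 4 / t3 (xq t) ^ 8 := by
  have h3 := t3_pos (xq_pos t).le (xq_lt_one h)
  unfold mm
  rw [one_sub_lam (xq_pos t).le (xq_lt_one h)]
  unfold lam ks
  field_simp

theorem mm_deriv {t : ℝ} (h : 0 < t) :
    HasDerivAt mm (-(Real.pi * (mm t * (1 - mm t)) * t3 (xq t) ^ 4)) t := by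
  have h3 := t3_pos (xq_pos t).le (xq_lt_one h)
  have h1 : HasDerivAt xq (-(Real.pi) * xq t) t := by
    unfold xq
    have h2 : HasDerivAt (fun s : ℝ => -(Real.pi * s)) (-(Real.pi * 1)) t :=
      HasDerivAt.fun_neg ((hasDerivAt_id t).const_mul Real.pi)
    exact h2.exp.congr_deriv (by ring)
  have h5 := (lam_deriv (xq_pos t) (xq_lt_one h)).comp t h1
  refine HasDerivAt.congr_deriv (f := mm) h5 ?_
  have h6 := mm_mul h
  rw [h6]
  field_simp

/-- the constant -/
noncomputable def c0 : ℝ := (16 : ℝ) ^ (1 / 3 : ℝ)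

theorem c0_pos : 0 < c0 := Real.rpow_pos_of_pos (by norm_num) _

theorem c0_pow : c0 ^ 3 = 16 := by
  unfold c0
  rw [← Real.rpow_natCast, ← Real.rpow_mul (by norm_num)]
  norm_num

theorem key {t : ℝ} (h : 0 < t) :
    hw (mm t) * ((mm t * (1 - mm t)) * t3 (xq t) ^ 4) = c0 * Er t := by
  have h3 := t3_pos (xq_pos t).le (xq_lt_one h)
  have hY : 0 < mm t * (1 - mm t) := mul_pos (mm_pos h) (by linarith [mm_lt_one h])
  have hm := mm_mul h
  have hp := t_prod h
  set Y := mm t * (1 - mm t) with hYd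
  have e1 : hw (mm t) * (Y * t3 (xq t) ^ 4) = Y ^ (1 / 3 : ℝ) * t3 (xq t) ^ 4 := by
    unfold hw
    rw [← hYd, ← mul_assoc]
    congr 1
    rw [← Real.rpow_add_one hY.ne']
    norm_num
  rw [e1]
  have hl : 0 ≤ Y ^ (1 / 3 : ℝ) * t3 (xq t) ^ 4 := by positivity
  have hr : 0 ≤ c0 * Er t := (mul_pos c0_pos (Er_pos t)).le
  refine (pow_left_inj₀ hl hr (n := 3) (by norm_num)).1 ?_
  have e2 : (Y ^ (1 / 3 : ℝ)) ^ 3 = Y := by
    rw [← Real.rpow_natCast, ← Real.rpow_mul hY.le]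
    norm_num
  rw [mul_pow, mul_pow, e2, c0_pow, ← hp, hm]
  field_simp

theorem GG_deriv {t : ℝ} (h : 0 < t) :
    HasDerivAt (fun t => cardyFn (mm t)) (-(kap * Real.pi * c0 * Er t)) t := by
  have h1 := (cardyFn_deriv (mm_pos h) (mm_lt_one h)).comp t (mm_deriv h)
  refine HasDerivAt.congr_deriv (f := fun t => cardyFn (mm t)) h1 ?_
  have := key h
  symm
  calc -(kap * Real.pi * c0 * Er t) = -(kap * Real.pi) * (c0 * Er t) := by ring
    _ = -(kap * Real.pi) * (hw (mm t) * ((mm t * (1 - mm t)) * t3 (xq t) ^ 4)) := by rw [this]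
    _ = _ := by ring

theorem mm_atTop : Tendsto mm atTop (𝓝[>] 0) := by
  refine lam_tendsto.comp ?_
  refine tendsto_nhdsWithin_iff.2 ⟨?_, Eventually.of_forall fun t => xq_pos t⟩
  unfold xq
  exact Real.tendsto_exp_neg_atTop_nhds_zero.comp (tendsto_id.const_mul_atTop Real.pi_pos)

theorem mm_zero : Tendsto mm (𝓝[>] 0) (𝓝 1) := by
  rw [Metric.tendsto_nhds]
  intro ε hε
  set m0 : ℝ := max (1 / 2) (1 - ε) with hm0
  have a0 : 0 < m0 := lt_of_lt_of_le (by norm_num) (le_max_left _ _)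
  have a1 : m0 < 1 := max_lt (by norm_num) (by linarith)
  have a2 : 1 - ε ≤ m0 := le_max_right _ _
  filter_upwards [Ioo_mem_nhdsGT (RR_pos a0 a1)] with t ht
  have b1 := mm_pos ht.1
  have b2 := mm_lt_one ht.1
  have b3 := RR_mm ht.1
  have b4 : m0 < mm t := by
    by_contra hcon
    have hle : mm t ≤ m0 := not_lt.1 hcon
    rcases hle.lt_or_eq with hlt | heq
    · have := RR_strictAnti b1 hlt a1
      rw [b3] at this
      exact absurd this (not_lt.2 ht.2.le)
    · rw [heq] at b3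
      rw [b3] at ht
      exact absurd ht.2 (lt_irrefl _)
  rw [Real.dist_eq, abs_lt]
  constructor <;> linarith

theorem GG_atTop : Tendsto (fun t => cardyFn (mm t)) atTop (𝓝 0) := by
  have h1 : ContinuousWithinAt cardyFn (Icc 0 1) 0 := cardyFn_cont 0 ⟨le_rfl, zero_le_one⟩
  have h2 : Tendsto mm atTop (𝓝[Icc 0 1] 0) := by
    refine tendsto_nhdsWithin_iff.2 ⟨mm_atTop.mono_right nhdsWithin_le_nhds, ?_⟩
    filter_upwards [eventually_gt_atTop 0] with t ht
    exact ⟨(mm_pos ht).le, (mm_lt_one ht).le⟩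
  have h3 := h1.tendsto.comp h2
  rwa [cardyFn_zero] at h3

theorem GG_zero : Tendsto (fun t => cardyFn (mm t)) (𝓝[>] 0) (𝓝 1) := by
  have h1 : ContinuousWithinAt cardyFn (Icc 0 1) 1 := cardyFn_cont 1 ⟨zero_le_one, le_rfl⟩
  have h2 : Tendsto mm (𝓝[>] 0) (𝓝[Icc 0 1] 1) := by
    refine tendsto_nhdsWithin_iff.2 ⟨mm_zero, ?_⟩
    filter_upwards [self_mem_nhdsWithin] with t ht
    exact ⟨(mm_pos ht).le, (mm_lt_one ht).le⟩
  have h3 := h1.tendsto.comp h2
  rwa [cardyFn_one] at h3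

theorem E4_real {t : ℝ} (h : 0 < t) : RectM4.E4 (t : ℂ) = (Er t : ℂ) := by
  have h1 : (t : ℂ) ∈ RectMod.RHP := RectMod.ofReal_mem h
  rw [← E_real h, RectMod.E_eq_eta h1]
  rfl

theorem Er_int : IntegrableOn Er (Ioi 0) := by
  have h1 := RectM4.E4_integrableOn.norm
  refine (integrableOn_congr_fun ?_ measurableSet_Ioi).1 h1
  intro t ht
  simp only
  rw [E4_real ht, Complex.norm_real, Real.norm_of_nonneg (Er_pos t).le]

theorem int_E4 {ρ : ℝ} (h : 0 ≤ ρ) :
    ∫ t in Ioi ρ, RectM4.E4 t = ((∫ t in Ioi ρ, Er t : ℝ) : ℂ) := by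
  rw [← integral_complex_ofReal]
  refine setIntegral_congr_fun measurableSet_Ioi fun t ht => ?_
  exact E4_real (lt_of_le_of_lt h ht)

theorem int_Er {ρ : ℝ} (h : 0 < ρ) :
    kap * Real.pi * c0 * ∫ t in Ioi ρ, Er t = cardyFn (mm ρ) := by
  have hi : IntegrableOn (fun t => -(kap * Real.pi * c0 * Er t)) (Ioi ρ) :=
    ((Er_int.mono_set (Ioi_subset_Ioi h.le)).const_mul _).neg
  have h1 := integral_Ioi_of_hasDerivAt_of_tendsto (a := ρ)
    (f := fun t => cardyFn (mm t)) (f' := fun t => -(kap * Real.pi * c0 * Er t)) (m := 0)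
    (GG_deriv h).continuousAt.continuousWithinAt
    (fun t ht => GG_deriv (lt_trans h ht)) hi GG_atTop
  rw [integral_neg, integral_const_mul] at h1
  linarith

theorem int_Er_zero : kap * Real.pi * c0 * ∫ t in Ioi (0 : ℝ), Er t = 1 := by
  have h1 : Tendsto (fun ρ : ℝ => kap * Real.pi * c0 * ∫ t in Ioi ρ, Er t) (𝓝[>] 0) (𝓝 1) := by
    refine GG_zero.congr' ?_
    filter_upwards [self_mem_nhdsWithin] with ρ hρ
    exact (int_Er hρ).symm
  have h2 : Tendsto (fun ρ : ℝ => kap * Real.pi * c0 * ∫ t in Ioi ρ, Er t) (𝓝[>] 0)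
      (𝓝 (kap * Real.pi * c0 * ∫ t in Ioi (0 : ℝ), Er t)) := by
    refine Tendsto.const_mul _ ?_
    have h3 : ∀ ρ ∈ Ioi (0 : ℝ), ∫ t in Ioi ρ, Er t =
        (∫ t in Ioi (0 : ℝ), Er t) - ∫ t in (0 : ℝ)..ρ, Er t := by
      intro ρ hρ
      have h4 := intervalIntegral.integral_interval_add_Ioi (a := 0) (b := ρ)
        (f := Er) (μ := volume) Er_int (Er_int.mono_set (Ioi_subset_Ioi (le_of_lt hρ)))
      rw [← h4]
      ring
    have h5 : Tendsto (fun ρ : ℝ => ∫ t in (0 : ℝ)..ρ, Er t) (𝓝[>] 0) (𝓝 0) := by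
      have h6 : IntegrableOn Er (uIcc 0 1) := by
        rw [uIcc_of_le zero_le_one, integrableOn_Icc_iff_integrableOn_Ioc]
        exact Er_int.mono_set Ioc_subset_Ioi_self
      have h7 := intervalIntegral.continuousOn_primitive_interval h6
      rw [uIcc_of_le zero_le_one] at h7
      have h8 := (h7 0 ⟨le_rfl, zero_le_one⟩).tendsto
      rw [intervalIntegral.integral_same] at h8
      refine h8.mono_left ?_
      refine nhdsWithin_le_iff.2 ?_
      exact mem_of_superset (Ioo_mem_nhdsGT zero_lt_one) Ioo_subset_Icc_self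
    have h9 : Tendsto (fun ρ : ℝ => (∫ t in Ioi (0 : ℝ), Er t) - ∫ t in (0 : ℝ)..ρ, Er t)
        (𝓝[>] 0) (𝓝 ((∫ t in Ioi (0 : ℝ), Er t) - 0)) := tendsto_const_nhds.sub h5
    rw [sub_zero] at h9
    refine h9.congr' ?_
    filter_upwards [self_mem_nhdsWithin] with ρ hρ
    exact (h3 ρ hρ).symm
  exact tendsto_nhds_unique h2 h1

/-- `cardy ρ = cardyF (mm ρ)` -/
theorem cardy_eq {ρ : ℝ} (h : 0 < ρ) : RectMod.cardy ρ = cardyFn (mm ρ) := by
  unfold RectMod.cardy
  rw [int_E4 h.le, int_E4 le_rfl, ← Complex.ofReal_div, Complex.ofReal_re]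
  have h1 := int_Er h
  have h2 := int_Er_zero
  have hk : 0 < kap * Real.pi * c0 := mul_pos (mul_pos kap_pos Real.pi_pos) c0_pos
  have h3 : (∫ t in Ioi (0 : ℝ), Er t) = 1 / (kap * Real.pi * c0) := by
    rw [eq_div_iff hk.ne', mul_comm]
    exact h2
  rw [h3, ← h1]
  field_simp

end RConf
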