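import Mathlib

/-!
# The complete elliptic integral and Landen's transformation

`JJ a b = ∫_0^∞ dx / √((x²+a²)(x²+b²))` (Gauss).  `K(m) = JJ 1 √(1-m)`.
-/

open MeasureTheory Set Filter Topology

namespace RConf

/-- Gauss' form of the complete elliptic integral -/
noncomputable def JJ (a b : ℝ) : ℝ := ∫ x in Ioi (0 : ℝ), (√((x ^ 2 + a ^ 2) * (x ^ 2 + b ^ 2)))⁻¹

theorem JJ_symm (a b : ℝ) : JJ a b = JJ b a := by
  unfold JJ
  congr 1
  ext x
  rw [mul_comm]

theorem JJ_homog {c : ℝ} (hc : 0 < c) (a b : ℝ) : JJ (c * a) (c * b) = c⁻¹ * JJ a b := by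
  unfold JJ
  have h := integral_comp_mul_left_Ioi
    (fun x => (√((x ^ 2 + (c * a) ^ 2) * (x ^ 2 + (c * b) ^ 2)))⁻¹) 0 hc
  rw [mul_zero] at h
  have h2 : ∀ x : ℝ, (√(((c * x) ^ 2 + (c * a) ^ 2) * ((c * x) ^ 2 + (c * b) ^ 2)))⁻¹ =
      c⁻¹ ^ 2 * (√((x ^ 2 + a ^ 2) * (x ^ 2 + b ^ 2)))⁻¹ := by
    intro x
    have : ((c * x) ^ 2 + (c * a) ^ 2) * ((c * x) ^ 2 + (c * b) ^ 2) =
        (c ^ 2) ^ 2 * ((x ^ 2 + a ^ 2) * (x ^ 2 + b ^ 2)) := by ring
    rw [this, Real.sqrt_mul (by positivity), Real.sqrt_sq (by positivity), mul_inv, inv_pow]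
  simp_rw [h2] at h
  rw [integral_const_mul, smul_eq_mul] at h
  have hc' : c ≠ 0 := hc.ne'
  field_simp at h ⊢
  linarith

theorem JJ_gauss {a b : ℝ} (ha : 0 < a) (hb : 0 < b) : JJ a b = JJ ((a + b) / 2) (√(a * b)) := by
  have hab : 0 < a * b := mul_pos ha hb
  set f : ℝ → ℝ := fun x => (x - a * b / x) / 2 with hf
  set f' : ℝ → ℝ := fun x => (1 + a * b / x ^ 2) / 2 with hf'
  set g : ℝ → ℝ := fun u => (√((u ^ 2 + ((a + b) / 2) ^ 2) * (u ^ 2 + √(a * b) ^ 2)))⁻¹ with hg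
  have hd : ∀ x ∈ Ioi (0 : ℝ), HasDerivWithinAt f (f' x) (Ioi 0) x := by
    intro x hx
    have hx0 : x ≠ 0 := (ne_of_gt hx)
    apply HasDerivAt.hasDerivWithinAt
    have h1 : HasDerivAt (fun x : ℝ => a * b / x) (-(a * b) / x ^ 2) x := by
      have := (hasDerivAt_inv hx0).const_mul (a * b)
      refine (this.congr_deriv ?_).congr_of_eventuallyEq (Eventually.of_forall fun y => ?_)
      · field_simp
      · simp [div_eq_mul_inv]
    have h2 := ((hasDerivAt_id x).sub h1).div_const 2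
    refine h2.congr_deriv ?_
    simp only [hf']
    ring
  have hmono : StrictMonoOn f (Ioi 0) := by
    intro x hx y hy hxy
    simp only [hf]
    have hx0 : (0 : ℝ) < x := hx
    have hy0 : (0 : ℝ) < y := hy
    have : a * b / y < a * b / x := div_lt_div_of_pos_left hab hx0 hxy
    linarith
  have himg : f '' Ioi 0 = univ := by
    apply eq_univ_of_forall
    intro y
    have hs : |y| < √(y ^ 2 + a * b) := by
      apply Real.lt_sqrt_of_sq_lt
      rw [sq_abs]; linarith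
    have hpos : 0 < y + √(y ^ 2 + a * b) := by
      have := neg_abs_le y
      linarith
    refine ⟨y + √(y ^ 2 + a * b), hpos, ?_⟩
    simp only [hf]
    have hsq : √(y ^ 2 + a * b) ^ 2 = y ^ 2 + a * b := Real.sq_sqrt (by positivity)
    field_simp
    nlinarith [hsq]
  have key := integral_image_eq_integral_abs_deriv_smul measurableSet_Ioi hd hmono.injOn g
  rw [himg, setIntegral_univ] at key
  have hpt : ∀ x ∈ Ioi (0 : ℝ), |f' x| • g (f x) =
      2 * (√((x ^ 2 + a ^ 2) * (x ^ 2 + b ^ 2)))⁻¹ := by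
    intro x hx
    have hx0 : (0 : ℝ) < x := hx
    have hP : 0 < (x ^ 2 + a ^ 2) * (x ^ 2 + b ^ 2) := by positivity
    have hf'pos : 0 < f' x := by simp only [hf']; positivity
    rw [abs_of_pos hf'pos, smul_eq_mul]
    simp only [hg]
    have e1 : ((f x) ^ 2 + ((a + b) / 2) ^ 2) * ((f x) ^ 2 + √(a * b) ^ 2) =
        ((x + a * b / x) / (4 * x)) ^ 2 * ((x ^ 2 + a ^ 2) * (x ^ 2 + b ^ 2)) := by
      rw [Real.sq_sqrt hab.le]
      simp only [hf]
      field_simp
      ring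
    rw [e1, Real.sqrt_mul (by positivity), Real.sqrt_sq (by positivity), mul_inv]
    simp only [hf']
    have hS : √((x ^ 2 + a ^ 2) * (x ^ 2 + b ^ 2)) ≠ 0 := (Real.sqrt_pos.2 hP).ne'
    field_simp
    ring
  rw [setIntegral_congr_fun measurableSet_Ioi hpt, integral_const_mul] at key
  have heven : ∫ u, g u = 2 * ∫ u in Ioi (0 : ℝ), g u := by
    rw [← integral_comp_abs]
    congr 1
    ext u
    simp only [hg, sq_abs]
  rw [heven] at key
  unfold JJ
  linarith

theorem JJ_one_one : JJ 1 1 = Real.pi / 2 := by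
  unfold JJ
  have h := @integral_Ioi_inv_one_add_sq 0
  rw [Real.arctan_zero, sub_zero] at h
  rw [← h]
  congr 1
  ext x
  rw [← pow_two, Real.sqrt_sq (by positivity)]
  congr 1
  ring

theorem JJ_integrable {a b : ℝ} (ha : 0 < a) (hb : 0 < b) :
    IntegrableOn (fun x : ℝ => (√((x ^ 2 + a ^ 2) * (x ^ 2 + b ^ 2)))⁻¹) (Ioi 0) := by
  have hc : 0 < min a (min b 1) := by positivity
  set c := min a (min b 1) with hcd
  have h1 : IntegrableOn (fun x : ℝ => (c ^ 2)⁻¹ * (1 + x ^ 2)⁻¹) (Ioi 0) :=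
    (integrable_inv_one_add_sq.const_mul _).integrableOn
  refine h1.mono' ?_ ?_
  · apply Measurable.aestronglyMeasurable
    fun_prop
  · filter_upwards with x
    rw [Real.norm_eq_abs, abs_of_nonneg (by positivity), ← mul_inv]
    apply inv_anti₀ (by positivity)
    apply Real.le_sqrt_of_sq_le
    have ca : c ≤ a := min_le_left _ _
    have cb : c ≤ b := (min_le_right _ _).trans (min_le_left _ _)
    have c1 : c ≤ 1 := (min_le_right _ _).trans (min_le_right _ _)
    have ca2 : c ^ 2 ≤ a ^ 2 := pow_le_pow_left₀ hc.le ca 2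
    have cb2 : c ^ 2 ≤ b ^ 2 := pow_le_pow_left₀ hc.le cb 2
    have c12 : c ^ 2 ≤ 1 := by nlinarith
    have q1 : c ^ 2 * (1 + x ^ 2) ≤ x ^ 2 + a ^ 2 := by nlinarith [sq_nonneg x]
    have q2 : c ^ 2 * (1 + x ^ 2) ≤ x ^ 2 + b ^ 2 := by nlinarith [sq_nonneg x]
    rw [pow_two]
    apply mul_le_mul q1 q2 (by positivity) (by positivity)

theorem JJ_anti {s s' : ℝ} (hs : 0 < s) (h : s ≤ s') : JJ 1 s' ≤ JJ 1 s := by
  unfold JJ
  apply setIntegral_mono_on (JJ_integrable one_pos (hs.trans_le h)) (JJ_integrable one_pos hs)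
    measurableSet_Ioi
  intro x _
  apply inv_anti₀ (Real.sqrt_pos.2 (by positivity))
  apply Real.sqrt_le_sqrt
  have : s ^ 2 ≤ s' ^ 2 := pow_le_pow_left₀ hs.le h 2
  apply mul_le_mul_of_nonneg_left _ (by positivity)
  linarith

theorem JJ_pos {s : ℝ} (hs : 0 < s) : 0 < JJ 1 s := by
  unfold JJ
  rw [setIntegral_pos_iff_support_of_nonneg_ae]
  · have : Function.support (fun x : ℝ => (√((x ^ 2 + 1 ^ 2) * (x ^ 2 + s ^ 2)))⁻¹) = univ := by
      apply eq_univ_of_forall
      intro x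
      have : 0 < √((x ^ 2 + 1 ^ 2) * (x ^ 2 + s ^ 2)) := Real.sqrt_pos.2 (by positivity)
      exact (inv_pos.2 this).ne'
    rw [this, univ_inter, Real.volume_Ioi]
    exact ENNReal.zero_lt_top
  · filter_upwards with x
    positivity
  · exact JJ_integrable one_pos hs

theorem JJ_strictAnti {s s' : ℝ} (hs : 0 < s) (h : s < s') : JJ 1 s' < JJ 1 s := by
  have hs' : 0 < s' := hs.trans h
  rw [← sub_pos]
  unfold JJ
  rw [← integral_sub (JJ_integrable one_pos hs) (JJ_integrable one_pos hs')]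
  have hpt : ∀ x : ℝ, (√((x ^ 2 + 1 ^ 2) * (x ^ 2 + s' ^ 2)))⁻¹ <
      (√((x ^ 2 + 1 ^ 2) * (x ^ 2 + s ^ 2)))⁻¹ := by
    intro x
    apply inv_strictAnti₀ (Real.sqrt_pos.2 (by positivity))
    apply Real.sqrt_lt_sqrt (by positivity)
    have : s ^ 2 < s' ^ 2 := pow_lt_pow_left₀ h hs.le two_ne_zero
    apply mul_lt_mul_of_pos_left _ (by positivity)
    linarith
  rw [setIntegral_pos_iff_support_of_nonneg_ae]
  · have : Function.support (fun x : ℝ => (√((x ^ 2 + 1 ^ 2) * (x ^ 2 + s ^ 2)))⁻¹ -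
        (√((x ^ 2 + 1 ^ 2) * (x ^ 2 + s' ^ 2)))⁻¹) = univ := by
      apply eq_univ_of_forall
      intro x
      exact (sub_pos.2 (hpt x)).ne'
    rw [this, univ_inter, Real.volume_Ioi]
    exact ENNReal.zero_lt_top
  · filter_upwards with x
    exact (sub_pos.2 (hpt x)).le
  · exact (JJ_integrable one_pos hs).sub (JJ_integrable one_pos hs')

theorem JJ_ge {s : ℝ} (hs : 0 < s) (h1 : s ≤ 1) : Real.pi / 2 ≤ JJ 1 s := by
  rw [← JJ_one_one]; exact JJ_anti hs h1

theorem JJ_le {s : ℝ} (hs : 0 < s) (h1 : s ≤ 1) : JJ 1 s ≤ s⁻¹ * (Real.pi / 2) := by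
  have h := JJ_homog hs (1 / s) 1
  rw [mul_one_div_cancel hs.ne', mul_one] at h
  rw [h, JJ_symm, ← JJ_one_one]
  apply mul_le_mul_of_nonneg_left _ (by positivity)
  apply JJ_anti one_pos
  rw [le_div_iff₀ hs]; linarith

theorem JJ_le_log {s : ℝ} (hs : 0 < s) (h1 : s ≤ 1) : JJ 1 s ≤ 2 - Real.log s := by
  have hint := JJ_integrable one_pos hs
  have e1 : Ioi (0 : ℝ) = Ioc 0 s ∪ Ioi s := (Ioc_union_Ioi_eq_Ioi hs.le).symm
  have e2 : Ioi s = Ioc s 1 ∪ Ioi 1 := (Ioc_union_Ioi_eq_Ioi h1).symm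
  have i1 := hint.mono_set (Ioc_subset_Ioi_self : Ioc 0 s ⊆ Ioi 0)
  have i2 := hint.mono_set (Ioi_subset_Ioi hs.le)
  have i3 := i2.mono_set (Ioc_subset_Ioi_self : Ioc s 1 ⊆ Ioi s)
  have i4 := i2.mono_set (Ioi_subset_Ioi h1)
  have b1 : ∫ x in Ioc 0 s, (√((x ^ 2 + 1 ^ 2) * (x ^ 2 + s ^ 2)))⁻¹ ≤ 1 := by
    calc _ ≤ ∫ _ in Ioc 0 s, s⁻¹ := by
          apply setIntegral_mono_on i1 (by simp) measurableSet_Ioc
          intro x _
          apply inv_anti₀ hs
          apply Real.le_sqrt_of_sq_le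
          nlinarith [sq_nonneg x, sq_nonneg s, mul_nonneg (sq_nonneg x) (sq_nonneg x),
            mul_nonneg (sq_nonneg x) (sq_nonneg s)]
      _ = 1 := by
          simp [hs.le, hs.ne']
  have b2 : ∫ x in Ioc s 1, (√((x ^ 2 + 1 ^ 2) * (x ^ 2 + s ^ 2)))⁻¹ ≤ - Real.log s := by
    have hne : (0 : ℝ) ∉ uIcc s 1 := by
      rw [uIcc_of_le h1]; intro h; exact absurd h.1 (not_le.2 hs)
    calc _ ≤ ∫ x in Ioc s 1, x⁻¹ := by
          apply setIntegral_mono_on i3 _ measurableSet_Ioc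
          · intro x hx
            have hx0 : 0 < x := hs.trans hx.1
            apply inv_anti₀ hx0
            apply Real.le_sqrt_of_sq_le
            nlinarith [sq_nonneg x, sq_nonneg s, mul_nonneg (sq_nonneg x) (sq_nonneg x),
              mul_nonneg (sq_nonneg x) (sq_nonneg s)]
          · have := (intervalIntegral.intervalIntegrable_inv (μ := volume) (f := fun x => x)
              (a := s) (b := 1) (fun x hx => by
                intro h; rw [h] at hx; exact hne hx) continuousOn_id)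
            exact (intervalIntegrable_iff_integrableOn_Ioc_of_le h1).1 this
      _ = - Real.log s := by
          rw [← intervalIntegral.integral_of_le h1, integral_inv_of_pos hs one_pos, one_div,
            Real.log_inv]
  have b3 : ∫ x in Ioi (1 : ℝ), (√((x ^ 2 + 1 ^ 2) * (x ^ 2 + s ^ 2)))⁻¹ ≤ 1 := by
    have hr : IntegrableOn (fun x : ℝ => x ^ (-2 : ℝ)) (Ioi 1) :=
      integrableOn_Ioi_rpow_of_lt (by norm_num) one_pos
    calc _ ≤ ∫ x in Ioi (1 : ℝ), x ^ (-2 : ℝ) := by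
          apply setIntegral_mono_on i4 hr measurableSet_Ioi
          intro x hx
          have hx0 : (0 : ℝ) < x := one_pos.trans hx
          rw [Real.rpow_neg hx0.le]
          apply inv_anti₀ (by positivity)
          apply Real.le_sqrt_of_sq_le
          rw [Real.rpow_two]
          nlinarith [sq_nonneg x, sq_nonneg s, mul_nonneg (sq_nonneg x) (sq_nonneg x),
            mul_nonneg (sq_nonneg x) (sq_nonneg s)]
      _ = 1 := by
          rw [integral_Ioi_rpow_of_lt (by norm_num) one_pos]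
          norm_num
  unfold JJ
  rw [e1, setIntegral_union (by
      rw [Set.disjoint_left]; intro x hx hx'; exact absurd hx.2 (not_le.2 hx')) measurableSet_Ioi
      i1 i2, e2, setIntegral_union (by
      rw [Set.disjoint_left]; intro x hx hx'; exact absurd hx.2 (not_le.2 hx')) measurableSet_Ioi
      i3 i4]
  linarith

theorem JJ_ge_log {s δ : ℝ} (hs : 0 < s) (hδ : 0 < δ) :
    (√(1 + δ ^ 2))⁻¹ * (Real.log (δ + s) - Real.log s) ≤ JJ 1 s := by
  have hint := JJ_integrable one_pos hs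
  have i1 := hint.mono_set (Ioc_subset_Ioi_self : Ioc 0 δ ⊆ Ioi 0)
  have hne : ∀ x ∈ uIcc 0 δ, x + s ≠ 0 := by
    rw [uIcc_of_le hδ.le]; intro x hx; have := hx.1; linarith
  have hii : IntervalIntegrable (fun x => (x + s)⁻¹) volume 0 δ :=
    intervalIntegral.intervalIntegrable_inv (f := fun x => x + s) hne (by fun_prop)
  have e : ∫ x in Ioc 0 δ, (√(1 + δ ^ 2))⁻¹ * (x + s)⁻¹ =
      (√(1 + δ ^ 2))⁻¹ * (Real.log (δ + s) - Real.log s) := by
    rw [integral_const_mul, ← intervalIntegral.integral_of_le hδ.le]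
    congr 1
    rw [intervalIntegral.integral_comp_add_right (fun x => x⁻¹) s, zero_add,
      integral_inv_of_pos hs (by linarith), Real.log_div (by linarith) hs.ne']
  rw [← e]
  calc _ ≤ ∫ x in Ioc 0 δ, (√((x ^ 2 + 1 ^ 2) * (x ^ 2 + s ^ 2)))⁻¹ := by
        apply setIntegral_mono_on _ i1 measurableSet_Ioc
        · intro x hx
          have hx0 := hx.1
          rw [← mul_inv]
          apply inv_anti₀ (Real.sqrt_pos.2 (by positivity))
          rw [Real.sqrt_mul (by positivity)]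
          apply mul_le_mul _ _ (Real.sqrt_nonneg _) (Real.sqrt_nonneg _)
          · apply Real.sqrt_le_sqrt
            nlinarith [hx.2]
          · rw [Real.sqrt_le_left (by positivity)]
            nlinarith [mul_pos hx0 hs]
        · exact ((intervalIntegrable_iff_integrableOn_Ioc_of_le hδ.le).1 hii).const_mul _
    _ ≤ _ := by
        apply setIntegral_mono_set hint
        · filter_upwards with x; positivity
        · exact (Ioc_subset_Ioi_self).eventuallyLE

/-- the complete elliptic integral `K(m)`, `m` the parameter (`m = k²`) -/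
noncomputable def Kf (m : ℝ) : ℝ := JJ 1 (√(1 - m))

/-- `K(1-m)/K(m)` -/
noncomputable def RR (m : ℝ) : ℝ := Kf (1 - m) / Kf m

theorem RR_eq (m : ℝ) : RR m = JJ 1 (√m) / JJ 1 (√(1 - m)) := by
  unfold RR Kf
  rw [sub_sub_cancel]

theorem Kf_pos {m : ℝ} (hm : m < 1) : 0 < Kf m := JJ_pos (Real.sqrt_pos.2 (by linarith))

theorem RR_pos {m : ℝ} (h0 : 0 < m) (h1 : m < 1) : 0 < RR m :=
  div_pos (Kf_pos (by linarith)) (Kf_pos h1)

theorem RR_strictAnti {m m' : ℝ} (h0 : 0 < m) (h : m < m') (h1 : m' < 1) : RR m' < RR m := by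
  rw [RR_eq, RR_eq]
  have a1 : JJ 1 (√m') < JJ 1 (√m) :=
    JJ_strictAnti (Real.sqrt_pos.2 h0) (Real.sqrt_lt_sqrt h0.le h)
  have a2 : JJ 1 (√(1 - m)) < JJ 1 (√(1 - m')) :=
    JJ_strictAnti (Real.sqrt_pos.2 (by linarith)) (Real.sqrt_lt_sqrt (by linarith) (by linarith))
  have p1 : 0 < JJ 1 (√(1 - m)) := JJ_pos (Real.sqrt_pos.2 (by linarith))
  have p2 : 0 < JJ 1 (√m') := JJ_pos (Real.sqrt_pos.2 (by linarith))
  calc JJ 1 (√m') / JJ 1 (√(1 - m')) < JJ 1 (√m') / JJ 1 (√(1 - m)) :=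
        div_lt_div_of_pos_left p2 p1 a2
    _ < JJ 1 (√m) / JJ 1 (√(1 - m)) := div_lt_div_of_pos_right a1 p1

/-- Landen's transformation, `s = k'` -/
theorem RR_landen {s : ℝ} (h0 : 0 < s) (h1 : s < 1) :
    RR (((1 - s) / (1 + s)) ^ 2) = 2 * RR (1 - s ^ 2) := by
  have hp : 0 < 1 + s := by linarith
  have hq : 0 < (1 - s) / (1 + s) := div_pos (by linarith) hp
  have hs2 : 0 < 1 - s ^ 2 := by nlinarith
  rw [RR_eq, RR_eq, Real.sqrt_sq hq.le]
  have e1 : √(1 - ((1 - s) / (1 + s)) ^ 2) = 2 / (1 + s) * √s := by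
    have : 1 - ((1 - s) / (1 + s)) ^ 2 = (2 / (1 + s)) ^ 2 * s := by
      field_simp
      ring
    rw [this, Real.sqrt_mul (by positivity), Real.sqrt_sq (by positivity)]
  have e2 : √(1 - (1 - s ^ 2)) = s := by
    rw [sub_sub_cancel, Real.sqrt_sq h0.le]
  rw [e1, e2]
  -- JJ 1 s = (2/(1+s)) JJ 1 (2√s/(1+s))
  have g1 : JJ 1 (2 / (1 + s) * √s) = (1 + s) / 2 * JJ 1 s := by
    have h := JJ_gauss one_pos h0
    have h2 := JJ_homog (c := 2 / (1 + s)) (by positivity) ((1 + s) / 2) (√s)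
    have h3 : 2 / (1 + s) * ((1 + s) / 2) = 1 := by field_simp
    rw [h3] at h2
    rw [h2, h, one_mul, inv_div]
  have g2 : JJ 1 ((1 - s) / (1 + s)) = (1 + s) * JJ 1 (√(1 - s ^ 2)) := by
    have h := JJ_gauss hp (show 0 < 1 - s by linarith)
    have h2 := JJ_homog hp 1 ((1 - s) / (1 + s))
    have h3 : (1 + s) * ((1 - s) / (1 + s)) = 1 - s := by field_simp
    have h4 : (1 + s + (1 - s)) / 2 = 1 := by ring
    have h5 : (1 + s) * (1 - s) = 1 - s ^ 2 := by ring
    rw [h3, mul_one, h, h4, h5] at h2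
    rw [h2]
    field_simp
  rw [g1, g2]
  have p1 : 0 < JJ 1 s := JJ_pos h0
  field_simp
  try ring

end RConf
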