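import Pool.Agent.Rect.Mod.Conf.EtaTheta

/-!
# `θ₂ θ₃ θ₄ = 2 η³`, the product formula
-/

open Set Filter Topology Complex

namespace RConf

/-- the filter at the cusp -/
noncomputable def cusp : Filter ℂ := comap Complex.re atTop

theorem nq_tendsto : Tendsto nq cusp (𝓝 0) := by
  rw [tendsto_zero_iff_norm_tendsto_zero]
  have h : (fun τ => ‖nq τ‖) = (fun s : ℝ => Real.exp (-(Real.pi * s))) ∘ Complex.re := by
    funext τ; exact norm_nq τ
  rw [h]
  refine Tendsto.comp ?_ tendsto_comap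
  refine Real.tendsto_exp_neg_atTop_nhds_zero.comp ?_
  exact tendsto_id.const_mul_atTop Real.pi_pos

/-- the quotient of the leading term of `E` and `E` -/
noncomputable def rr (τ : ℂ) : ℂ := cexp (-(Real.pi * τ / 3)) / RectMod.E τ

theorem rr_tendsto : Tendsto rr cusp (𝓝 1) := by
  rw [tendsto_iff_norm_sub_tendsto_zero]
  have h2 : Tendsto (fun τ : ℂ => 24 * Real.exp (-(2 * Real.pi * τ.re))) cusp (𝓝 0) := by
    have h3 : Tendsto (fun s : ℝ => 24 * Real.exp (-(2 * Real.pi * s))) atTop (𝓝 0) := by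
      have h4 := (Real.tendsto_exp_neg_atTop_nhds_zero.comp
        (tendsto_id.const_mul_atTop (Real.two_pi_pos))).const_mul 24
      rw [mul_zero] at h4
      exact h4
    exact h3.comp tendsto_comap
  refine squeeze_zero' (Eventually.of_forall fun _ => norm_nonneg _) ?_ h2
  have h5 : ∀ᶠ s : ℝ in atTop, 1 / 2 ≤ s := eventually_ge_atTop _
  have h6 : ∀ᶠ τ : ℂ in cusp, 1 / 2 ≤ τ.re := h5.comap _
  filter_upwards [h6] with τ hτ
  exact RectMod.E_lead hτ

theorem UU_eq (τ : ℂ) :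
    UU τ = rr τ ^ 3 * (T2 (nq τ) * T3 (nq τ) * T4 (nq τ)) ^ 4 / 16 - 1 := by
  have h1 : nq τ = cexp (-(Real.pi * τ / 3)) ^ 3 := by
    unfold nq
    rw [← Complex.exp_nat_mul]
    congr 1
    push_cast
    ring
  have h2 := RectMod.E_ne τ
  unfold UU rr
  rw [div_pow, ← h1]
  field_simp

theorem T_cont {F : ℂ → ℂ} (h : DifferentiableOn ℂ F (Metric.ball 0 1)) :
    Tendsto (fun τ => F (nq τ)) cusp (𝓝 (F 0)) := by
  have h1 : ContinuousAt F 0 :=
    (h.differentiableAt (Metric.ball_mem_nhds 0 one_pos)).continuousAt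
  exact h1.tendsto.comp nq_tendsto

theorem UU_tendsto : Tendsto UU cusp (𝓝 0) := by
  have h2 := T_cont T2_diff
  have h3 := T_cont T3_diff
  have h4 := T_cont T4_diff
  have h := (((rr_tendsto.pow 3).mul (((h2.mul h3).mul h4).pow 4)).div_const 16).sub_const 1
  rw [T2_zero, T3_zero, T4_zero] at h
  have h5 : (1 : ℂ) ^ 3 * (2 * 1 * 1) ^ 4 / 16 - 1 = 0 := by norm_num
  rw [h5] at h
  exact h.congr fun τ => (UU_eq τ).symm

theorem UU_zero {τ : ℂ} (h : 0 < τ.re) : UU τ = 0 := by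
  refine RectMod.vanish (u := UU) UU_diff ?_ ?_ ?_ τ h
  · intro τ _
    have : τ + 2 * I = (τ + I) + I := by ring
    rw [this, UU_add_I, UU_add_I]
  · intro τ h
    rw [UU_inv h]
  · intro ε hε
    have h1 : Tendsto (fun τ => ‖UU τ * UU τ * UU τ‖) cusp (𝓝 0) := by
      have := ((UU_tendsto.mul UU_tendsto).mul UU_tendsto).norm
      simpa using this
    have h2 : ∀ᶠ τ : ℂ in cusp, ‖UU τ * UU τ * UU τ‖ < ε := h1.eventually (gt_mem_nhds hε)
    obtain ⟨s, hs, h3⟩ := mem_comap.1 h2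
    obtain ⟨X, hX⟩ := mem_atTop_sets.1 hs
    refine ⟨X, fun τ h4 h5 _ => ?_⟩
    have h6 : τ ∈ {τ : ℂ | ‖UU τ * UU τ * UU τ‖ < ε} := h3 (hX _ h4)
    rw [UU_add_I, UU_add_I, UU_inv h5]
    exact h6

/-- `q (θ₂ θ₃ θ₄)⁴ = 16 η¹²` -/
theorem T_prod {τ : ℂ} (h : 0 < τ.re) :
    nq τ * (T2 (nq τ) * T3 (nq τ) * T4 (nq τ)) ^ 4 = 16 * RectMod.E τ ^ 3 := by
  have h1 := UU_zero h
  have h2 := RectMod.E_ne τ
  unfold UU at h1
  have h3 := sub_eq_zero.1 h1
  rwa [div_eq_iff (mul_ne_zero (by norm_num) (pow_ne_zero _ h2)), one_mul] at h3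

/-- the real function `η(it)⁴` -/
noncomputable def Er (t : ℝ) : ℝ := Real.exp (4 * RectMod.ellR t - Real.pi * t / 3)

theorem Er_pos (t : ℝ) : 0 < Er t := Real.exp_pos _

theorem E_real {t : ℝ} (h : 0 < t) : RectMod.E t = (Er t : ℂ) := RectMod.E_ofReal h

/-- the nome of the rectangle -/
noncomputable def xq (t : ℝ) : ℝ := Real.exp (-(Real.pi * t))

theorem xq_pos (t : ℝ) : 0 < xq t := Real.exp_pos _

theorem xq_lt_one {t : ℝ} (h : 0 < t) : xq t < 1 := by
  unfold xq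
  rw [Real.exp_lt_one_iff]
  have := Real.pi_pos
  nlinarith [mul_pos this h]

theorem nq_real (t : ℝ) : nq t = (xq t : ℂ) := by
  unfold nq xq
  push_cast
  rfl

theorem t_prod {t : ℝ} (h : 0 < t) :
    xq t * (t2 (xq t) * t3 (xq t) * t4 (xq t)) ^ 4 = 16 * Er t ^ 3 := by
  have h1 := T_prod (τ := (t : ℂ)) (by simpa using h)
  rw [nq_real, T2_ofReal, T3_ofReal, T4_ofReal, E_real h] at h1
  exact_mod_cast h1

end RConf
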