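import Pool.Agent.Rect.Mod.Conf.QLambda
import Pool.Agent.Rect.Mod.Theta
import Pool.Agent.Rect.Mod.Vanish

/-!
# `θ₂ θ₃ θ₄ = 2 η³` on the imaginary axis
-/

open Set Filter Topology Complex

namespace RConf

/-- the nome -/
noncomputable def nq (τ : ℂ) : ℂ := cexp (-(Real.pi * τ))

theorem norm_nq (τ : ℂ) : ‖nq τ‖ = Real.exp (-(Real.pi * τ.re)) := by
  unfold nq
  rw [Complex.norm_exp]
  simp

theorem norm_nq_lt {τ : ℂ} (h : 0 < τ.re) : ‖nq τ‖ < 1 := by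
  rw [norm_nq, Real.exp_lt_one_iff]
  have := Real.pi_pos
  nlinarith [mul_pos this h]

theorem natAbs_sq_cast (n : ℤ) : ((n.natAbs ^ 2 : ℕ) : ℂ) = (n : ℂ) ^ 2 := by
  have h : ((n.natAbs ^ 2 : ℕ) : ℤ) = n ^ 2 := by
    push_cast; rw [sq_abs]
  calc ((n.natAbs ^ 2 : ℕ) : ℂ) = (((n.natAbs ^ 2 : ℕ) : ℤ) : ℂ) := (Int.cast_natCast _).symm
    _ = _ := by rw [h]; push_cast; rfl

theorem T3_eq (τ : ℂ) : T3 (nq τ) = jacobiTheta₂ 0 (I * τ) := by
  unfold T3 jacobiTheta₂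
  apply tsum_congr
  intro n
  unfold jacobiTheta₂_term nq
  rw [← Complex.exp_nat_mul, natAbs_sq_cast]
  congr 1
  linear_combination (-(Real.pi : ℂ) * n ^ 2 * τ) * I_sq

theorem T4_eq (τ : ℂ) : T4 (nq τ) = jacobiTheta₂ (1 / 2) (I * τ) := by
  unfold T4 jacobiTheta₂
  apply tsum_congr
  intro n
  unfold jacobiTheta₂_term nq
  have h1 : (-1 : ℂ) ^ n = cexp (n * (Real.pi * I)) := by
    rw [Complex.exp_int_mul, Complex.exp_pi_mul_I]
  rw [← Complex.exp_nat_mul, natAbs_sq_cast, h1, ← Complex.exp_add]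
  congr 1
  linear_combination (-(Real.pi : ℂ) * n ^ 2 * τ) * I_sq

theorem T2_eq (τ : ℂ) : T2 (nq τ) = jacobiTheta₂ (I * τ / 2) (I * τ) := by
  unfold T2 jacobiTheta₂
  apply tsum_congr
  intro n
  unfold jacobiTheta₂_term nq
  have h1 : (((n * (n + 1)).natAbs : ℕ) : ℂ) = (n : ℂ) * (n + 1) := by
    calc (((n * (n + 1)).natAbs : ℕ) : ℂ) = ((((n * (n + 1)).natAbs : ℕ) : ℤ) : ℂ) :=
          (Int.cast_natCast _).symm
      _ = _ := by rw [nat_mul_succ]; push_cast; rfl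
  rw [← Complex.exp_nat_mul, h1]
  congr 1
  linear_combination (-(Real.pi : ℂ) * (n * (n + 1)) * τ) * I_sq

theorem neg_inv_eq {τ : ℂ} (h : τ ≠ 0) : -1 / (I * τ) = I * (1 / τ) := by
  have := I_ne_zero
  field_simp
  linear_combination -I_sq

theorem csqrt4 {τ : ℂ} : ((-I * (I * τ)) ^ (1 / 2 : ℂ)) ^ 4 = τ ^ 2 := by
  have h1 : -I * (I * τ) = τ := by linear_combination (-τ) * I_sq
  have h2 : (τ ^ (1 / 2 : ℂ)) ^ 2 = τ := by
    have := Complex.cpow_nat_inv_pow τ (n := 2) two_ne_zero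
    simpa using this
  rw [h1]
  calc (τ ^ (1 / 2 : ℂ)) ^ 4 = ((τ ^ (1 / 2 : ℂ)) ^ 2) ^ 2 := by ring
    _ = τ ^ 2 := by rw [h2]

theorem T3_inv {τ : ℂ} (h : τ ≠ 0) : τ ^ 2 * T3 (nq τ) ^ 4 = T3 (nq (1 / τ)) ^ 4 := by
  rw [T3_eq, T3_eq, jacobiTheta₂_functional_equation 0 (I * τ), neg_inv_eq h]
  have hs := @csqrt4 τ
  rw [mul_pow, mul_pow, div_pow, hs]
  simp
  field_simp

theorem T4_inv {τ : ℂ} (h : τ ≠ 0) :
    τ ^ 2 * T4 (nq τ) ^ 4 = nq (1 / τ) * T2 (nq (1 / τ)) ^ 4 := by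
  rw [T4_eq, T2_eq, jacobiTheta₂_functional_equation (1 / 2) (I * τ), neg_inv_eq h]
  have hs := @csqrt4 τ
  have e1 : (1 / 2 : ℂ) / (I * τ) = -(I * (1 / τ) / 2) := by
    have := I_ne_zero
    field_simp
    linear_combination I_sq
  rw [e1, jacobiTheta₂_neg_left, mul_pow, mul_pow, div_pow, hs]
  have e2 : cexp (-(Real.pi : ℂ) * I * (1 / 2) ^ 2 / (I * τ)) ^ 4 = nq (1 / τ) := by
    unfold nq
    rw [← Complex.exp_nat_mul]
    congr 1
    have := I_ne_zero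
    push_cast
    field_simp
    ring
  rw [e2]
  field_simp

theorem T2_inv {τ : ℂ} (h : τ ≠ 0) :
    τ ^ 2 * (nq τ * T2 (nq τ) ^ 4) = T4 (nq (1 / τ)) ^ 4 := by
  have h' : (1 / τ) ≠ 0 := one_div_ne_zero h
  have := T4_inv h'
  rw [one_div_one_div] at this
  rw [← this]
  field_simp

theorem nq_add_I (τ : ℂ) : nq (τ + I) = - nq τ := by
  unfold nq
  have : -((Real.pi : ℂ) * (τ + I)) = -(Real.pi * τ) - Real.pi * I := by ring
  rw [this, Complex.exp_sub, Complex.exp_pi_mul_I]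
  ring

theorem T3_neg (q : ℂ) : T3 (-q) = T4 q := by
  unfold T3 T4
  apply tsum_congr
  intro n
  rw [neg_pow]
  congr 1
  rcases Int.even_or_odd n with he | ho
  · rw [he.neg_one_zpow]
    exact Even.neg_one_pow ((Int.natAbs_even.2 he).pow_of_ne_zero two_ne_zero)
  · rw [ho.neg_one_zpow]
    exact Odd.neg_one_pow ((Int.natAbs_odd.2 ho).pow)

theorem T4_neg (q : ℂ) : T4 (-q) = T3 q := by
  rw [← T3_neg, neg_neg]

theorem T2_neg (q : ℂ) : T2 (-q) = T2 q := by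
  unfold T2
  apply tsum_congr
  intro n
  exact Even.neg_pow (Int.natAbs_even.2 (Int.even_mul_succ_self n)) q

/-- `(θ₂θ₃θ₄)⁴/(2η³)⁴ - 1` -/
noncomputable def UU (τ : ℂ) : ℂ :=
  nq τ * (T2 (nq τ) * T3 (nq τ) * T4 (nq τ)) ^ 4 / (16 * RectMod.E τ ^ 3) - 1

theorem UU_add_I (τ : ℂ) : UU (τ + I) = UU τ := by
  unfold UU
  rw [nq_add_I, T3_neg, T4_neg, T2_neg, RectMod.E_add_I]
  have e : cexp (-(Real.pi / 3 * I)) ^ 3 = -1 := by
    rw [← Complex.exp_nat_mul]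
    have : ((3 : ℕ) : ℂ) * (-(Real.pi / 3 * I)) = -(Real.pi * I) := by push_cast; ring
    rw [this, Complex.exp_neg, Complex.exp_pi_mul_I]
    norm_num
  rw [mul_pow (cexp _) (RectMod.E τ) 3, e]
  have := RectMod.E_ne τ
  congr 1
  have h3 : RectMod.E τ ^ 3 ≠ 0 := pow_ne_zero _ this
  rw [div_eq_div_iff (by
    intro h0
    apply h3
    linear_combination (-1 / 16 : ℂ) * h0) (mul_ne_zero (by norm_num) h3)]
  ring

theorem UU_inv {τ : ℂ} (h : 0 < τ.re) : UU (1 / τ) = UU τ := by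
  have hτ : τ ≠ 0 := RectMod.ne_zero_of_re_pos h
  unfold UU
  rw [RectMod.E_inv h]
  have a3 := T3_inv hτ
  have a4 := T4_inv hτ
  have a2 := T2_inv hτ
  have hE := RectMod.E_ne τ
  have e1 : nq (1 / τ) * (T2 (nq (1 / τ)) * T3 (nq (1 / τ)) * T4 (nq (1 / τ))) ^ 4 =
      τ ^ 6 * (nq τ * (T2 (nq τ) * T3 (nq τ) * T4 (nq τ)) ^ 4) := by
    calc nq (1 / τ) * (T2 (nq (1 / τ)) * T3 (nq (1 / τ)) * T4 (nq (1 / τ))) ^ 4
        = (nq (1 / τ) * T2 (nq (1 / τ)) ^ 4) * T3 (nq (1 / τ)) ^ 4 * T4 (nq (1 / τ)) ^ 4 := by ring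
      _ = _ := by rw [← a4, ← a3, ← a2]; ring
  rw [e1]
  congr 1
  field_simp

theorem UU_diff : DifferentiableOn ℂ UU {τ | 0 < τ.re} := by
  have hn : DifferentiableOn ℂ nq {τ | 0 < τ.re} := by
    unfold nq; fun_prop
  have hmap : MapsTo nq {τ | 0 < τ.re} (Metric.ball 0 1) := fun τ h =>
    mem_ball_zero_iff.2 (norm_nq_lt h)
  have d2 := T2_diff.comp hn hmap
  have d3 := T3_diff.comp hn hmap
  have d4 := T4_diff.comp hn hmap
  unfold UU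
  refine DifferentiableOn.sub_const ?_ 1
  refine (hn.mul (((d2.mul d3).mul d4).pow 4)).div ((RectMod.E_diff.pow 3).const_mul 16) ?_
  intro τ _
  exact mul_ne_zero (by norm_num) (pow_ne_zero _ (RectMod.E_ne τ))

end RConf
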