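import Pool.Agent.Rect.Mod.Conf.Elliptic

/-!
# The conformal map of the half-plane onto a rectangle: injectivity, side lengths
-/

open Set Filter Topology MeasureTheory Complex

namespace RConf

/-- the integrand `z^(-1/2) (z-m)^(-1/2) (z-1)^(-1/2)` -/
noncomputable def ff (m : ℝ) (z : ℂ) : ℂ :=
  z ^ (-(1 / 2) : ℂ) * (z - m) ^ (-(1 / 2) : ℂ) * (z - 1) ^ (-(1 / 2) : ℂ)

/-- its modulus on the real line -/
noncomputable def DD (m : ℝ) (s : ℝ) : ℝ :=
  |s| ^ (-(1 / 2) : ℝ) * |s - m| ^ (-(1 / 2) : ℝ) * |s - 1| ^ (-(1 / 2) : ℝ)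

theorem cpow_neg_half {z : ℂ} (h : 0 < z.im) :
    0 < (z ^ (-(1 / 2) : ℂ)).re ∧ (z ^ (-(1 / 2) : ℂ)).im < 0 := by
  have hz : z ≠ 0 := by
    rintro rfl
    simp at h
  have h1 : 0 < z.arg := by
    have := Complex.arg_nonneg_iff.2 h.le
    rcases this.lt_or_eq with h2 | h2
    · exact h2
    · exfalso
      have h3 := (Complex.arg_eq_zero_iff.1 h2.symm).2
      linarith
  have h2 : z.arg ≤ Real.pi := Complex.arg_le_pi z
  have h3 : z.arg < Real.pi := by
    rcases h2.lt_or_eq with h4 | h4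
    · exact h4
    · exfalso
      have h5 := (Complex.arg_eq_pi_iff.1 h4).2
      linarith
  have e : z ^ (-(1 / 2) : ℂ) = cexp (Complex.log z * (-(1 / 2) : ℂ)) := Complex.cpow_def_of_ne_zero hz _
  have him : (Complex.log z * (-(1 / 2) : ℂ)).im = -(z.arg / 2) := by
    have : (-(1 / 2) : ℂ) = ((-(1 / 2) : ℝ) : ℂ) := by push_cast; rfl
    rw [this, Complex.im_mul_ofReal, Complex.log_im]
    ring
  rw [e, Complex.exp_re, Complex.exp_im, him, Real.cos_neg, Real.sin_neg]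
  constructor
  · refine mul_pos (Real.exp_pos _) (Real.cos_pos_of_mem_Ioo ⟨?_, ?_⟩)
    · linarith [Real.pi_pos]
    · linarith
  · have h6 : 0 < Real.sin (z.arg / 2) := Real.sin_pos_of_pos_of_lt_pi (by linarith) (by linarith)
    have h7 := Real.exp_pos (Complex.log z * (-(1 / 2) : ℂ)).re
    nlinarith

theorem sq_cpow {w : ℂ} (h : 0 < w.re) : (w ^ 2) ^ (-(1 / 2) : ℂ) = w⁻¹ := by
  have h2 : (w ^ 2) ^ ((2 : ℂ)⁻¹) = w := Complex.sq_cpow_two_inv h
  rw [Complex.cpow_neg, one_div, h2]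

theorem sq_im {w : ℂ} (h : 0 < w.re) (h' : 0 < w.im) : 0 < (w ^ 2).im := by
  rw [sq, Complex.mul_im]
  have := mul_pos h h'
  linarith

theorem injOn_quadrant {G G' : ℂ → ℂ} (hG : ∀ w : ℂ, 0 < w.re → 0 < w.im → HasDerivAt G (G' w) w)
    (hp : ∀ w : ℂ, 0 < w.re → 0 < w.im → 0 < (G' w).im) :
    ∀ w₁ w₂ : ℂ, 0 < w₁.re → 0 < w₁.im → 0 < w₂.re → 0 < w₂.im → G w₁ = G w₂ → w₁ = w₂ := by
  intro w₁ w₂ a1 a2 b1 b2 he
  by_contra hne
  have hd : w₂ - w₁ ≠ 0 := sub_ne_zero.2 (Ne.symm hne)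
  set p : ℝ → ℂ := fun t => w₁ + (t : ℂ) * (w₂ - w₁) with hp'
  have hre : ∀ t ∈ Icc (0 : ℝ) 1, 0 < (p t).re ∧ 0 < (p t).im := by
    intro t ht
    have e1 : (p t).re = (1 - t) * w₁.re + t * w₂.re := by
      simp only [hp', Complex.add_re, Complex.re_ofReal_mul, Complex.sub_re]
      ring
    have e2 : (p t).im = (1 - t) * w₁.im + t * w₂.im := by
      simp only [hp', Complex.add_im, Complex.im_ofReal_mul, Complex.sub_im]
      ring
    rw [e1, e2]
    rcases ht.1.lt_or_eq with h | h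
    · constructor
      · have := mul_nonneg (sub_nonneg.2 ht.2) a1.le
        have := mul_pos h b1
        linarith
      · have := mul_nonneg (sub_nonneg.2 ht.2) a2.le
        have := mul_pos h b2
        linarith
    · rw [← h]; constructor <;> linarith
  have hder : ∀ t ∈ Icc (0 : ℝ) 1, HasDerivAt (fun t : ℝ => G (p t) / (w₂ - w₁)) (G' (p t)) t := by
    intro t ht
    have h1 : HasDerivAt p (1 * (w₂ - w₁)) t :=
      ((Complex.ofRealCLM.hasDerivAt (x := t)).mul_const _).const_add w₁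
    have h2 := ((hG (p t) (hre t ht).1 (hre t ht).2).comp_of_eq t h1 rfl).div_const (w₂ - w₁)
    refine h2.congr_deriv ?_
    field_simp
  have hder2 : ∀ t ∈ Icc (0 : ℝ) 1,
      HasDerivAt (fun t : ℝ => (G (p t) / (w₂ - w₁)).im) (G' (p t)).im t := fun t ht =>
    (Complex.imCLM.hasFDerivAt.comp_hasDerivAt t (hder t ht))
  have hmono : StrictMonoOn (fun t : ℝ => (G (p t) / (w₂ - w₁)).im) (Icc 0 1) := by
    refine strictMonoOn_of_hasDerivWithinAt_pos (convex_Icc 0 1)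
      (f' := fun t => (G' (p t)).im) ?_ ?_ ?_
    · intro t ht
      exact (hder2 t ht).continuousAt.continuousWithinAt
    · intro t ht
      rw [interior_Icc] at ht
      exact (hder2 t (Ioo_subset_Icc_self ht)).hasDerivWithinAt
    · intro t ht
      rw [interior_Icc] at ht
      exact hp _ (hre t (Ioo_subset_Icc_self ht)).1 (hre t (Ioo_subset_Icc_self ht)).2
  have h3 := hmono (left_mem_Icc.2 zero_le_one) (right_mem_Icc.2 zero_le_one) zero_lt_one
  have e0 : p 0 = w₁ := by simp [hp']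
  have e1 : p 1 = w₂ := by simp [hp']
  simp only [e0, e1, he] at h3
  exact lt_irrefl _ h3

theorem injOn_of_deriv {m : ℝ} {Φ : ℂ → ℂ}
    (hΦ : ∀ z : ℂ, 0 < z.im → HasDerivAt Φ (-(ff m z)) z) : InjOn Φ {z | 0 < z.im} := by
  intro z₁ h₁ z₂ h₂ he
  have key : ∀ z : ℂ, 0 < z.im → ∃ w : ℂ, 0 < w.re ∧ 0 < w.im ∧ w ^ 2 = z := by
    intro z hz
    obtain ⟨a, b⟩ := cpow_neg_half hz
    have hz0 : z ≠ 0 := by
      rintro rfl
      simp at hz
    refine ⟨(z ^ (-(1 / 2) : ℂ))⁻¹, ?_, ?_, ?_⟩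
    · rw [Complex.inv_re]
      refine div_pos a (Complex.normSq_pos.2 ?_)
      intro h0
      rw [h0] at a
      simp at a
    · rw [Complex.inv_im]
      refine div_pos (by linarith) (Complex.normSq_pos.2 ?_)
      intro h0
      rw [h0] at a
      simp at a
    · rw [inv_pow, ← Complex.cpow_nat_mul]
      have : (((2 : ℕ) : ℂ) * (-(1 / 2) : ℂ)) = -1 := by push_cast; ring
      rw [this, Complex.cpow_neg_one, inv_inv]
  obtain ⟨w₁, a1, a2, a3⟩ := key z₁ h₁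
  obtain ⟨w₂, b1, b2, b3⟩ := key z₂ h₂
  have := injOn_quadrant (G := fun w => Φ (w ^ 2))
    (G' := fun w => -2 * ((w ^ 2 - m) ^ (-(1 / 2) : ℂ) * (w ^ 2 - 1) ^ (-(1 / 2) : ℂ))) ?_ ?_
    w₁ w₂ a1 a2 b1 b2 (by simp only [a3, b3]; exact he)
  · rw [← a3, ← b3, this]
  · intro w hr hi
    have h1 := (hΦ (w ^ 2) (sq_im hr hi)).comp w (hasDerivAt_pow 2 w)
    refine h1.congr_deriv ?_
    have hw : w ≠ 0 := by
      rintro rfl
      simp at hr
    unfold ff
    rw [sq_cpow hr]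
    push_cast
    field_simp
  · intro w hr hi
    have h1 := sq_im hr hi
    obtain ⟨c1, c2⟩ := cpow_neg_half (z := w ^ 2 - m) (by simpa using h1)
    obtain ⟨d1, d2⟩ := cpow_neg_half (z := w ^ 2 - 1) (by simpa using h1)
    have e2 : (-2 : ℂ) = ((-2 : ℝ) : ℂ) := by push_cast; rfl
    rw [e2, Complex.im_ofReal_mul, Complex.mul_im]
    have g1 := mul_neg_of_pos_of_neg c1 d2
    have g2 := mul_neg_of_neg_of_pos c2 d1
    linarith

/-! ### side lengths -/

theorem rpow_neg_half {x : ℝ} (h : 0 ≤ x) : x ^ (-(1 / 2) : ℝ) = (√x)⁻¹ := by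
  rw [Real.rpow_neg h, ← Real.sqrt_eq_rpow]

theorem side_A {m : ℝ} (h1 : m < 1) : ∫ s in Ioi (1 : ℝ), DD m s = 2 * Kf m := by
  have hd : ∀ u ∈ Ioi (0 : ℝ), HasDerivWithinAt (fun u : ℝ => 1 + u ^ 2) (2 * u) (Ioi 0) u := by
    intro u _
    have := ((hasDerivAt_pow 2 u).const_add 1).hasDerivWithinAt (s := Ioi 0)
    simpa using this
  have hinj : InjOn (fun u : ℝ => 1 + u ^ 2) (Ioi 0) := by
    intro u hu v hv h
    have : u ^ 2 = v ^ 2 := by simpa using h
    exact (pow_left_inj₀ (le_of_lt hu) (le_of_lt hv) two_ne_zero).1 this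
  have h := integral_image_eq_integral_abs_deriv_smul measurableSet_Ioi hd hinj (DD m)
  have himg : (fun u : ℝ => 1 + u ^ 2) '' Ioi 0 = Ioi 1 := by
    ext x
    constructor
    · rintro ⟨u, hu, rfl⟩
      have : 0 < u ^ 2 := pow_pos hu 2
      simp only [mem_Ioi]
      linarith
    · intro hx
      refine ⟨√(x - 1), Real.sqrt_pos.2 (sub_pos.2 hx), ?_⟩
      simp only
      rw [Real.sq_sqrt (sub_pos.2 hx).le]
      ring
  rw [himg] at h
  rw [h]
  unfold Kf JJ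
  rw [← integral_const_mul]
  refine setIntegral_congr_fun measurableSet_Ioi fun u hu => ?_
  have hu0 : 0 < u := hu
  have hs : √(1 - m) ^ 2 = 1 - m := Real.sq_sqrt (by linarith)
  have p1 : 0 < 1 + u ^ 2 := by positivity
  have p2 : 0 < 1 + u ^ 2 - m := by nlinarith [sq_nonneg u]
  simp only [DD, smul_eq_mul]
  rw [abs_of_pos (show 0 < 2 * u by positivity), abs_of_pos p1, abs_of_pos p2,
    show 1 + u ^ 2 - 1 = u ^ 2 by ring, abs_of_pos (show 0 < u ^ 2 by positivity),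
    rpow_neg_half p1.le, rpow_neg_half p2.le, rpow_neg_half (show 0 ≤ u ^ 2 by positivity),
    Real.sqrt_sq hu0.le, hs, show (u ^ 2 + 1 ^ 2) * (u ^ 2 + (1 - m)) = (1 + u ^ 2) * (1 + u ^ 2 - m) by ring,
    Real.sqrt_mul p1.le]
  have q1 : √(1 + u ^ 2) ≠ 0 := (Real.sqrt_pos.2 p1).ne'
  have q2 : √(1 + u ^ 2 - m) ≠ 0 := (Real.sqrt_pos.2 p2).ne'
  field_simp

theorem side_B {m : ℝ} (h0 : 0 < m) : ∫ s in Iio (0 : ℝ), DD m s = 2 * Kf (1 - m) := by
  have hd : ∀ u ∈ Ioi (0 : ℝ), HasDerivWithinAt (fun u : ℝ => -u ^ 2) (-(2 * u)) (Ioi 0) u := by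
    intro u _
    have := (HasDerivAt.fun_neg (hasDerivAt_pow 2 u)).hasDerivWithinAt (s := Ioi 0)
    simpa using this
  have hinj : InjOn (fun u : ℝ => -u ^ 2) (Ioi 0) := by
    intro u hu v hv h
    have : u ^ 2 = v ^ 2 := by simpa using h
    exact (pow_left_inj₀ (le_of_lt hu) (le_of_lt hv) two_ne_zero).1 this
  have h := integral_image_eq_integral_abs_deriv_smul measurableSet_Ioi hd hinj (DD m)
  have himg : (fun u : ℝ => -u ^ 2) '' Ioi 0 = Iio 0 := by
    ext x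
    constructor
    · rintro ⟨u, hu, rfl⟩
      have : 0 < u ^ 2 := pow_pos hu 2
      simp only [mem_Iio]
      linarith
    · intro hx
      have hx' : 0 < -x := neg_pos.2 hx
      refine ⟨√(-x), Real.sqrt_pos.2 hx', ?_⟩
      simp only
      rw [Real.sq_sqrt hx'.le]
      ring
  rw [himg] at h
  rw [h]
  unfold Kf JJ
  rw [← integral_const_mul]
  refine setIntegral_congr_fun measurableSet_Ioi fun u hu => ?_
  have hu0 : 0 < u := hu
  have hs : √(1 - (1 - m)) ^ 2 = m := by rw [Real.sq_sqrt (by linarith)]; ring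
  have p0 : 0 < u ^ 2 := by positivity
  have p1 : 0 < u ^ 2 + 1 := by positivity
  have p2 : 0 < u ^ 2 + m := by positivity
  simp only [DD, smul_eq_mul]
  rw [abs_neg, abs_of_pos (show 0 < 2 * u by positivity), abs_neg, abs_of_pos p0,
    show -u ^ 2 - m = -(u ^ 2 + m) by ring, show -u ^ 2 - 1 = -(u ^ 2 + 1) by ring, abs_neg, abs_neg,
    abs_of_pos p1, abs_of_pos p2,
    rpow_neg_half p1.le, rpow_neg_half p2.le, rpow_neg_half p0.le,
    Real.sqrt_sq hu0.le, hs, show (u ^ 2 + 1 ^ 2) * (u ^ 2 + m) = (u ^ 2 + 1) * (u ^ 2 + m) by ring,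
    Real.sqrt_mul p1.le]
  have q1 : √(u ^ 2 + 1) ≠ 0 := (Real.sqrt_pos.2 p1).ne'
  have q2 : √(u ^ 2 + m) ≠ 0 := (Real.sqrt_pos.2 p2).ne'
  field_simp

end RConf
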