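import Pool.Agent.Rect.Mod.Conf.Branch

/-!
The primitive `Phi m z = ∫_z^{z + i∞} dv / √(v (v - m) (v - 1))`.
-/

set_option autoImplicit false

open Complex MeasureTheory Set Filter Topology

namespace RConf

lemma norm_ff (m : ℝ) (v : ℂ) : ‖ff m v‖ = ‖v‖ ^ (-(1 / 2) : ℝ) * ‖v - m‖ ^ (-(1 / 2) : ℝ) *
    ‖v - 1‖ ^ (-(1 / 2) : ℝ) := by
  unfold ff
  rw [norm_mul, norm_mul, norm_sq, norm_sq, norm_sq]

lemma le_norm_add {z : ℂ} (hz : 0 ≤ z.im) {t : ℝ} (ht : 0 ≤ t) : t ≤ ‖z + t * I‖ := by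
  have h := Complex.abs_im_le_norm (z + t * I)
  have e : (z + t * I).im = z.im + t := by simp
  rw [e, abs_of_nonneg (by linarith)] at h
  linarith

lemma norm_le_norm_add {z : ℂ} (hz : 0 ≤ z.im) {t : ℝ} (ht : 0 ≤ t) : ‖z‖ ≤ ‖z + t * I‖ := by
  rw [← sq_le_sq₀ (norm_nonneg _) (norm_nonneg _), ← Complex.normSq_eq_norm_sq,
    ← Complex.normSq_eq_norm_sq, Complex.normSq_apply, Complex.normSq_apply]
  have e1 : (z + t * I).im = z.im + t := by simp
  have e2 : (z + t * I).re = z.re := by simp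
  rw [e1, e2]
  nlinarith [mul_nonneg hz ht]

lemma add_im_pos {z : ℂ} (hz : 0 ≤ z.im) {t : ℝ} (ht : 0 < t) : 0 < (z + t * I).im := by
  have e : (z + t * I).im = z.im + t := by simp
  rw [e]; linarith

lemma ne_of_im_pos {v : ℂ} (hv : 0 < v.im) (a : ℝ) : v ≠ a := by
  rintro rfl
  simp at hv

/-- dominating function -/
noncomputable def gg (δ t : ℝ) : ℝ := t ^ (-(1 / 2) : ℝ) * (max t δ)⁻¹

lemma rpow_half_mul {M : ℝ} (hM : 0 < M) : M ^ (-(1 / 2) : ℝ) * M ^ (-(1 / 2) : ℝ) = M⁻¹ := by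
  rw [← Real.rpow_add hM, ← Real.rpow_neg_one]
  norm_num

lemma norm_ff_le {m δ : ℝ} (hδ : 0 < δ) (h0 : 2 * δ ≤ m) (h1 : 2 * δ ≤ 1 - m) {z : ℂ}
    (hz : 0 ≤ z.im) {t : ℝ} (ht : 0 < t) : ‖ff m (z + t * I)‖ ≤ gg δ t := by
  set v := z + t * I with hv
  have p0 : t ≤ ‖v‖ := le_norm_add hz ht.le
  have pm : t ≤ ‖v - m‖ := by
    have := le_norm_add (z := z - m) (by simpa using hz) ht.le
    rwa [show z - m + t * I = v - m by rw [hv]; ring] at this
  have p1 : t ≤ ‖v - 1‖ := by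
    have := le_norm_add (z := z - 1) (by simpa using hz) ht.le
    rwa [show z - 1 + t * I = v - 1 by rw [hv]; ring] at this
  have s0m : 2 * δ ≤ ‖v‖ + ‖v - m‖ := by
    have h : ‖(m : ℂ)‖ ≤ ‖v‖ + ‖v - m‖ := by
      have := norm_sub_le v (v - m)
      rwa [sub_sub_cancel] at this
    rw [norm_real, Real.norm_eq_abs, abs_of_pos (by linarith)] at h
    linarith
  have s01 : 2 * δ ≤ ‖v‖ + ‖v - 1‖ := by
    have h : ‖(1 : ℂ)‖ ≤ ‖v‖ + ‖v - 1‖ := by
      have := norm_sub_le v (v - 1)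
      rwa [sub_sub_cancel] at this
    rw [norm_one] at h
    linarith
  have sm1 : 2 * δ ≤ ‖v - m‖ + ‖v - 1‖ := by
    have h : ‖((1 - m : ℝ) : ℂ)‖ ≤ ‖v - m‖ + ‖v - 1‖ := by
      have := norm_sub_le (v - m) (v - 1)
      rwa [show v - m - (v - 1) = ((1 - m : ℝ) : ℂ) by push_cast; ring] at this
    rw [norm_real, Real.norm_eq_abs, abs_of_pos (by linarith)] at h
    linarith
  set M := max t δ with hM
  have hMp : 0 < M := lt_max_of_lt_left ht
  have key : ∀ d : ℝ, t ≤ d → d ^ (-(1 / 2) : ℝ) ≤ t ^ (-(1 / 2) : ℝ) := fun d hd =>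
    Real.rpow_le_rpow_of_nonpos ht hd (by norm_num)
  have key2 : ∀ d : ℝ, t ≤ d → δ ≤ d → d ^ (-(1 / 2) : ℝ) ≤ M ^ (-(1 / 2) : ℝ) := fun d hd hd2 =>
    Real.rpow_le_rpow_of_nonpos hMp (max_le hd hd2) (by norm_num)
  have n0 : 0 ≤ ‖v‖ ^ (-(1 / 2) : ℝ) := Real.rpow_nonneg (norm_nonneg _) _
  have nm : 0 ≤ ‖v - m‖ ^ (-(1 / 2) : ℝ) := Real.rpow_nonneg (norm_nonneg _) _
  have n1 : 0 ≤ ‖v - 1‖ ^ (-(1 / 2) : ℝ) := Real.rpow_nonneg (norm_nonneg _) _
  have nt : 0 ≤ t ^ (-(1 / 2) : ℝ) := Real.rpow_nonneg ht.le _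
  have nM : 0 ≤ M ^ (-(1 / 2) : ℝ) := Real.rpow_nonneg hMp.le _
  rw [norm_ff]
  unfold gg
  rw [← rpow_half_mul hMp]
  rcases lt_or_ge ‖v‖ δ with c | c
  · have q1 := key _ p0
    have q2 := key2 _ pm (by linarith)
    have q3 := key2 _ p1 (by linarith)
    calc _ ≤ t ^ (-(1 / 2) : ℝ) * M ^ (-(1 / 2) : ℝ) * M ^ (-(1 / 2) : ℝ) := by gcongr
      _ = _ := by ring
  · rcases lt_or_ge ‖v - m‖ δ with c' | c'
    · have q1 := key2 _ p0 c
      have q2 := key _ pm
      have q3 := key2 _ p1 (by linarith)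
      calc _ ≤ M ^ (-(1 / 2) : ℝ) * t ^ (-(1 / 2) : ℝ) * M ^ (-(1 / 2) : ℝ) := by gcongr
        _ = _ := by ring
    · have q1 := key2 _ p0 c
      have q2 := key2 _ pm c'
      have q3 := key _ p1
      calc _ ≤ M ^ (-(1 / 2) : ℝ) * M ^ (-(1 / 2) : ℝ) * t ^ (-(1 / 2) : ℝ) := by gcongr
        _ = _ := by ring

lemma gg_integrable {δ : ℝ} (hδ : 0 < δ) : IntegrableOn (gg δ) (Ioi 0) := by
  have hmeas : Measurable (gg δ) := by
    unfold gg
    fun_prop
  have e : Ioi (0 : ℝ) = Ioc 0 1 ∪ Ioi 1 := (Ioc_union_Ioi_eq_Ioi zero_le_one).symm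
  rw [e]
  apply IntegrableOn.union
  · have h1 : IntegrableOn (fun t : ℝ => t ^ (-(1 / 2) : ℝ) * δ⁻¹) (Ioc 0 1) := by
      have := intervalIntegral.intervalIntegrable_rpow' (a := 0) (b := 1) (r := (-(1 / 2) : ℝ))
        (by norm_num)
      exact ((intervalIntegrable_iff_integrableOn_Ioc_of_le zero_le_one).1 this).mul_const _
    refine h1.mono' hmeas.aestronglyMeasurable ?_
    filter_upwards [ae_restrict_mem measurableSet_Ioc] with t ht
    have ht0 : 0 < t := ht.1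
    have n0 : 0 ≤ t ^ (-(1 / 2) : ℝ) := Real.rpow_nonneg ht0.le _
    unfold gg
    rw [Real.norm_eq_abs, abs_of_nonneg (by positivity)]
    apply mul_le_mul_of_nonneg_left _ n0
    exact inv_anti₀ hδ (le_max_right _ _)
  · have h1 : IntegrableOn (fun t : ℝ => t ^ (-(3 / 2) : ℝ)) (Ioi 1) :=
      integrableOn_Ioi_rpow_of_lt (by norm_num) one_pos
    refine h1.mono' hmeas.aestronglyMeasurable ?_
    filter_upwards [ae_restrict_mem measurableSet_Ioi] with t ht
    have ht0 : (0 : ℝ) < t := one_pos.trans ht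
    have n0 : 0 ≤ t ^ (-(1 / 2) : ℝ) := Real.rpow_nonneg ht0.le _
    unfold gg
    rw [Real.norm_eq_abs, abs_of_nonneg (by positivity)]
    have : t ^ (-(3 / 2) : ℝ) = t ^ (-(1 / 2) : ℝ) * t⁻¹ := by
      rw [← Real.rpow_neg_one, ← Real.rpow_add ht0]
      norm_num
    rw [this]
    apply mul_le_mul_of_nonneg_left _ n0
    exact inv_anti₀ ht0 (le_max_left _ _)

lemma continuous_path (z : ℂ) : Continuous (fun t : ℝ => z + t * I) := by fun_prop

lemma continuousOn_ff_path (m : ℝ) {z : ℂ} (hz : 0 ≤ z.im) :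
    ContinuousOn (fun t : ℝ => ff m (z + t * I)) (Ioi 0) := by
  intro t ht
  have hv := add_im_pos hz ht
  have h := continuousAt_ff m hv.le (by simpa using ne_of_im_pos hv 0) (ne_of_im_pos hv m)
    (by simpa using ne_of_im_pos hv 1)
  exact (ContinuousAt.comp (f := fun t : ℝ => z + t * I) h
    (continuous_path z).continuousAt).continuousWithinAt

lemma continuousAt_ff' (m : ℝ) {v : ℂ} (hv : 0 < v.im) : ContinuousAt (ff' m) v := by
  have n0 : v ≠ 0 := by simpa using ne_of_im_pos hv 0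
  have nm : v ≠ m := ne_of_im_pos hv m
  have n1 : v ≠ 1 := by simpa using ne_of_im_pos hv 1
  have h := continuousAt_ff m hv.le n0 nm n1
  unfold ff'
  apply h.mul
  apply ContinuousAt.mul continuousAt_const
  have a0 : ContinuousAt (fun v : ℂ => v⁻¹) v := continuousAt_inv₀ n0
  have am : ContinuousAt (fun v : ℂ => (v - m)⁻¹) v :=
    ContinuousAt.inv₀ (by fun_prop) (sub_ne_zero.2 nm)
  have a1 : ContinuousAt (fun v : ℂ => (v - 1)⁻¹) v :=
    ContinuousAt.inv₀ (by fun_prop) (sub_ne_zero.2 n1)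
  exact (a0.add am).add a1

lemma continuousOn_ff'_path (m : ℝ) {z : ℂ} (hz : 0 ≤ z.im) :
    ContinuousOn (fun t : ℝ => ff' m (z + t * I)) (Ioi 0) := by
  intro t ht
  exact (ContinuousAt.comp (f := fun t : ℝ => z + t * I) (continuousAt_ff' m (add_im_pos hz ht))
    (continuous_path z).continuousAt).continuousWithinAt

/-- the primitive -/
noncomputable def Phi (m : ℝ) (z : ℂ) : ℂ := I * ∫ t in Ioi (0 : ℝ), ff m (z + t * I)

lemma exists_delta {m : ℝ} (h0 : 0 < m) (h1 : m < 1) :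
    ∃ δ : ℝ, 0 < δ ∧ 2 * δ ≤ m ∧ 2 * δ ≤ 1 - m := by
  refine ⟨min m (1 - m) / 2, by have := lt_min h0 (sub_pos.2 h1); linarith, ?_, ?_⟩
  · have := min_le_left m (1 - m); linarith
  · have := min_le_right m (1 - m); linarith

lemma continuousOn_Phi {m : ℝ} (h0 : 0 < m) (h1 : m < 1) :
    ContinuousOn (Phi m) {z | 0 ≤ z.im} := by
  obtain ⟨δ, hδ, d0, d1⟩ := exists_delta h0 h1
  unfold Phi
  apply ContinuousOn.mul continuousOn_const
  refine continuousOn_of_dominated (bound := gg δ) ?_ ?_ (gg_integrable hδ) ?_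
  · intro z hz
    exact (continuousOn_ff_path m hz).aestronglyMeasurable measurableSet_Ioi
  · intro z hz
    filter_upwards [ae_restrict_mem measurableSet_Ioi] with t ht
    exact norm_ff_le hδ d0 d1 hz ht
  · filter_upwards [ae_restrict_mem measurableSet_Ioi] with t ht
    intro z hz
    have hv := add_im_pos hz ht
    have h := continuousAt_ff m hv.le (by simpa using ne_of_im_pos hv 0) (ne_of_im_pos hv m)
      (by simpa using ne_of_im_pos hv 1)
    exact (ContinuousAt.comp (f := fun z : ℂ => z + t * I) h (by fun_prop)).continuousWithinAt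

lemma tendsto_Phi {m : ℝ} (h0 : 0 < m) (h1 : m < 1) :
    Tendsto (Phi m) (Bornology.cobounded ℂ ⊓ 𝓟 {z | 0 ≤ z.im}) (𝓝 0) := by
  obtain ⟨δ, hδ, d0, d1⟩ := exists_delta h0 h1
  unfold Phi
  rw [show (0 : ℂ) = I * ∫ t in Ioi (0 : ℝ), (0 : ℂ) by simp]
  apply Tendsto.const_mul
  have hF : (Bornology.cobounded ℂ ⊓ 𝓟 {z | 0 ≤ z.im}) =
      (comap norm atTop ⊓ 𝓟 {z : ℂ | 0 ≤ z.im}) := by
    rw [comap_norm_atTop]
  rw [hF]
  refine tendsto_integral_filter_of_dominated_convergence (gg δ) ?_ ?_ (gg_integrable hδ) ?_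
  · refine eventually_inf_principal.2 (Eventually.of_forall fun z hz => ?_)
    exact (continuousOn_ff_path m hz).aestronglyMeasurable measurableSet_Ioi
  · refine eventually_inf_principal.2 (Eventually.of_forall fun z hz => ?_)
    filter_upwards [ae_restrict_mem measurableSet_Ioi] with t ht
    exact norm_ff_le hδ d0 d1 hz ht
  · filter_upwards [ae_restrict_mem measurableSet_Ioi] with t ht
    have ht0 : (0 : ℝ) < t := ht
    rw [tendsto_zero_iff_norm_tendsto_zero]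
    have hlim : Tendsto (fun z : ℂ => ‖z‖ ^ (-(1 / 2) : ℝ) * (t ^ (-(1 / 2) : ℝ) *
        t ^ (-(1 / 2) : ℝ))) (comap norm atTop ⊓ 𝓟 {z : ℂ | 0 ≤ z.im}) (𝓝 0) := by
      rw [show (0 : ℝ) = 0 * (t ^ (-(1 / 2) : ℝ) * t ^ (-(1 / 2) : ℝ)) by ring]
      apply Tendsto.mul_const
      have h1 := tendsto_rpow_neg_atTop (y := 1 / 2) (by norm_num)
      exact (h1.comp tendsto_comap).mono_left inf_le_left
    refine squeeze_zero' (Eventually.of_forall fun _ => norm_nonneg _) ?_ hlim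
    have hpos : ∀ᶠ z : ℂ in comap norm atTop, 0 < ‖z‖ :=
      tendsto_comap.eventually (eventually_gt_atTop 0)
    refine eventually_inf_principal.2 ?_
    filter_upwards [hpos] with z hz0 hz
    rw [norm_ff]
    have p0 := norm_le_norm_add (z := z) hz ht0.le
    have pm : t ≤ ‖z + t * I - m‖ := by
      have := le_norm_add (z := z - m) (by simpa using hz) ht0.le
      rwa [show z - m + t * I = z + t * I - m by ring] at this
    have p1 : t ≤ ‖z + t * I - 1‖ := by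
      have := le_norm_add (z := z - 1) (by simpa using hz) ht0.le
      rwa [show z - 1 + t * I = z + t * I - 1 by ring] at this
    have q0 := Real.rpow_le_rpow_of_nonpos hz0 p0 (z := (-(1 / 2) : ℝ)) (by norm_num)
    have qm := Real.rpow_le_rpow_of_nonpos ht0 pm (z := (-(1 / 2) : ℝ)) (by norm_num)
    have q1 := Real.rpow_le_rpow_of_nonpos ht0 p1 (z := (-(1 / 2) : ℝ)) (by norm_num)
    have n0 : 0 ≤ ‖z‖ ^ (-(1 / 2) : ℝ) := Real.rpow_nonneg (norm_nonneg _) _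
    have nt : 0 ≤ t ^ (-(1 / 2) : ℝ) := Real.rpow_nonneg ht0.le _
    have n1 : 0 ≤ ‖z + t * I - m‖ ^ (-(1 / 2) : ℝ) := Real.rpow_nonneg (norm_nonneg _) _
    have n2 : 0 ≤ ‖z + t * I - 1‖ ^ (-(1 / 2) : ℝ) := Real.rpow_nonneg (norm_nonneg _) _
    rw [mul_assoc]
    gcongr

/-- dominating function of the derivative -/
noncomputable def bb (c t : ℝ) : ℝ := ((c + t) / 2) ^ (-(3 / 2) : ℝ) * (3 / 2 * c⁻¹)

lemma bb_integrable {c : ℝ} (hc : 0 < c) : IntegrableOn (bb c) (Ioi 0) := by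
  have h := integrableOn_add_rpow_Ioi_of_lt (a := (-(3 / 2) : ℝ)) (m := c) (c := 0) (by norm_num)
    (by linarith)
  have h2 := h.mul_const ((2⁻¹ : ℝ) ^ (-(3 / 2) : ℝ) * (3 / 2 * c⁻¹))
  refine IntegrableOn.congr_fun h2 (fun t ht => ?_) measurableSet_Ioi
  have ht0 : (0 : ℝ) < t := ht
  unfold bb
  rw [← mul_assoc, ← Real.mul_rpow (by linarith) (by norm_num)]
  congr 2
  ring

lemma norm_ff'_le {m c : ℝ} (hc : 0 < c) {z : ℂ} (hz : 0 ≤ z.im) (h0 : c ≤ ‖z‖)
    (hm : c ≤ ‖z - m‖) (h1 : c ≤ ‖z - 1‖) {t : ℝ} (ht : 0 < t) :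
    ‖ff' m (z + t * I)‖ ≤ bb c t := by
  have c0 : c ≤ ‖z + t * I‖ := h0.trans (norm_le_norm_add hz ht.le)
  have cm : c ≤ ‖z + t * I - m‖ := by
    have := norm_le_norm_add (z := z - m) (by simpa using hz) ht.le
    rw [show z - m + t * I = z + t * I - m by ring] at this
    exact hm.trans this
  have c1 : c ≤ ‖z + t * I - 1‖ := by
    have := norm_le_norm_add (z := z - 1) (by simpa using hz) ht.le
    rw [show z - 1 + t * I = z + t * I - 1 by ring] at this
    exact h1.trans this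
  have p0 : t ≤ ‖z + t * I‖ := le_norm_add hz ht.le
  have pm : t ≤ ‖z + t * I - m‖ := by
    have := le_norm_add (z := z - m) (by simpa using hz) ht.le
    rwa [show z - m + t * I = z + t * I - m by ring] at this
  have p1 : t ≤ ‖z + t * I - 1‖ := by
    have := le_norm_add (z := z - 1) (by simpa using hz) ht.le
    rwa [show z - 1 + t * I = z + t * I - 1 by ring] at this
  have hM : 0 < (c + t) / 2 := by positivity
  have key : ∀ d : ℝ, t ≤ d → c ≤ d → d ^ (-(1 / 2) : ℝ) ≤ ((c + t) / 2) ^ (-(1 / 2) : ℝ) :=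
    fun d hd hd2 => Real.rpow_le_rpow_of_nonpos hM (by linarith) (by norm_num)
  have q0 := key _ p0 c0
  have qm := key _ pm cm
  have q1 := key _ p1 c1
  have nt : 0 ≤ ((c + t) / 2) ^ (-(1 / 2) : ℝ) := Real.rpow_nonneg hM.le _
  have n0 : 0 ≤ ‖z + t * I‖ ^ (-(1 / 2) : ℝ) := Real.rpow_nonneg (norm_nonneg _) _
  have n1 : 0 ≤ ‖z + t * I - m‖ ^ (-(1 / 2) : ℝ) := Real.rpow_nonneg (norm_nonneg _) _
  have n2 : 0 ≤ ‖z + t * I - 1‖ ^ (-(1 / 2) : ℝ) := Real.rpow_nonneg (norm_nonneg _) _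
  have e3 : ((c + t) / 2) ^ (-(3 / 2) : ℝ) = ((c + t) / 2) ^ (-(1 / 2) : ℝ) *
      ((c + t) / 2) ^ (-(1 / 2) : ℝ) * ((c + t) / 2) ^ (-(1 / 2) : ℝ) := by
    rw [← Real.rpow_add hM, ← Real.rpow_add hM]
    norm_num
  unfold ff' bb
  rw [norm_mul, norm_ff, e3]
  have hA : ‖-(1 / 2) * ((z + t * I)⁻¹ + (z + t * I - m)⁻¹ + (z + t * I - 1)⁻¹)‖ ≤
      3 / 2 * c⁻¹ := by
    rw [norm_mul]
    have i0 : ‖(z + t * I)⁻¹‖ ≤ c⁻¹ := by rw [norm_inv]; exact inv_anti₀ hc c0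
    have im : ‖(z + t * I - m)⁻¹‖ ≤ c⁻¹ := by rw [norm_inv]; exact inv_anti₀ hc cm
    have i1 : ‖(z + t * I - 1)⁻¹‖ ≤ c⁻¹ := by rw [norm_inv]; exact inv_anti₀ hc c1
    have h2 : ‖(-(1 / 2) : ℂ)‖ = 1 / 2 := by rw [norm_neg]; norm_num
    rw [h2]
    have := (norm_add₃_le (a := (z + t * I)⁻¹) (b := (z + t * I - m)⁻¹)
      (c := (z + t * I - 1)⁻¹))
    linarith
  apply mul_le_mul _ hA (norm_nonneg _) (by positivity)
  gcongr

lemma tendsto_ff_path {m : ℝ} {z : ℂ} (hz : 0 ≤ z.im) :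
    Tendsto (fun t : ℝ => ff m (z + t * I)) atTop (𝓝 0) := by
  rw [tendsto_zero_iff_norm_tendsto_zero]
  have hlim : Tendsto (fun t : ℝ => t ^ (-(3 / 2) : ℝ)) atTop (𝓝 0) :=
    tendsto_rpow_neg_atTop (y := 3 / 2) (by norm_num)
  refine squeeze_zero' (Eventually.of_forall fun _ => norm_nonneg _) ?_ hlim
  filter_upwards [eventually_gt_atTop 0] with t ht0
  rw [norm_ff]
  have p0 : t ≤ ‖z + t * I‖ := le_norm_add hz ht0.le
  have pm : t ≤ ‖z + t * I - m‖ := by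
    have := le_norm_add (z := z - m) (by simpa using hz) ht0.le
    rwa [show z - m + t * I = z + t * I - m by ring] at this
  have p1 : t ≤ ‖z + t * I - 1‖ := by
    have := le_norm_add (z := z - 1) (by simpa using hz) ht0.le
    rwa [show z - 1 + t * I = z + t * I - 1 by ring] at this
  have q0 := Real.rpow_le_rpow_of_nonpos ht0 p0 (z := (-(1 / 2) : ℝ)) (by norm_num)
  have qm := Real.rpow_le_rpow_of_nonpos ht0 pm (z := (-(1 / 2) : ℝ)) (by norm_num)
  have q1 := Real.rpow_le_rpow_of_nonpos ht0 p1 (z := (-(1 / 2) : ℝ)) (by norm_num)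
  have nt : 0 ≤ t ^ (-(1 / 2) : ℝ) := Real.rpow_nonneg ht0.le _
  have n1 : 0 ≤ ‖z + t * I - m‖ ^ (-(1 / 2) : ℝ) := Real.rpow_nonneg (norm_nonneg _) _
  have n2 : 0 ≤ ‖z + t * I - 1‖ ^ (-(1 / 2) : ℝ) := Real.rpow_nonneg (norm_nonneg _) _
  have e3 : t ^ (-(3 / 2) : ℝ) = t ^ (-(1 / 2) : ℝ) * t ^ (-(1 / 2) : ℝ) * t ^ (-(1 / 2) : ℝ) := by
    rw [← Real.rpow_add ht0, ← Real.rpow_add ht0]
    norm_num
  rw [e3]
  gcongr

lemma integral_ff' {m : ℝ} {z : ℂ} (hz : 0 ≤ z.im) (n0 : z ≠ 0) (nm : z ≠ m) (n1 : z ≠ 1)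
    (hint : IntegrableOn (fun t : ℝ => ff' m (z + t * I)) (Ioi 0)) :
    I * ∫ t in Ioi (0 : ℝ), ff' m (z + t * I) = -ff m z := by
  have hc : ContinuousWithinAt (fun t : ℝ => ff m (z + t * I)) (Ici 0) 0 := by
    have e : z + ((0 : ℝ) : ℂ) * I = z := by simp
    have h : ContinuousAt (ff m) (z + ((0 : ℝ) : ℂ) * I) := by
      rw [e]
      exact continuousAt_ff m hz n0 nm n1
    exact (ContinuousAt.comp (f := fun t : ℝ => z + t * I) h
      (continuous_path z).continuousAt).continuousWithinAt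
  have hd : ∀ t ∈ Ioi (0 : ℝ), HasDerivAt (fun t : ℝ => ff m (z + t * I))
      (I * ff' m (z + t * I)) t := by
    intro t ht
    have h1 := hasDerivAt_ff m (add_im_pos hz ht)
    have h2 : HasDerivAt (fun t : ℝ => z + (t : ℂ) * I) I t := by
      have := ((hasDerivAt_id t).ofReal_comp.mul_const I).const_add z
      simpa using this
    have h3 := HasDerivAt.comp t h1 h2
    rw [mul_comm] at h3
    exact h3
  have key := integral_Ioi_of_hasDerivAt_of_tendsto hc hd (hint.const_mul I) (tendsto_ff_path hz)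
  rw [integral_const_mul] at key
  rw [key]
  simp

lemma integrable_ff_path {m : ℝ} (h0 : 0 < m) (h1 : m < 1) {z : ℂ} (hz : 0 ≤ z.im) :
    IntegrableOn (fun t : ℝ => ff m (z + t * I)) (Ioi 0) := by
  obtain ⟨δ, hδ, d0, d1⟩ := exists_delta h0 h1
  refine (gg_integrable hδ).mono' ((continuousOn_ff_path m hz).aestronglyMeasurable
    measurableSet_Ioi) ?_
  filter_upwards [ae_restrict_mem measurableSet_Ioi] with t ht
  exact norm_ff_le hδ d0 d1 hz ht

lemma hasDerivAt_Phi {m : ℝ} (h0 : 0 < m) (h1 : m < 1) {z₀ : ℂ} (hz₀ : 0 < z₀.im) :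
    HasDerivAt (Phi m) (-ff m z₀) z₀ := by
  set c := z₀.im / 2 with hc
  have hc0 : 0 < c := by positivity
  have him : ∀ z ∈ Metric.ball z₀ c, c ≤ z.im := by
    intro z hz
    rw [Metric.mem_ball, dist_eq_norm] at hz
    have := (Complex.abs_im_le_norm (z - z₀)).trans hz.le
    rw [sub_im, abs_le] at this
    have h3 := this.1
    linarith
  have hnorm : ∀ z : ℂ, c ≤ z.im → ∀ a : ℝ, c ≤ ‖z - a‖ := by
    intro z hz a
    have := (Complex.abs_im_le_norm (z - a))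
    rw [sub_im, ofReal_im, sub_zero] at this
    exact (hz.trans (le_abs_self _)).trans this
  have key := hasDerivAt_integral_of_dominated_loc_of_deriv_le
    (μ := volume.restrict (Ioi (0 : ℝ))) (x₀ := z₀)
    (F := fun z t => ff m (z + t * I)) (F' := fun z t => ff' m (z + t * I)) (bound := bb c)
    (s := Metric.ball z₀ c) (Metric.ball_mem_nhds z₀ hc0) ?_ ?_ ?_ ?_ (bb_integrable hc0) ?_
  · have h2 := key.2.const_mul I
    rw [integral_ff' hz₀.le (by simpa using ne_of_im_pos hz₀ 0) (ne_of_im_pos hz₀ m)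
      (by simpa using ne_of_im_pos hz₀ 1) key.1] at h2
    exact h2
  · filter_upwards [Metric.ball_mem_nhds z₀ hc0] with z hz
    exact (continuousOn_ff_path m (hc0.le.trans (him z hz))).aestronglyMeasurable measurableSet_Ioi
  · exact integrable_ff_path h0 h1 hz₀.le
  · exact (continuousOn_ff'_path m hz₀.le).aestronglyMeasurable measurableSet_Ioi
  · filter_upwards [ae_restrict_mem measurableSet_Ioi] with t ht z hz
    have h3 := him z hz
    exact norm_ff'_le hc0 (hc0.le.trans h3) (by simpa using hnorm z h3 0) (hnorm z h3 m)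
      (by simpa using hnorm z h3 1) ht
  · filter_upwards [ae_restrict_mem measurableSet_Ioi] with t ht z hz
    have h3 := him z hz
    exact HasDerivAt.comp_add_const z (t * I) (hasDerivAt_ff m (add_im_pos (hc0.le.trans h3) ht))

lemma hasDerivAt_Phi_real {m : ℝ} (h0 : 0 < m) (h1 : m < 1) {x₀ : ℝ} (n0 : x₀ ≠ 0)
    (nm : x₀ ≠ m) (n1 : x₀ ≠ 1) :
    HasDerivAt (fun x : ℝ => Phi m x) (-ff m x₀) x₀ := by
  have a0 : 0 < |x₀| := abs_pos.2 n0
  have am : 0 < |x₀ - m| := abs_pos.2 (sub_ne_zero.2 nm)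
  have a1 : 0 < |x₀ - 1| := abs_pos.2 (sub_ne_zero.2 n1)
  obtain ⟨c, hc0, b0, bm, b1⟩ : ∃ c : ℝ, 0 < c ∧ 2 * c ≤ |x₀| ∧ 2 * c ≤ |x₀ - m| ∧
      2 * c ≤ |x₀ - 1| := by
    refine ⟨min |x₀| (min |x₀ - m| |x₀ - 1|) / 2, by
      have := lt_min a0 (lt_min am a1); linarith, ?_, ?_, ?_⟩
    · have := min_le_left |x₀| (min |x₀ - m| |x₀ - 1|); linarith
    · have := min_le_right |x₀| (min |x₀ - m| |x₀ - 1|)
      have := min_le_left |x₀ - m| |x₀ - 1|; linarith
    · have := min_le_right |x₀| (min |x₀ - m| |x₀ - 1|)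
      have := min_le_right |x₀ - m| |x₀ - 1|; linarith
  have hnorm : ∀ x ∈ Metric.ball x₀ c, ∀ a : ℝ, 2 * c ≤ |x₀ - a| → c ≤ ‖(x : ℂ) - a‖ := by
    intro x hx a ha
    rw [Metric.mem_ball, Real.dist_eq] at hx
    rw [← ofReal_sub, norm_real, Real.norm_eq_abs]
    have h3 : |x₀ - a| ≤ |x - x₀| + |x - a| := by
      have : x₀ - a = -(x - x₀) + (x - a) := by ring
      rw [this]
      refine (abs_add_le _ _).trans ?_
      rw [abs_neg]
    linarith
  have him : ∀ x : ℝ, 0 ≤ ((x : ℂ)).im := fun x => by simp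
  have key := hasDerivAt_integral_of_dominated_loc_of_deriv_le
    (μ := volume.restrict (Ioi (0 : ℝ))) (x₀ := x₀)
    (F := fun (x : ℝ) (t : ℝ) => ff m ((x : ℂ) + t * I))
    (F' := fun (x : ℝ) (t : ℝ) => ff' m ((x : ℂ) + t * I)) (bound := bb c)
    (s := Metric.ball x₀ c) (Metric.ball_mem_nhds x₀ hc0) ?_ ?_ ?_ ?_ (bb_integrable hc0) ?_
  · have h2 := key.2.const_mul I
    rw [integral_ff' (him x₀) (ofReal_ne_zero.2 n0) (by exact_mod_cast nm)
      (by exact_mod_cast n1) key.1] at h2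
    exact h2
  · filter_upwards with x
    exact (continuousOn_ff_path m (him x)).aestronglyMeasurable measurableSet_Ioi
  · exact integrable_ff_path h0 h1 (him x₀)
  · exact (continuousOn_ff'_path m (him x₀)).aestronglyMeasurable measurableSet_Ioi
  · filter_upwards [ae_restrict_mem measurableSet_Ioi] with t ht x hx
    exact norm_ff'_le hc0 (him x) (by simpa using hnorm x hx 0 (by simpa using b0))
      (hnorm x hx m bm) (by simpa using hnorm x hx 1 b1) ht
  · filter_upwards [ae_restrict_mem measurableSet_Ioi] with t ht x hx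
    have h3 := HasDerivAt.comp_add_const (x : ℂ) (t * I)
      (hasDerivAt_ff m (add_im_pos (him x) ht))
    exact h3.comp_ofReal

end RConf
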