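import Pool.Agent.Rect.Mod.Conf.QTheta
import Pool.Agent.Rect.Mod.Conf.Elliptic

/-!
# The modular function `lam` on the real nome, its derivative, and `K(1-m)/K(m)`
-/

open Set Filter Topology

namespace RConf

theorem T3_diff : DifferentiableOn ℂ T3 (Metric.ball 0 1) := by
  intro q hq
  rw [mem_ball_zero_iff] at hq
  obtain ⟨r, hr1, hr2⟩ := exists_between hq
  have h0 : 0 ≤ r := (norm_nonneg _).trans hr1.le
  have h := Complex.differentiableOn_tsum_of_summable_norm (u := fun n : ℤ => r ^ (n.natAbs ^ 2))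
    (F := fun (n : ℤ) (w : ℂ) => w ^ (n.natAbs ^ 2)) (U := Metric.ball 0 r) (summable_r3 h0 hr2)
    (fun n => (differentiable_pow _).differentiableOn) Metric.isOpen_ball (fun n w hw => by
      rw [norm_pow]
      exact pow_le_pow_left₀ (norm_nonneg _) (mem_ball_zero_iff.1 hw).le _)
  exact ((h q (mem_ball_zero_iff.2 hr1)).differentiableAt
    (Metric.isOpen_ball.mem_nhds (mem_ball_zero_iff.2 hr1))).differentiableWithinAt

theorem T4_diff : DifferentiableOn ℂ T4 (Metric.ball 0 1) := by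
  intro q hq
  rw [mem_ball_zero_iff] at hq
  obtain ⟨r, hr1, hr2⟩ := exists_between hq
  have h0 : 0 ≤ r := (norm_nonneg _).trans hr1.le
  have h := Complex.differentiableOn_tsum_of_summable_norm (u := fun n : ℤ => r ^ (n.natAbs ^ 2))
    (F := fun (n : ℤ) (w : ℂ) => (-1 : ℂ) ^ n * w ^ (n.natAbs ^ 2)) (U := Metric.ball 0 r)
    (summable_r3 h0 hr2)
    (fun n => ((differentiable_pow _).const_mul _).differentiableOn) Metric.isOpen_ball
    (fun n w hw => by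
      rw [norm_t4]
      exact pow_le_pow_left₀ (norm_nonneg _) (mem_ball_zero_iff.1 hw).le _)
  exact ((h q (mem_ball_zero_iff.2 hr1)).differentiableAt
    (Metric.isOpen_ball.mem_nhds (mem_ball_zero_iff.2 hr1))).differentiableWithinAt

theorem T2_diff : DifferentiableOn ℂ T2 (Metric.ball 0 1) := by
  intro q hq
  rw [mem_ball_zero_iff] at hq
  obtain ⟨r, hr1, hr2⟩ := exists_between hq
  have h0 : 0 ≤ r := (norm_nonneg _).trans hr1.le
  have h := Complex.differentiableOn_tsum_of_summable_norm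
    (u := fun n : ℤ => r ^ ((n * (n + 1)).natAbs))
    (F := fun (n : ℤ) (w : ℂ) => w ^ ((n * (n + 1)).natAbs)) (U := Metric.ball 0 r)
    (summable_r2 h0 hr2)
    (fun n => (differentiable_pow _).differentiableOn) Metric.isOpen_ball (fun n w hw => by
      rw [norm_pow]
      exact pow_le_pow_left₀ (norm_nonneg _) (mem_ball_zero_iff.1 hw).le _)
  exact ((h q (mem_ball_zero_iff.2 hr1)).differentiableAt
    (Metric.isOpen_ball.mem_nhds (mem_ball_zero_iff.2 hr1))).differentiableWithinAt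

theorem T3_zero : T3 0 = 1 := by
  unfold T3
  rw [tsum_eq_single 0]
  · simp
  · intro n hn
    have : n.natAbs ^ 2 ≠ 0 := by simpa using hn
    exact zero_pow this

theorem T4_zero : T4 0 = 1 := by
  unfold T4
  rw [tsum_eq_single 0]
  · simp
  · intro n hn
    have : n.natAbs ^ 2 ≠ 0 := by simpa using hn
    rw [zero_pow this, mul_zero]

theorem T2_zero : T2 0 = 2 := by
  unfold T2
  rw [tsum_eq_sum (s := {0, -1})]
  · rw [Finset.sum_pair (by norm_num)]; norm_num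
  · intro n hn
    simp only [Finset.mem_insert, Finset.mem_singleton, not_or] at hn
    have : (n * (n + 1)).natAbs ≠ 0 := by
      rw [Int.natAbs_ne_zero]
      apply mul_ne_zero hn.1
      intro h; apply hn.2; omega
    simp [this]

/-- real version -/
noncomputable def t3 (x : ℝ) : ℝ := ∑' n : ℤ, x ^ (n.natAbs ^ 2)

/-- real version -/
noncomputable def t4 (x : ℝ) : ℝ := ∑' n : ℤ, (-1 : ℝ) ^ n * x ^ (n.natAbs ^ 2)

/-- real version -/
noncomputable def t2 (x : ℝ) : ℝ := ∑' n : ℤ, x ^ ((n * (n + 1)).natAbs)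

theorem T3_ofReal (x : ℝ) : T3 (x : ℂ) = (t3 x : ℂ) := by
  unfold T3 t3; push_cast; rfl

theorem T4_ofReal (x : ℝ) : T4 (x : ℂ) = (t4 x : ℂ) := by
  unfold T4 t4; push_cast; rfl

theorem T2_ofReal (x : ℝ) : T2 (x : ℂ) = (t2 x : ℂ) := by
  unfold T2 t2; push_cast; rfl

theorem nlt {x : ℝ} (h0 : 0 ≤ x) (h1 : x < 1) : ‖(x : ℂ)‖ < 1 := by
  rw [Complex.norm_real, Real.norm_eq_abs, abs_of_nonneg h0]; exact h1

theorem dup1r {x : ℝ} (h0 : 0 ≤ x) (h1 : x < 1) : t3 x ^ 2 + t4 x ^ 2 = 2 * t3 (x ^ 2) ^ 2 := by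
  have h := dup1 (nlt h0 h1)
  rw [← Complex.ofReal_pow, T3_ofReal, T4_ofReal, T3_ofReal] at h
  exact_mod_cast h

theorem dup2r {x : ℝ} (h0 : 0 ≤ x) (h1 : x < 1) : t3 x * t4 x = t4 (x ^ 2) ^ 2 := by
  have h := dup2 (nlt h0 h1)
  rw [← Complex.ofReal_pow, T3_ofReal, T4_ofReal, T4_ofReal] at h
  exact_mod_cast h

theorem dup3r {x : ℝ} (h0 : 0 ≤ x) (h1 : x < 1) : t3 x ^ 2 - t4 x ^ 2 = 2 * x * t2 (x ^ 2) ^ 2 := by
  have h := dup3 (nlt h0 h1)
  rw [← Complex.ofReal_pow, T3_ofReal, T4_ofReal, T2_ofReal] at h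
  exact_mod_cast h

theorem t3_pos {x : ℝ} (h0 : 0 ≤ x) (h1 : x < 1) : 0 < t3 x := by
  have h : (1 : ℝ) ≤ t3 x := by
    have := (summable_r3 h0 h1).le_tsum 0 (fun n _ => by positivity)
    unfold t3
    simpa using this
  linarith

theorem t2_pos {x : ℝ} (h0 : 0 ≤ x) (h1 : x < 1) : 0 < t2 x := by
  have h : (1 : ℝ) ≤ t2 x := by
    have := (summable_r2 h0 h1).le_tsum 0 (fun n _ => by positivity)
    unfold t2
    simpa using this
  linarith

theorem cont_at_zero {F : ℂ → ℂ} {f : ℝ → ℝ} (hF : DifferentiableOn ℂ F (Metric.ball 0 1))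
    (hf : ∀ x : ℝ, F x = (f x : ℂ)) : ContinuousAt f 0 := by
  have h1 : ContinuousAt F ((0 : ℝ) : ℂ) := by
    have : ((0 : ℝ) : ℂ) ∈ Metric.ball (0 : ℂ) 1 := by simp
    exact ((hF _ this).differentiableAt (Metric.isOpen_ball.mem_nhds this)).continuousAt
  have h2 : ContinuousAt (fun x : ℝ => (F (x : ℂ)).re) 0 :=
    Complex.continuous_re.continuousAt.comp (h1.comp Complex.continuous_ofReal.continuousAt)
  have h3 : (fun x : ℝ => (F (x : ℂ)).re) = f := by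
    ext x; rw [hf]; simp
  rwa [h3] at h2

theorem t4_zero : t4 0 = 1 := by
  have h := T4_ofReal 0
  rw [Complex.ofReal_zero, T4_zero] at h
  exact_mod_cast h.symm

theorem t3_zero : t3 0 = 1 := by
  have h := T3_ofReal 0
  rw [Complex.ofReal_zero, T3_zero] at h
  exact_mod_cast h.symm

theorem t2_zero : t2 0 = 2 := by
  have h := T2_ofReal 0
  rw [Complex.ofReal_zero, T2_zero] at h
  exact_mod_cast h.symm

theorem iter_tendsto {x : ℝ} (h0 : 0 ≤ x) (h1 : x < 1) :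
    Tendsto (fun n : ℕ => x ^ (2 ^ n)) atTop (𝓝 0) :=
  (tendsto_pow_atTop_nhds_zero_of_lt_one h0 h1).comp
    (tendsto_pow_atTop_atTop_of_one_lt (by norm_num : (1 : ℕ) < 2))

theorem iter_lt {x : ℝ} (h0 : 0 ≤ x) (h1 : x < 1) (n : ℕ) : x ^ (2 ^ n) < 1 :=
  pow_lt_one₀ h0 h1 (by positivity)

theorem t4_pos {x : ℝ} (h0 : 0 ≤ x) (h1 : x < 1) : 0 < t4 x := by
  have hnn : ∀ y : ℝ, 0 ≤ y → y < 1 → 0 ≤ t4 y := by
    intro y hy0 hy1
    have h := dup2r hy0 hy1
    have h3 := t3_pos hy0 hy1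
    by_contra hneg
    push Not at hneg
    have : t3 y * t4 y < 0 := mul_neg_of_pos_of_neg h3 hneg
    nlinarith [sq_nonneg (t4 (y ^ 2))]
  rcases (hnn x h0 h1).eq_or_lt with heq | h
  · exfalso
    have hall : ∀ n : ℕ, t4 (x ^ (2 ^ n)) = 0 := by
      intro n
      induction n with
      | zero => simpa using heq.symm
      | succ n ih =>
        have h := dup2r (pow_nonneg h0 (2 ^ n)) (iter_lt h0 h1 n)
        rw [ih, mul_zero, ← pow_mul, ← pow_succ] at h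
        exact pow_eq_zero_iff (two_ne_zero) |>.1 h.symm
    have hc := (cont_at_zero T4_diff T4_ofReal).tendsto.comp (iter_tendsto h0 h1)
    have : (t4 ∘ fun n : ℕ => x ^ (2 ^ n)) = fun _ => 0 := by
      ext n; exact hall n
    rw [this, t4_zero] at hc
    exact zero_ne_one (tendsto_nhds_unique tendsto_const_nhds hc)
  · exact h

/-- Jacobi's identity -/
theorem jacobi {x : ℝ} (h0 : 0 ≤ x) (h1 : x < 1) : t3 x ^ 4 - t4 x ^ 4 = x * t2 x ^ 4 := by
  have hs0 : 0 ≤ √x := Real.sqrt_nonneg x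
  have hs1 : √x < 1 := by rw [Real.sqrt_lt' one_pos]; simpa using h1
  have hsq : √x ^ 2 = x := Real.sq_sqrt h0
  have d1 := dup1r hs0 hs1
  have d2 := dup2r hs0 hs1
  have d3 := dup3r hs0 hs1
  rw [hsq] at d1 d2 d3
  have e1 : t3 x ^ 2 = (t3 (√x) ^ 2 + t4 (√x) ^ 2) / 2 := by linarith
  have e3 : √x * t2 x ^ 2 = (t3 (√x) ^ 2 - t4 (√x) ^ 2) / 2 := by linarith
  have e4 : x * t2 x ^ 4 = (√x * t2 x ^ 2) ^ 2 := by
    rw [mul_pow, hsq]; ring
  have e5 : t3 x ^ 4 = (t3 x ^ 2) ^ 2 := by ring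
  have e6 : t4 x ^ 4 = (t4 x ^ 2) ^ 2 := by ring
  rw [e4, e5, e6, e3, e1, ← d2]
  ring

/-- `λ` as a function of the nome -/
noncomputable def lam (x : ℝ) : ℝ := x * t2 x ^ 4 / t3 x ^ 4

/-- `k' = √(1-λ)` -/
noncomputable def ks (x : ℝ) : ℝ := t4 x ^ 2 / t3 x ^ 2

theorem ks_pos {x : ℝ} (h0 : 0 ≤ x) (h1 : x < 1) : 0 < ks x := by
  have := t3_pos h0 h1
  have := t4_pos h0 h1
  unfold ks; positivity

theorem one_sub_lam {x : ℝ} (h0 : 0 ≤ x) (h1 : x < 1) : 1 - lam x = ks x ^ 2 := by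
  have h3 := (t3_pos h0 h1).ne'
  have hj := jacobi h0 h1
  unfold lam ks
  field_simp
  linarith

theorem lam_eq {x : ℝ} (h0 : 0 ≤ x) (h1 : x < 1) : lam x = 1 - ks x ^ 2 := by
  have := one_sub_lam h0 h1; linarith

theorem lam_pos {x : ℝ} (h0 : 0 < x) (h1 : x < 1) : 0 < lam x := by
  have := t3_pos h0.le h1
  have := t2_pos h0.le h1
  unfold lam; positivity

theorem lam_lt_one {x : ℝ} (h0 : 0 ≤ x) (h1 : x < 1) : lam x < 1 := by
  have := one_sub_lam h0 h1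
  have := ks_pos h0 h1
  nlinarith

theorem ks_lt_one {x : ℝ} (h0 : 0 < x) (h1 : x < 1) : ks x < 1 := by
  have h := one_sub_lam h0.le h1
  have := lam_pos h0 h1
  have := ks_pos h0.le h1
  by_contra hc
  push Not at hc
  nlinarith

theorem sqlt {x : ℝ} (h0 : 0 ≤ x) (h1 : x < 1) : x ^ 2 < 1 := pow_lt_one₀ h0 h1 two_ne_zero

theorem lam_sq {x : ℝ} (h0 : 0 ≤ x) (h1 : x < 1) :
    lam (x ^ 2) = ((1 - ks x) / (1 + ks x)) ^ 2 := by
  have h3 := (t3_pos h0 h1)
  have h4 := (t4_pos h0 h1)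
  have h3' := (t3_pos (sq_nonneg x) (sqlt h0 h1))
  have d1 := dup1r h0 h1
  have d3 := dup3r h0 h1
  have e1 : x ^ 2 * t2 (x ^ 2) ^ 4 = ((t3 x ^ 2 - t4 x ^ 2) / 2) ^ 2 := by
    rw [d3]; ring
  have e2 : t3 (x ^ 2) ^ 4 = ((t3 x ^ 2 + t4 x ^ 2) / 2) ^ 2 := by
    rw [d1]; ring
  unfold lam ks
  rw [e1, e2]
  field_simp

theorem RR_lam_sq {x : ℝ} (h0 : 0 < x) (h1 : x < 1) : RR (lam (x ^ 2)) = 2 * RR (lam x) := by
  rw [lam_sq h0.le h1, RR_landen (ks_pos h0.le h1) (ks_lt_one h0 h1), ← lam_eq h0.le h1]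

end RConf
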