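import Mathlib

/-!
# Theta constants as functions of the nome `q`, doubling formulas
-/

open Set Filter Topology

namespace RConf

/-- `∑ q^(n²)` -/
noncomputable def T3 (q : ℂ) : ℂ := ∑' n : ℤ, q ^ (n.natAbs ^ 2)

/-- `∑ (-1)^n q^(n²)` -/
noncomputable def T4 (q : ℂ) : ℂ := ∑' n : ℤ, (-1 : ℂ) ^ n * q ^ (n.natAbs ^ 2)

/-- `∑ q^(n²+n)` -/
noncomputable def T2 (q : ℂ) : ℂ := ∑' n : ℤ, q ^ ((n * (n + 1)).natAbs)

theorem summable_pow_natAbs {r : ℝ} (h0 : 0 ≤ r) (h1 : r < 1) :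
    Summable fun n : ℤ => r ^ n.natAbs := by
  rw [summable_int_iff_summable_nat_and_neg]
  constructor
  · simpa using summable_geometric_of_lt_one h0 h1
  · simpa using summable_geometric_of_lt_one h0 h1

theorem natAbs_le_sq (n : ℤ) : n.natAbs ≤ n.natAbs ^ 2 := by
  rcases Nat.eq_zero_or_pos n.natAbs with h | h
  · rw [h]; norm_num
  · nlinarith

theorem natAbs_le_mul (n : ℤ) : n.natAbs ≤ (n * (n + 1)).natAbs + 1 := by
  rw [Int.natAbs_mul]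
  rcases Nat.eq_zero_or_pos (n + 1).natAbs with h | h
  · have : n = -1 := by omega
    subst this; norm_num
  · have : n.natAbs * 1 ≤ n.natAbs * (n + 1).natAbs := Nat.mul_le_mul_left _ h
    omega

theorem summable_r3 {r : ℝ} (h0 : 0 ≤ r) (h1 : r < 1) :
    Summable fun n : ℤ => r ^ (n.natAbs ^ 2) :=
  (summable_pow_natAbs h0 h1).of_nonneg_of_le (fun n => by positivity)
    (fun n => pow_le_pow_of_le_one h0 h1.le (natAbs_le_sq n))

theorem summable_r2 {r : ℝ} (h0 : 0 ≤ r) (h1 : r < 1) :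
    Summable fun n : ℤ => r ^ ((n * (n + 1)).natAbs) := by
  rcases h0.eq_or_lt with rfl | hr
  · apply summable_of_hasFiniteSupport
    apply (Set.toFinite ({0, -1} : Set ℤ)).subset
    intro n hn
    by_contra hcon
    apply hn
    simp only [mem_insert_iff, mem_singleton_iff, not_or] at hcon
    have : (n * (n + 1)).natAbs ≠ 0 := by
      rw [Int.natAbs_ne_zero]
      apply mul_ne_zero hcon.1
      intro h; apply hcon.2; omega
    simp [this]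
  · have h := (summable_pow_natAbs h0 h1).mul_left r⁻¹
    refine h.of_nonneg_of_le (fun n => by positivity) (fun n => ?_)
    rw [inv_mul_eq_div, le_div_iff₀ hr, ← pow_succ]
    exact pow_le_pow_of_le_one h0 h1.le (natAbs_le_mul n)

section complex
variable {q : ℂ}

theorem norm_sgn (n : ℤ) : ‖(-1 : ℂ) ^ n‖ = 1 := by simp

theorem norm_t3 (q : ℂ) (n : ℤ) : ‖q ^ (n.natAbs ^ 2)‖ = ‖q‖ ^ (n.natAbs ^ 2) := norm_pow _ _

theorem norm_t4 (q : ℂ) (n : ℤ) :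
    ‖(-1 : ℂ) ^ n * q ^ (n.natAbs ^ 2)‖ = ‖q‖ ^ (n.natAbs ^ 2) := by
  rw [norm_mul, norm_sgn, one_mul, norm_pow]

theorem norm_t2 (q : ℂ) (n : ℤ) :
    ‖q ^ ((n * (n + 1)).natAbs)‖ = ‖q‖ ^ ((n * (n + 1)).natAbs) := norm_pow _ _

theorem sn3 (h : ‖q‖ < 1) : Summable fun n : ℤ => ‖q ^ (n.natAbs ^ 2)‖ := by
  simp_rw [norm_t3]; exact summable_r3 (norm_nonneg _) h

theorem sn4 (h : ‖q‖ < 1) : Summable fun n : ℤ => ‖(-1 : ℂ) ^ n * q ^ (n.natAbs ^ 2)‖ := by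
  simp_rw [norm_t4]; exact summable_r3 (norm_nonneg _) h

theorem sn2 (h : ‖q‖ < 1) : Summable fun n : ℤ => ‖q ^ ((n * (n + 1)).natAbs)‖ := by
  simp_rw [norm_t2]; exact summable_r2 (norm_nonneg _) h

theorem sq_lt (h : ‖q‖ < 1) : ‖q ^ 2‖ < 1 := by
  rw [norm_pow]; exact pow_lt_one₀ (norm_nonneg _) h two_ne_zero

/-- `(u,v) ↦ (u+v,u-v)` -/
def emb (z : ℤ × ℤ) : ℤ × ℤ := (z.1 + z.2, z.1 - z.2)

/-- `(u,v) ↦ (u+v+1,u-v)` -/
def emb' (z : ℤ × ℤ) : ℤ × ℤ := (z.1 + z.2 + 1, z.1 - z.2)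

theorem emb_inj : Function.Injective emb := by
  rintro ⟨a, b⟩ ⟨c, d⟩ h
  simp only [emb, Prod.mk.injEq] at h
  ext <;> simp <;> omega

theorem emb'_inj : Function.Injective emb' := by
  rintro ⟨a, b⟩ ⟨c, d⟩ h
  simp only [emb', Prod.mk.injEq] at h
  ext <;> simp <;> omega

theorem mem_range_emb {z : ℤ × ℤ} (h : Even (z.1 + z.2)) : z ∈ range emb := by
  obtain ⟨k, hk⟩ := h
  refine ⟨(k, z.1 - k), ?_⟩
  ext <;> simp [emb] <;> omega

theorem mem_range_emb' {z : ℤ × ℤ} (h : Odd (z.1 + z.2)) : z ∈ range emb' := by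
  obtain ⟨k, hk⟩ := h
  refine ⟨(k, z.1 - k - 1), ?_⟩
  ext <;> simp [emb'] <;> omega

theorem exp_emb (u v : ℤ) :
    (u + v).natAbs ^ 2 + (u - v).natAbs ^ 2 = 2 * (u.natAbs ^ 2 + v.natAbs ^ 2) := by
  have : (((u + v).natAbs ^ 2 + (u - v).natAbs ^ 2 : ℕ) : ℤ) =
      ((2 * (u.natAbs ^ 2 + v.natAbs ^ 2) : ℕ) : ℤ) := by
    push_cast
    simp only [sq_abs]
    ring
  exact_mod_cast this

theorem nat_mul_succ (u : ℤ) : (((u * (u + 1)).natAbs : ℕ) : ℤ) = u * (u + 1) := by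
  apply Int.natAbs_of_nonneg
  rcases le_or_gt 0 u with h | h
  · positivity
  · have : u + 1 ≤ 0 := h
    nlinarith

theorem exp_emb' (u v : ℤ) :
    (u + v + 1).natAbs ^ 2 + (u - v).natAbs ^ 2 =
      1 + 2 * ((u * (u + 1)).natAbs + (v * (v + 1)).natAbs) := by
  have : (((u + v + 1).natAbs ^ 2 + (u - v).natAbs ^ 2 : ℕ) : ℤ) =
      ((1 + 2 * ((u * (u + 1)).natAbs + (v * (v + 1)).natAbs) : ℕ) : ℤ) := by
    push_cast [nat_mul_succ]
    rw [← Int.natCast_natAbs (u * (u + 1)), ← Int.natCast_natAbs (v * (v + 1)), nat_mul_succ,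
      nat_mul_succ]
    simp only [sq_abs]
    ring
  exact_mod_cast this

theorem sgn_mul_self (n : ℤ) : (-1 : ℂ) ^ n * (-1 : ℂ) ^ n = 1 := by
  rw [← zpow_add₀ (by norm_num)]
  exact (Even.add_self n).neg_one_zpow

theorem dup1 (h : ‖q‖ < 1) : T3 q ^ 2 + T4 q ^ 2 = 2 * T3 (q ^ 2) ^ 2 := by
  have h2 := sq_lt h
  rw [pow_two, pow_two, pow_two (T3 (q ^ 2))]
  unfold T3 T4
  rw [tsum_mul_tsum_of_summable_norm (sn3 h) (sn3 h), tsum_mul_tsum_of_summable_norm (sn4 h) (sn4 h),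
    tsum_mul_tsum_of_summable_norm (sn3 h2) (sn3 h2)]
  have s1 : Summable fun z : ℤ × ℤ => q ^ (z.1.natAbs ^ 2) * q ^ (z.2.natAbs ^ 2) :=
    summable_mul_of_summable_norm (f := fun n : ℤ => q ^ (n.natAbs ^ 2))
      (g := fun n : ℤ => q ^ (n.natAbs ^ 2)) (sn3 h) (sn3 h)
  have s2 : Summable fun z : ℤ × ℤ => ((-1 : ℂ) ^ z.1 * q ^ (z.1.natAbs ^ 2)) *
      ((-1 : ℂ) ^ z.2 * q ^ (z.2.natAbs ^ 2)) :=
    summable_mul_of_summable_norm (f := fun n : ℤ => (-1 : ℂ) ^ n * q ^ (n.natAbs ^ 2))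
      (g := fun n : ℤ => (-1 : ℂ) ^ n * q ^ (n.natAbs ^ 2)) (sn4 h) (sn4 h)
  rw [← s1.tsum_add s2, ← tsum_mul_left]
  rw [← emb_inj.tsum_eq]
  · apply tsum_congr
    rintro ⟨u, v⟩
    simp only [emb]
    have e1 : ((-1 : ℂ) ^ (u + v) * q ^ ((u + v).natAbs ^ 2)) *
        ((-1 : ℂ) ^ (u - v) * q ^ ((u - v).natAbs ^ 2)) =
        q ^ ((u + v).natAbs ^ 2) * q ^ ((u - v).natAbs ^ 2) := by
      have : (-1 : ℂ) ^ (u + v) * (-1 : ℂ) ^ (u - v) = 1 := by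
        rw [← zpow_add₀ (by norm_num)]
        have : u + v + (u - v) = u + u := by ring
        rw [this]
        exact (Even.add_self u).neg_one_zpow
      linear_combination (q ^ ((u + v).natAbs ^ 2) * q ^ ((u - v).natAbs ^ 2)) * this
    rw [e1, ← pow_add, exp_emb, ← pow_mul, ← pow_mul, ← pow_add, ← mul_add]
    ring
  · intro z hz
    by_contra hcon
    apply hz
    have hodd : Odd (z.1 + z.2) := by
      rw [← Int.not_even_iff_odd]
      intro he; exact hcon (mem_range_emb he)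
    have : (-1 : ℂ) ^ z.1 * (-1 : ℂ) ^ z.2 = -1 := by
      rw [← zpow_add₀ (by norm_num)]
      exact hodd.neg_one_zpow
    linear_combination (q ^ (z.1.natAbs ^ 2) * q ^ (z.2.natAbs ^ 2)) * this

theorem dup3 (h : ‖q‖ < 1) : T3 q ^ 2 - T4 q ^ 2 = 2 * q * T2 (q ^ 2) ^ 2 := by
  have h2 := sq_lt h
  rw [pow_two, pow_two, pow_two (T2 (q ^ 2))]
  unfold T3 T4 T2
  rw [tsum_mul_tsum_of_summable_norm (sn3 h) (sn3 h), tsum_mul_tsum_of_summable_norm (sn4 h) (sn4 h),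
    tsum_mul_tsum_of_summable_norm (sn2 h2) (sn2 h2)]
  have s1 : Summable fun z : ℤ × ℤ => q ^ (z.1.natAbs ^ 2) * q ^ (z.2.natAbs ^ 2) :=
    summable_mul_of_summable_norm (f := fun n : ℤ => q ^ (n.natAbs ^ 2))
      (g := fun n : ℤ => q ^ (n.natAbs ^ 2)) (sn3 h) (sn3 h)
  have s2 : Summable fun z : ℤ × ℤ => ((-1 : ℂ) ^ z.1 * q ^ (z.1.natAbs ^ 2)) *
      ((-1 : ℂ) ^ z.2 * q ^ (z.2.natAbs ^ 2)) :=
    summable_mul_of_summable_norm (f := fun n : ℤ => (-1 : ℂ) ^ n * q ^ (n.natAbs ^ 2))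
      (g := fun n : ℤ => (-1 : ℂ) ^ n * q ^ (n.natAbs ^ 2)) (sn4 h) (sn4 h)
  rw [← s1.tsum_sub s2, ← tsum_mul_left]
  rw [← emb'_inj.tsum_eq]
  · apply tsum_congr
    rintro ⟨u, v⟩
    simp only [emb']
    have e1 : ((-1 : ℂ) ^ (u + v + 1) * q ^ ((u + v + 1).natAbs ^ 2)) *
        ((-1 : ℂ) ^ (u - v) * q ^ ((u - v).natAbs ^ 2)) =
        - (q ^ ((u + v + 1).natAbs ^ 2) * q ^ ((u - v).natAbs ^ 2)) := by
      have : (-1 : ℂ) ^ (u + v + 1) * (-1 : ℂ) ^ (u - v) = -1 := by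
        rw [← zpow_add₀ (by norm_num)]
        have : u + v + 1 + (u - v) = 2 * u + 1 := by ring
        rw [this]
        exact (odd_two_mul_add_one u).neg_one_zpow
      linear_combination (q ^ ((u + v + 1).natAbs ^ 2) * q ^ ((u - v).natAbs ^ 2)) * this
    rw [e1, ← pow_add, exp_emb', ← pow_mul, ← pow_mul, pow_add, pow_one, mul_add, pow_add]
    ring
  · intro z hz
    by_contra hcon
    apply hz
    have heven : Even (z.1 + z.2) := by
      rw [← Int.not_odd_iff_even]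
      intro he; exact hcon (mem_range_emb' he)
    have : (-1 : ℂ) ^ z.1 * (-1 : ℂ) ^ z.2 = 1 := by
      rw [← zpow_add₀ (by norm_num)]
      exact heven.neg_one_zpow
    linear_combination (-(q ^ (z.1.natAbs ^ 2) * q ^ (z.2.natAbs ^ 2))) * this

theorem dup2 (h : ‖q‖ < 1) : T3 q * T4 q = T4 (q ^ 2) ^ 2 := by
  have h2 := sq_lt h
  have hsym : 2 * (T3 q * T4 q) = T3 q * T4 q + T4 q * T3 q := by ring
  have main : 2 * (T3 q * T4 q) = 2 * T4 (q ^ 2) ^ 2 := by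
    rw [hsym, pow_two (T4 (q ^ 2))]
    unfold T3 T4
    rw [tsum_mul_tsum_of_summable_norm (sn3 h) (sn4 h),
      tsum_mul_tsum_of_summable_norm (sn4 h) (sn3 h),
      tsum_mul_tsum_of_summable_norm (sn4 h2) (sn4 h2)]
    have s1 : Summable fun z : ℤ × ℤ => q ^ (z.1.natAbs ^ 2) *
        ((-1 : ℂ) ^ z.2 * q ^ (z.2.natAbs ^ 2)) :=
      summable_mul_of_summable_norm (f := fun n : ℤ => q ^ (n.natAbs ^ 2))
      (g := fun n : ℤ => (-1 : ℂ) ^ n * q ^ (n.natAbs ^ 2)) (sn3 h) (sn4 h)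
    have s2 : Summable fun z : ℤ × ℤ => ((-1 : ℂ) ^ z.1 * q ^ (z.1.natAbs ^ 2)) *
        q ^ (z.2.natAbs ^ 2) :=
      summable_mul_of_summable_norm (f := fun n : ℤ => (-1 : ℂ) ^ n * q ^ (n.natAbs ^ 2))
      (g := fun n : ℤ => q ^ (n.natAbs ^ 2)) (sn4 h) (sn3 h)
    rw [← s1.tsum_add s2, ← tsum_mul_left]
    rw [← emb_inj.tsum_eq]
    · apply tsum_congr
      rintro ⟨u, v⟩
      simp only [emb]
      have f1 : (-1 : ℂ) ^ (u - v) = (-1 : ℂ) ^ u * (-1 : ℂ) ^ v := by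
        rw [sub_eq_add_neg, zpow_add₀ (by norm_num), zpow_neg]
        congr 1
        rw [inv_eq_iff_eq_inv, eq_comm]
        exact (eq_inv_of_mul_eq_one_left (sgn_mul_self v)).symm
      have f2 : (-1 : ℂ) ^ (u + v) = (-1 : ℂ) ^ u * (-1 : ℂ) ^ v := zpow_add₀ (by norm_num) _ _
      rw [f1, f2]
      have e2 : q ^ ((u + v).natAbs ^ 2) * q ^ ((u - v).natAbs ^ 2) =
          (q ^ 2) ^ (u.natAbs ^ 2) * (q ^ 2) ^ (v.natAbs ^ 2) := by
        rw [← pow_add, exp_emb, ← pow_mul, ← pow_mul, ← pow_add, ← mul_add]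
      linear_combination (2 * ((-1 : ℂ) ^ u * (-1 : ℂ) ^ v)) * e2
    · intro z hz
      by_contra hcon
      apply hz
      have hodd : Odd (z.1 + z.2) := by
        rw [← Int.not_even_iff_odd]
        intro he; exact hcon (mem_range_emb he)
      have h12 : (-1 : ℂ) ^ z.1 * (-1 : ℂ) ^ z.2 = -1 := by
        rw [← zpow_add₀ (by norm_num)]
        exact hodd.neg_one_zpow
      have h22 := sgn_mul_self z.2
      have h3 : (-1 : ℂ) ^ z.1 = - (-1 : ℂ) ^ z.2 := by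
        linear_combination (-1 : ℂ) ^ z.2 * h12 - (-1 : ℂ) ^ z.1 * h22
      linear_combination (q ^ (z.1.natAbs ^ 2) * q ^ (z.2.natAbs ^ 2)) * h3
  exact mul_left_cancel₀ two_ne_zero main

end complex

end RConf
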