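import Pool.Agent.Rect.Mod.Conf.Prim
import Pool.Agent.Rect.Mod.Conf.Elliptic

/-!
The boundary values of the primitive `Phi`.
-/

set_option autoImplicit false

open Complex MeasureTheory Set Filter Topology

namespace RConf

/-! ### real functions -/

lemma const_of_deriv_zero {u : ℝ → ℝ} {D : Set ℝ} (hD : Convex ℝ D) (hc : ContinuousOn u D)
    (hd : ∀ x ∈ interior D, HasDerivAt u 0 x) {x y : ℝ} (hx : x ∈ D) (hy : y ∈ D) : u x = u y := by
  have hdiff : DifferentiableOn ℝ u (interior D) := fun x hx =>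
    (hd x hx).differentiableAt.differentiableWithinAt
  have h1 := monotoneOn_of_deriv_nonneg hD hc hdiff (fun x hx => (hd x hx).deriv.ge)
  have h2 := antitoneOn_of_deriv_nonpos hD hc hdiff (fun x hx => (hd x hx).deriv.le)
  rcases le_total x y with h | h
  · exact le_antisymm (h1 hx hy h) (h2 hx hy h)
  · exact le_antisymm (h2 hy hx h) (h1 hy hx h)

lemma bijOn_Ioo {u : ℝ → ℝ} {a b : ℝ} (hab : a < b) (hc : ContinuousOn u (Icc a b))
    (hm : StrictMonoOn u (Icc a b)) : BijOn u (Ioo a b) (Ioo (u a) (u b)) := by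
  refine ⟨?_, ?_, ?_⟩
  · intro x hx
    exact ⟨hm (left_mem_Icc.2 hab.le) (Ioo_subset_Icc_self hx) hx.1,
      hm (Ioo_subset_Icc_self hx) (right_mem_Icc.2 hab.le) hx.2⟩
  · exact hm.injOn.mono Ioo_subset_Icc_self
  · exact intermediate_value_Ioo hab.le hc

lemma bijOn_Ioi {u : ℝ → ℝ} {a l : ℝ} (hc : ContinuousOn u (Ici a))
    (hm : StrictAntiOn u (Ici a)) (hl : Tendsto u atTop (𝓝 l)) :
    BijOn u (Ioi a) (Ioo l (u a)) := by
  have hlt : ∀ x ∈ Ici a, l < u x := by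
    intro x hx
    have hx1 : x + 1 ∈ Ici a := by
      have : a ≤ x := hx
      show a ≤ x + 1
      linarith
    have h1 : u (x + 1) < u x := hm hx hx1 (by linarith)
    have h2 : l ≤ u (x + 1) := by
      refine le_of_tendsto hl ?_
      filter_upwards [eventually_ge_atTop (x + 1)] with y hy
      exact hm.antitoneOn hx1 (le_trans (show a ≤ x + 1 from hx1) hy) hy
    linarith
  refine ⟨?_, ?_, ?_⟩
  · intro x hx
    exact ⟨hlt x (Ioi_subset_Ici_self hx), hm self_mem_Ici (Ioi_subset_Ici_self hx) hx⟩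
  · exact hm.injOn.mono Ioi_subset_Ici_self
  · intro y hy
    obtain ⟨x, hxa, hxy⟩ : ∃ x, a < x ∧ u x < y :=
      ((eventually_gt_atTop a).and (hl.eventually (eventually_lt_nhds hy.1))).exists
    obtain ⟨z, hz, hzy⟩ := intermediate_value_Ioo' hxa.le (hc.mono Icc_subset_Ici_self)
      ⟨hxy, hy.2⟩
    exact ⟨z, hz.1, hzy⟩

lemma bijOn_Iio {u : ℝ → ℝ} {a l : ℝ} (hc : ContinuousOn u (Iic a))
    (hm : StrictAntiOn u (Iic a)) (hl : Tendsto u atBot (𝓝 l)) :
    BijOn u (Iio a) (Ioo (u a) l) := by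
  have hlt : ∀ x ∈ Iic a, u x < l := by
    intro x hx
    have hx1 : x - 1 ∈ Iic a := by
      have : x ≤ a := hx
      show x - 1 ≤ a
      linarith
    have h1 : u x < u (x - 1) := hm hx1 hx (by linarith)
    have h2 : u (x - 1) ≤ l := by
      refine ge_of_tendsto hl ?_
      filter_upwards [eventually_le_atBot (x - 1)] with y hy
      exact hm.antitoneOn (le_trans hy (show x - 1 ≤ a from hx1)) hx1 hy
    linarith
  refine ⟨?_, ?_, ?_⟩
  · intro x hx
    exact ⟨hm (Iio_subset_Iic_self hx) self_mem_Iic hx, hlt x (Iio_subset_Iic_self hx)⟩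
  · exact hm.injOn.mono Iio_subset_Iic_self
  · intro y hy
    obtain ⟨x, hxa, hxy⟩ : ∃ x, x < a ∧ y < u x :=
      ((eventually_lt_atBot a).and (hl.eventually (eventually_gt_nhds hy.2))).exists
    obtain ⟨z, hz, hzy⟩ := intermediate_value_Ioo' hxa.le (hc.mono Icc_subset_Iic_self)
      ⟨hy.1, hxy⟩
    exact ⟨z, hz.2, hzy⟩

/-! ### the primitive on the real axis -/

variable {m : ℝ}

lemma continuous_Phi_real (h0 : 0 < m) (h1 : m < 1) : Continuous (fun x : ℝ => Phi m x) := by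
  rw [← continuousOn_univ]
  exact (continuousOn_Phi h0 h1).comp continuous_ofReal.continuousOn (fun x _ => by simp)

lemma contRe (h0 : 0 < m) (h1 : m < 1) : Continuous (fun x : ℝ => (Phi m x).re) :=
  Complex.continuous_re.comp (continuous_Phi_real h0 h1)

lemma contIm (h0 : 0 < m) (h1 : m < 1) : Continuous (fun x : ℝ => (Phi m x).im) :=
  Complex.continuous_im.comp (continuous_Phi_real h0 h1)

lemma hasDerivAt_re (h0 : 0 < m) (h1 : m < 1) {x : ℝ} (n0 : x ≠ 0) (nm : x ≠ m) (n1 : x ≠ 1) :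
    HasDerivAt (fun x : ℝ => (Phi m x).re) (-(ff m x).re) x := by
  have h : HasDerivAt (fun x : ℝ => (Phi m x).re) (Complex.reCLM (-ff m x)) x :=
    Complex.reCLM.hasFDerivAt.comp_hasDerivAt x (hasDerivAt_Phi_real h0 h1 n0 nm n1)
  exact h

lemma hasDerivAt_im (h0 : 0 < m) (h1 : m < 1) {x : ℝ} (n0 : x ≠ 0) (nm : x ≠ m) (n1 : x ≠ 1) :
    HasDerivAt (fun x : ℝ => (Phi m x).im) (-(ff m x).im) x := by
  have h : HasDerivAt (fun x : ℝ => (Phi m x).im) (Complex.imCLM (-ff m x)) x :=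
    Complex.imCLM.hasFDerivAt.comp_hasDerivAt x (hasDerivAt_Phi_real h0 h1 n0 nm n1)
  exact h

lemma tendsto_real {l : Filter ℝ} (hl : Tendsto (fun x : ℝ => |x|) l atTop) :
    Tendsto (fun x : ℝ => (x : ℂ)) l (Bornology.cobounded ℂ ⊓ 𝓟 {z | 0 ≤ z.im}) := by
  rw [tendsto_inf, tendsto_principal]
  refine ⟨?_, Eventually.of_forall fun x => by simp⟩
  rw [← comap_norm_atTop, tendsto_comap_iff]
  refine hl.congr fun x => ?_
  simp [Function.comp]

lemma tendsto_atTop (h0 : 0 < m) (h1 : m < 1) :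
    Tendsto (fun x : ℝ => Phi m x) atTop (𝓝 0) :=
  (tendsto_Phi h0 h1).comp (tendsto_real tendsto_abs_atTop_atTop)

lemma tendsto_atBot (h0 : 0 < m) (h1 : m < 1) :
    Tendsto (fun x : ℝ => Phi m x) atBot (𝓝 0) :=
  (tendsto_Phi h0 h1).comp (tendsto_real tendsto_abs_atBot_atTop)

lemma re_atTop (h0 : 0 < m) (h1 : m < 1) : Tendsto (fun x : ℝ => (Phi m x).re) atTop (𝓝 0) := by
  exact (Complex.continuous_re.tendsto 0).comp (tendsto_atTop h0 h1)

lemma im_atTop (h0 : 0 < m) (h1 : m < 1) : Tendsto (fun x : ℝ => (Phi m x).im) atTop (𝓝 0) := by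
  exact (Complex.continuous_im.tendsto 0).comp (tendsto_atTop h0 h1)

lemma re_atBot (h0 : 0 < m) (h1 : m < 1) : Tendsto (fun x : ℝ => (Phi m x).re) atBot (𝓝 0) := by
  exact (Complex.continuous_re.tendsto 0).comp (tendsto_atBot h0 h1)

lemma im_atBot (h0 : 0 < m) (h1 : m < 1) : Tendsto (fun x : ℝ => (Phi m x).im) atBot (𝓝 0) := by
  exact (Complex.continuous_im.tendsto 0).comp (tendsto_atBot h0 h1)

/-! lower side -/

lemma lower_mono (h0 : 0 < m) (h1 : m < 1) :
    StrictMonoOn (fun x : ℝ => (Phi m x).re) (Icc 0 m) := by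
  refine strictMonoOn_of_deriv_pos (convex_Icc _ _) (contRe h0 h1).continuousOn ?_
  intro x hx
  rw [interior_Icc] at hx
  rw [(hasDerivAt_re h0 h1 hx.1.ne' hx.2.ne (by linarith [hx.2])).deriv, ff_lower h1 hx.1 hx.2,
    neg_re, ofReal_re, neg_neg]
  exact DD_pos hx.1.ne' hx.2.ne (by linarith [hx.2])

lemma lower_const (h0 : 0 < m) (h1 : m < 1) {x : ℝ} (hx : x ∈ Icc 0 m) :
    (Phi m x).im = (Phi m (0 : ℝ)).im := by
  refine const_of_deriv_zero (u := fun x : ℝ => (Phi m x).im) (convex_Icc 0 m)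
    (contIm h0 h1).continuousOn ?_ hx (left_mem_Icc.2 h0.le)
  intro x hx
  rw [interior_Icc] at hx
  have h := hasDerivAt_im h0 h1 hx.1.ne' hx.2.ne (by linarith [hx.2])
  rw [ff_lower h1 hx.1 hx.2, neg_im, ofReal_im, neg_neg] at h
  exact h

/-! right side -/

lemma right_mono (h0 : 0 < m) (h1 : m < 1) :
    StrictMonoOn (fun x : ℝ => (Phi m x).im) (Icc m 1) := by
  refine strictMonoOn_of_deriv_pos (convex_Icc _ _) (contIm h0 h1).continuousOn ?_
  intro x hx
  rw [interior_Icc] at hx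
  rw [(hasDerivAt_im h0 h1 (by linarith [hx.1]) hx.1.ne' hx.2.ne).deriv, ff_right h0 hx.1 hx.2]
  simp only [neg_mul, neg_im, neg_neg, mul_im, I_re, I_im, ofReal_re, ofReal_im, zero_mul, one_mul,
    zero_add]
  exact DD_pos (by linarith [hx.1]) hx.1.ne' hx.2.ne

lemma right_const (h0 : 0 < m) (h1 : m < 1) {x : ℝ} (hx : x ∈ Icc m 1) :
    (Phi m x).re = (Phi m (1 : ℝ)).re := by
  refine const_of_deriv_zero (u := fun x : ℝ => (Phi m x).re) (convex_Icc m 1)
    (contRe h0 h1).continuousOn ?_ hx (right_mem_Icc.2 h1.le)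
  intro x hx
  rw [interior_Icc] at hx
  have h := hasDerivAt_re h0 h1 (by linarith [hx.1]) hx.1.ne' hx.2.ne
  rw [ff_right h0 hx.1 hx.2] at h
  simpa using h

/-! upper side -/

lemma upper_anti (h0 : 0 < m) (h1 : m < 1) :
    StrictAntiOn (fun x : ℝ => (Phi m x).re) (Ici 1) := by
  refine strictAntiOn_of_deriv_neg (convex_Ici _) (contRe h0 h1).continuousOn ?_
  intro x hx
  rw [interior_Ici] at hx
  have hx1 : 1 < x := hx
  rw [(hasDerivAt_re h0 h1 (by linarith) (by linarith) hx1.ne').deriv, ff_upper h0 h1 hx1,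
    ofReal_re, neg_lt_zero]
  exact DD_pos (by linarith) (by linarith) hx1.ne'

lemma upper_const (h0 : 0 < m) (h1 : m < 1) {x : ℝ} (hx : 1 ≤ x) : (Phi m x).im = 0 := by
  have hc : ∀ y : ℝ, 1 ≤ y → (Phi m y).im = (Phi m x).im := by
    intro y hy
    refine const_of_deriv_zero (u := fun x : ℝ => (Phi m x).im) (convex_Ici 1)
      (contIm h0 h1).continuousOn ?_ hy hx
    intro x hx
    rw [interior_Ici] at hx
    have hx1 : 1 < x := hx
    have h := hasDerivAt_im h0 h1 (x := x) (by linarith) (by linarith) hx1.ne'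
    rw [ff_upper h0 h1 hx1] at h
    simpa using h
  refine tendsto_nhds_unique ((tendsto_const_nhds (x := (Phi m x).im)).congr' ?_) (im_atTop h0 h1)
  filter_upwards [eventually_ge_atTop 1] with y hy
  exact (hc y hy).symm

/-! left side -/

lemma left_anti (h0 : 0 < m) (h1 : m < 1) :
    StrictAntiOn (fun x : ℝ => (Phi m x).im) (Iic 0) := by
  refine strictAntiOn_of_deriv_neg (convex_Iic _) (contIm h0 h1).continuousOn ?_
  intro x hx
  rw [interior_Iic] at hx
  have hx1 : x < 0 := hx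
  rw [(hasDerivAt_im h0 h1 hx1.ne (by linarith) (by linarith)).deriv, ff_left h0 h1 hx1]
  simp only [neg_lt_zero, mul_im, I_re, I_im, ofReal_re, ofReal_im, zero_mul, one_mul, zero_add]
  exact DD_pos hx1.ne (by linarith) (by linarith)

lemma left_const (h0 : 0 < m) (h1 : m < 1) {x : ℝ} (hx : x ≤ 0) : (Phi m x).re = 0 := by
  have hc : ∀ y : ℝ, y ≤ 0 → (Phi m y).re = (Phi m x).re := by
    intro y hy
    refine const_of_deriv_zero (u := fun x : ℝ => (Phi m x).re) (convex_Iic 0)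
      (contRe h0 h1).continuousOn ?_ hy hx
    intro x hx
    rw [interior_Iic] at hx
    have hx1 : x < 0 := hx
    have h := hasDerivAt_re h0 h1 (x := x) hx1.ne (by linarith) (by linarith)
    rw [ff_left h0 h1 hx1] at h
    simpa using h
  refine tendsto_nhds_unique ((tendsto_const_nhds (x := (Phi m x).re)).congr' ?_) (re_atBot h0 h1)
  filter_upwards [eventually_le_atBot 0] with y hy
  exact (hc y hy).symm

/-! ### the side lengths -/

lemma rpow_half_inv {x : ℝ} (hx : 0 ≤ x) : x ^ (-(1 / 2) : ℝ) = (√x)⁻¹ := by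
  rw [Real.rpow_neg hx, Real.sqrt_eq_rpow]

lemma DD_one_add {x : ℝ} (h1 : m < 1) (hx : 0 < x) : DD m (1 + x ^ 2) * (2 * x) =
    2 * (√((x ^ 2 + 1 ^ 2) * (x ^ 2 + √(1 - m) ^ 2)))⁻¹ := by
  have hx2 : 0 < x ^ 2 := by positivity
  unfold DD
  rw [Real.sq_sqrt (by linarith), abs_of_pos (by linarith), abs_of_pos (by linarith),
    abs_of_pos (by linarith), rpow_half_inv (by linarith), rpow_half_inv (by linarith),
    rpow_half_inv (by linarith), Real.sqrt_mul (by positivity)]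
  have e1 : (1 : ℝ) + x ^ 2 - 1 = x ^ 2 := by ring
  have e2 : (1 : ℝ) + x ^ 2 - m = x ^ 2 + (1 - m) := by ring
  have e3 : (1 : ℝ) + x ^ 2 = x ^ 2 + 1 ^ 2 := by ring
  rw [e1, e2, e3, Real.sqrt_sq hx.le]
  have n1 : √(x ^ 2 + 1 ^ 2) ≠ 0 := (Real.sqrt_pos.2 (by positivity)).ne'
  have n2 : √(x ^ 2 + (1 - m)) ≠ 0 := (Real.sqrt_pos.2 (by linarith)).ne'
  field_simp

lemma DD_neg {x : ℝ} (h0 : 0 < m) (hx : 0 < x) : DD m (-x ^ 2) * (2 * x) =
    2 * (√((x ^ 2 + 1 ^ 2) * (x ^ 2 + √m ^ 2)))⁻¹ := by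
  have hx2 : 0 < x ^ 2 := by positivity
  unfold DD
  rw [Real.sq_sqrt (by linarith), abs_of_neg (by linarith), abs_of_neg (by linarith),
    abs_of_neg (by linarith), rpow_half_inv (by linarith), rpow_half_inv (by linarith),
    rpow_half_inv (by linarith), Real.sqrt_mul (by positivity)]
  have e1 : -(-x ^ 2 - 1) = x ^ 2 + 1 ^ 2 := by ring
  have e2 : -(-x ^ 2 - m) = x ^ 2 + m := by ring
  rw [e1, e2, neg_neg, Real.sqrt_sq hx.le]
  have n1 : √(x ^ 2 + 1 ^ 2) ≠ 0 := (Real.sqrt_pos.2 (by positivity)).ne'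
  have n2 : √(x ^ 2 + m) ≠ 0 := (Real.sqrt_pos.2 (by linarith)).ne'
  field_simp

theorem Phi_one (h0 : 0 < m) (h1 : m < 1) : (Phi m (1 : ℝ)).re = 2 * Kf m := by
  have hc : Continuous (fun x : ℝ => -(Phi m ((1 + x ^ 2 : ℝ) : ℂ)).re) :=
    ((contRe h0 h1).comp (by fun_prop : Continuous fun x : ℝ => 1 + x ^ 2)).neg
  have hd : ∀ x ∈ Ioi (0 : ℝ), HasDerivAt (fun x : ℝ => -(Phi m ((1 + x ^ 2 : ℝ) : ℂ)).re)
      (2 * (√((x ^ 2 + 1 ^ 2) * (x ^ 2 + √(1 - m) ^ 2)))⁻¹) x := by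
    intro x hx
    have hx0 : (0 : ℝ) < x := hx
    have hx2 : 0 < x ^ 2 := by positivity
    have ha := hasDerivAt_re h0 h1 (x := 1 + x ^ 2) (by linarith) (by linarith) (by linarith)
    rw [ff_upper h0 h1 (by linarith), ofReal_re] at ha
    have hb : HasDerivAt (fun x : ℝ => 1 + x ^ 2) (2 * x) x := by
      simpa using (hasDerivAt_pow 2 x).const_add 1
    have hab := (HasDerivAt.comp x ha hb).neg
    rw [← DD_one_add h1 hx0]
    refine hab.congr_deriv ?_
    ring
  have hl : Tendsto (fun x : ℝ => -(Phi m ((1 + x ^ 2 : ℝ) : ℂ)).re) atTop (𝓝 0) := by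
    have ht : Tendsto (fun x : ℝ => 1 + x ^ 2) atTop atTop :=
      tendsto_atTop_add_const_left _ _ (tendsto_pow_atTop (by norm_num))
    simpa using ((re_atTop h0 h1).comp ht).neg
  have key := integral_Ioi_of_hasDerivAt_of_nonneg hc.continuousWithinAt hd
    (fun x _ => by positivity) hl
  rw [integral_const_mul] at key
  unfold Kf JJ
  rw [key]
  norm_num

theorem Phi_zero (h0 : 0 < m) (h1 : m < 1) : (Phi m (0 : ℝ)).im = -(2 * Kf (1 - m)) := by
  have hc : Continuous (fun x : ℝ => (Phi m ((-x ^ 2 : ℝ) : ℂ)).im) :=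
    (contIm h0 h1).comp (by fun_prop : Continuous fun x : ℝ => -x ^ 2)
  have hd : ∀ x ∈ Ioi (0 : ℝ), HasDerivAt (fun x : ℝ => (Phi m ((-x ^ 2 : ℝ) : ℂ)).im)
      (2 * (√((x ^ 2 + 1 ^ 2) * (x ^ 2 + √m ^ 2)))⁻¹) x := by
    intro x hx
    have hx0 : (0 : ℝ) < x := hx
    have hx2 : 0 < x ^ 2 := by positivity
    have ha := hasDerivAt_im h0 h1 (x := -x ^ 2) (by linarith) (by linarith) (by linarith)
    rw [ff_left h0 h1 (by linarith)] at ha
    have hb : HasDerivAt (fun x : ℝ => -x ^ 2) (-(2 * x)) x := by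
      have h2 : HasDerivAt (fun x : ℝ => x ^ 2) (2 * x) x := by simpa using hasDerivAt_pow 2 x
      exact h2.neg
    have hab := (HasDerivAt.comp x ha hb)
    rw [← DD_neg h0 hx0]
    refine hab.congr_deriv ?_
    simp only [mul_im, I_re, I_im, ofReal_re, ofReal_im, zero_mul, one_mul, zero_add]
    ring
  have hl : Tendsto (fun x : ℝ => (Phi m ((-x ^ 2 : ℝ) : ℂ)).im) atTop (𝓝 0) := by
    have ht : Tendsto (fun x : ℝ => -x ^ 2) atTop atBot :=
      tendsto_neg_atBot_iff.2 (tendsto_pow_atTop (by norm_num))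
    exact (im_atBot h0 h1).comp ht
  have key := integral_Ioi_of_hasDerivAt_of_nonneg hc.continuousWithinAt hd
    (fun x _ => by positivity) hl
  rw [integral_const_mul] at key
  unfold Kf JJ
  rw [sub_sub_cancel, key]
  norm_num

end RConf
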